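import Mathlib

namespace Pool.Agent.Lib.Tracial

open scoped InnerProductSpace ComplexConjugate
open Finset

variable {n : ℕ} [NeZero n]

/-- The plane over the integers modulo `n`. -/
abbrev Pl (n : ℕ) := ZMod n × ZMod n

/-- The standard bicharacter. -/
noncomputable def chi (k v : Pl n) : ℂ := ZMod.stdAddChar (k.1 * v.1 + k.2 * v.2)

lemma chi_comm (k v : Pl n) : chi k v = chi v k := by simp [chi, mul_comm]

lemma chi_add (k v w : Pl n) : chi k (v + w) = chi k v * chi k w := by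
  rw [chi, chi, chi, ← AddChar.map_add_eq_mul]; congr 1; simp; ring

@[simp] lemma chi_zero (k : Pl n) : chi k 0 = 1 := by simp [chi]
@[simp] lemma zero_chi (k : Pl n) : chi 0 k = 1 := by simp [chi]

lemma norm_chi (k v : Pl n) : ‖chi k v‖ = 1 := by simp [chi, ZMod.stdAddChar_apply]

lemma conj_chi_mul (k v : Pl n) : conj (chi k v) * chi k v = 1 := by
  rw [Complex.conj_mul', norm_chi]; simp

lemma conj_chi (k v : Pl n) : conj (chi k v) = chi k (-v) := by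
  have h := chi_add k (-v) v
  rw [neg_add_cancel, chi_zero] at h
  rw [← mul_one (conj _), h, mul_left_comm, conj_chi_mul, mul_one]

lemma sum_chi (v : Pl n) : ∑ k, chi k v = if v = 0 then (Fintype.card (Pl n) : ℂ) else 0 := by
  simp only [chi, AddChar.map_add_eq_mul, Fintype.sum_prod_type]
  rw [← Finset.sum_mul_sum, AddChar.sum_mulShift _ (ZMod.isPrimitive_stdAddChar n),
    AddChar.sum_mulShift _ (ZMod.isPrimitive_stdAddChar n)]
  by_cases h1 : v.1 = 0 <;> by_cases h2 : v.2 = 0 <;> simp [h1, h2, Prod.ext_iff]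

lemma half_le_norm (a : ZMod n) (h : (n : ℤ) ≤ 8 * |a.valMinAbs|) :
    1 / 2 ≤ ‖ZMod.stdAddChar a - 1‖ := by
  have hn : (0 : ℝ) < n := by exact_mod_cast NeZero.pos n
  have e : ZMod.stdAddChar a = Complex.exp (Complex.I * (2 * Real.pi * a.valMinAbs / n : ℝ)) := by
    conv_lhs => rw [← ZMod.coe_valMinAbs a, ZMod.stdAddChar_coe]
    congr 1; push_cast; ring
  have h1 : (|a.valMinAbs| : ℤ) * 2 ≤ n := by
    have := ZMod.natAbs_valMinAbs_le a
    rw [Int.abs_eq_natAbs]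
    omega
  have h1' : |(a.valMinAbs : ℝ)| * 2 ≤ n := by exact_mod_cast h1
  have h' : (n : ℝ) ≤ 8 * |(a.valMinAbs : ℝ)| := by exact_mod_cast h
  have e2 : |2 * Real.pi * a.valMinAbs / n / 2| = Real.pi * |(a.valMinAbs : ℝ)| / n := by
    rw [show 2 * Real.pi * a.valMinAbs / n / 2 = Real.pi * a.valMinAbs / n by ring, abs_div, abs_mul,
      abs_of_pos Real.pi_pos, abs_of_pos hn]
  have h2 := Real.mul_abs_le_abs_sin (x := 2 * Real.pi * a.valMinAbs / n / 2) (by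
    rw [e2, div_le_div_iff₀ hn two_pos]; nlinarith [Real.pi_pos])
  rw [e, Complex.norm_exp_I_mul_ofReal_sub_one, Real.norm_eq_abs, abs_mul, abs_two]
  rw [e2] at h2
  have h3 : 1 / 4 ≤ 2 / Real.pi * (Real.pi * |(a.valMinAbs : ℝ)| / n) := by
    field_simp; linarith
  linarith

variable {H : Type*} [NormedAddCommGroup H] [InnerProductSpace ℂ H]

lemma norm_sum_sq_of_orth {ι : Type*} (S : Finset ι) (f : ι → H)
    (h : ∀ i j, i ≠ j → ⟪f i, f j⟫_ℂ = 0) : ‖∑ i ∈ S, f i‖ ^ 2 = ∑ i ∈ S, ‖f i‖ ^ 2 := by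
  classical
  induction S using Finset.induction_on with
  | empty => simp
  | insert a S ha ih =>
    rw [sum_insert ha, sum_insert ha, ← ih, sq, sq, sq,
      norm_add_sq_eq_norm_sq_add_norm_sq_of_inner_eq_zero (𝕜 := ℂ)]
    rw [inner_sum]
    exact sum_eq_zero fun j hj => h _ _ fun e => ha (e ▸ hj)

variable (ρ : Pl n → H →ₗᵢ[ℂ] H)

/-- Fourier component. -/
noncomputable def comp (k : Pl n) : H →ₗ[ℂ] H :=
  (Fintype.card (Pl n) : ℂ)⁻¹ • ∑ v, conj (chi k v) • (ρ v).toLinearMap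

lemma comp_apply (k : Pl n) (ξ : H) :
    comp ρ k ξ = (Fintype.card (Pl n) : ℂ)⁻¹ • ∑ v, conj (chi k v) • ρ v ξ := by
  simp [comp, LinearMap.sum_apply]

variable (h0 : ∀ ξ, ρ 0 ξ = ξ) (hadd : ∀ v w ξ, ρ (v + w) ξ = ρ v (ρ w ξ))

include h0 in
lemma sum_comp (ξ : H) : ∑ k, comp ρ k ξ = ξ := by
  simp only [comp_apply, ← Finset.smul_sum]
  rw [Finset.sum_comm]
  simp only [← Finset.sum_smul, conj_chi, sum_chi, neg_eq_zero]
  have : (Fintype.card (Pl n) : ℂ) ≠ 0 := by simp [NeZero.ne n]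
  simp only [ite_smul, zero_smul, sum_ite_eq', mem_univ, if_true, h0]
  rw [smul_smul, inv_mul_cancel₀ this, one_smul]

include hadd in
lemma comp_rho (k w : Pl n) (ξ : H) : comp ρ k (ρ w ξ) = chi k w • comp ρ k ξ := by
  rw [comp_apply, comp_apply, smul_comm (chi k w), Finset.smul_sum (r := chi k w)]
  congr 1
  refine Fintype.sum_equiv (Equiv.addRight w) _ _ fun v => ?_
  rw [Equiv.coe_addRight, hadd, chi_add, map_mul, smul_smul, mul_comm (conj _), ← mul_assoc,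
    mul_comm (chi k w), conj_chi_mul, one_mul]

include hadd in
lemma rho_comp (k w : Pl n) (ξ : H) : ρ w (comp ρ k ξ) = chi k w • comp ρ k ξ := by
  rw [← comp_rho ρ hadd, comp_apply, comp_apply, map_smul, map_sum]
  simp only [map_smul, ← hadd, add_comm]

include hadd in
lemma comp_orth (ξ : H) (k l : Pl n) (h : k ≠ l) : ⟪comp ρ k ξ, comp ρ l ξ⟫_ℂ = 0 := by
  have h1 : ∀ w, chi w (l - k) * ⟪comp ρ k ξ, comp ρ l ξ⟫_ℂ = ⟪comp ρ k ξ, comp ρ l ξ⟫_ℂ := by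
    intro w
    conv_rhs => rw [← (ρ w).inner_map_map, rho_comp ρ hadd, rho_comp ρ hadd, inner_smul_left,
      inner_smul_right, chi_comm k, chi_comm l, conj_chi, ← mul_assoc, ← chi_add]
    rw [neg_add_eq_sub]
  have h2 := Finset.sum_congr (s₁ := univ) rfl fun w _ => h1 w
  rw [← Finset.sum_mul, sum_chi, if_neg (sub_ne_zero.2 h.symm), zero_mul] at h2
  simpa [NeZero.ne n] using h2

/-- Sum of the components in a set. -/
noncomputable def part (S : Finset (Pl n)) (ξ : H) : H := ∑ k ∈ S, comp ρ k ξ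

include hadd in
lemma norm_part_sq (S : Finset (Pl n)) (ξ : H) : ‖part ρ S ξ‖ ^ 2 = ∑ k ∈ S, ‖comp ρ k ξ‖ ^ 2 :=
  norm_sum_sq_of_orth S _ (comp_orth ρ hadd ξ)

include h0 hadd in
lemma norm_sq_eq (ξ : H) : ‖ξ‖ ^ 2 = ∑ k, ‖comp ρ k ξ‖ ^ 2 := by
  rw [← norm_part_sq ρ hadd, part, sum_comp ρ h0]

include h0 hadd in
lemma norm_part_le (S : Finset (Pl n)) (ξ : H) : ‖part ρ S ξ‖ ≤ ‖ξ‖ := by
  rw [← sq_le_sq₀ (norm_nonneg _) (norm_nonneg _), norm_part_sq ρ hadd, norm_sq_eq ρ h0 hadd]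
  exact sum_le_sum_of_subset_of_nonneg (subset_univ _) fun _ _ _ => sq_nonneg _

include h0 hadd in
lemma part_step (T : H →ₗᵢ[ℂ] H) (g g' : Pl n ≃ Pl n) (hT : ∀ v ξ, T (ρ v ξ) = ρ (g v) (T ξ))
    (hg : ∀ k v, chi (g' k) (g v) = chi k v) {S S' : Finset (Pl n)} (hS : ∀ k, k ∈ S ↔ g' k ∈ S')
    (ξ : H) : ‖part ρ S ξ‖ ≤ ‖part ρ S' ξ‖ + ‖T ξ - ξ‖ := by
  have h1 : T (part ρ S ξ) = part ρ S' ξ + part ρ S' (T ξ - ξ) := by
    simp only [part, map_sub, sum_sub_distrib, add_sub_cancel, map_sum]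
    refine Finset.sum_equiv g' hS fun k _ => ?_
    rw [comp_apply, comp_apply, map_smul, map_sum]
    congr 1
    exact Fintype.sum_equiv g _ _ fun v => by rw [map_smul, hT, hg]
  rw [← T.norm_map, h1]
  exact (norm_add_le _ _).trans (add_le_add le_rfl (norm_part_le ρ h0 hadd _ _))

lemma half_num {a b c d m : ℝ} (ha : 0 ≤ a) (h2 : a ^ 2 + b ^ 2 + c ^ 2 ≤ m)
    (h3 : a ≤ (a + b + c) / 3 + 3 * d) : a ^ 2 ≤ 2 / 5 * m + 54 * d ^ 2 := by
  have h4 : a ^ 2 ≤ ((a + b + c) / 3 + 3 * d) ^ 2 := by gcongr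
  have h5 : (a + b + c) ^ 2 ≤ 3 * m := by
    nlinarith [sq_nonneg (a - b), sq_nonneg (b - c), sq_nonneg (a - c)]
  nlinarith [sq_nonneg ((a + b + c) / 3 - 15 * d)]

include h0 hadd in
lemma part_half (T : H →ₗᵢ[ℂ] H) (g g' : Pl n ≃ Pl n) (hT : ∀ v ξ, T (ρ v ξ) = ρ (g v) (T ξ))
    (hg : ∀ k v, chi (g' k) (g v) = chi k v) (S : ℕ → Finset (Pl n))
    (hS : ∀ j k, k ∈ S j ↔ g' k ∈ S (j + 1)) (hz : ∀ j, 0 ∉ S j) (h03 : Disjoint (S 0) (S 3))
    (h06 : Disjoint (S 0) (S 6)) (h36 : Disjoint (S 3) (S 6)) (ξ : H) :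
    ∑ k ∈ S 0, ‖comp ρ k ξ‖ ^ 2 ≤
      2 / 5 * ∑ k ∈ univ.erase 0, ‖comp ρ k ξ‖ ^ 2 + 54 * ‖T ξ - ξ‖ ^ 2 := by
  have h1 := fun j => part_step ρ h0 hadd T g g' hT hg (hS j) ξ
  have h2 : ‖part ρ (S 0) ξ‖ ^ 2 + ‖part ρ (S 3) ξ‖ ^ 2 + ‖part ρ (S 6) ξ‖ ^ 2 ≤
      ∑ k ∈ univ.erase 0, ‖comp ρ k ξ‖ ^ 2 := by
    simp only [norm_part_sq ρ hadd]
    rw [← sum_union h03, ← sum_union (disjoint_union_left.2 ⟨h06, h36⟩)]
    refine sum_le_sum_of_subset_of_nonneg (fun k hk => ?_) fun _ _ _ => sq_nonneg _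
    rw [mem_erase]
    refine ⟨?_, mem_univ _⟩
    rintro rfl
    simp [hz] at hk
  rw [← norm_part_sq ρ hadd]
  have h3 : ‖part ρ (S 0) ξ‖ ≤ (‖part ρ (S 0) ξ‖ + ‖part ρ (S 3) ξ‖ + ‖part ρ (S 6) ξ‖) / 3 +
      3 * ‖T ξ - ξ‖ := by
    linarith [h1 0, h1 1, h1 2, h1 3, h1 4, h1 5]
  exact half_num (norm_nonneg _) h2 h3

include h0 hadd in
lemma part_out (w : Pl n) (S : Finset (Pl n)) (hS : ∀ k ∈ S, 1 / 2 ≤ ‖chi k w - 1‖) (ξ : H) :
    ∑ k ∈ S, ‖comp ρ k ξ‖ ^ 2 ≤ 4 * ‖ρ w ξ - ξ‖ ^ 2 := by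
  rw [norm_sq_eq ρ h0 hadd, Finset.mul_sum]
  refine (sum_le_sum fun k hk => ?_).trans
    (sum_le_sum_of_subset_of_nonneg (subset_univ S) fun _ _ _ => by positivity)
  rw [map_sub, comp_rho ρ hadd, show chi k w • comp ρ k ξ - comp ρ k ξ =
    (chi k w - 1) • comp ρ k ξ by rw [sub_smul, one_smul], norm_smul, mul_pow]
  have := hS k hk
  have h2 : 1 ≤ 4 * ‖chi k w - 1‖ ^ 2 := by nlinarith
  nlinarith [sq_nonneg ‖comp ρ k ξ‖]

/-- The cone in the box. -/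
def Cone (a b : ZMod n) : Prop :=
  8 * |b.valMinAbs| < n ∧ |a.valMinAbs| ≤ |b.valMinAbs| ∧ b ≠ 0

instance (a b : ZMod n) : Decidable (Cone a b) := by unfold Cone; infer_instance

lemma cone_disj {a b : ZMod n} {i j : ℕ} (hij : j = i + 3 ∨ j = i + 6)
    (h1 : Cone (a - (i : ZMod n) * b) b) (h2 : Cone (a - (j : ZMod n) * b) b) : False := by
  obtain ⟨hb, h1, hb0⟩ := h1
  obtain ⟨-, h2, -⟩ := h2
  have h3 : (n : ℤ) ∣ (a - i * b).valMinAbs - (a - j * b).valMinAbs - (j - i) * b.valMinAbs := by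
    rw [← ZMod.intCast_zmod_eq_zero_iff_dvd]
    push_cast
    ring
  have h4 : b.valMinAbs ≠ 0 := by simpa using hb0
  generalize (a - i * b).valMinAbs = x at *
  generalize (a - j * b).valMinAbs = y at *
  generalize b.valMinAbs = z at *
  have h5 := Int.eq_zero_of_abs_lt_dvd h3 (by
    rw [abs_lt]; rw [abs_le] at h1 h2
    rcases hij with rfl | rfl <;> push_cast <;> rcases abs_cases z with h | h <;> constructor <;>
      linarith [h.1, h.2, h1.1, h1.2, h2.1, h2.2])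
  rw [abs_le] at h1 h2
  rcases hij with rfl | rfl <;> push_cast at h5 <;> rcases abs_cases z with h | h <;>
    apply h4 <;> linarith [h.1, h.2, h1.1, h1.2, h2.1, h2.2]

/-- first shear -/
def shear₁ : Pl n ≃ Pl n where
  toFun v := (v.1 + v.2, v.2)
  invFun v := (v.1 - v.2, v.2)
  left_inv v := by simp
  right_inv v := by simp

/-- second shear -/
def shear₂ : Pl n ≃ Pl n where
  toFun v := (v.1, v.2 + v.1)
  invFun v := (v.1, v.2 - v.1)
  left_inv v := by simp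
  right_inv v := by simp

include h0 hadd in
/-- Relative spectral gap, uniformly in `n`. -/
theorem gap (T₁ T₂ : H →ₗᵢ[ℂ] H) (h₁ : ∀ v ξ, T₁ (ρ v ξ) = ρ (shear₂.symm v) (T₁ ξ))
    (h₂ : ∀ v ξ, T₂ (ρ v ξ) = ρ (shear₁.symm v) (T₂ ξ)) (ξ : H) :
    ‖ξ - comp ρ 0 ξ‖ ≤ 17 * (‖ρ (1, 0) ξ - ξ‖ + ‖ρ (0, 1) ξ - ξ‖ + ‖T₁ ξ - ξ‖ + ‖T₂ ξ - ξ‖) := by
  have e : ‖ξ - comp ρ 0 ξ‖ ^ 2 = ∑ k ∈ univ.erase 0, ‖comp ρ k ξ‖ ^ 2 := by
    rw [← norm_part_sq ρ hadd, part, sum_erase_eq_sub (mem_univ _), sum_comp ρ h0]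
  have a1 := part_half ρ h0 hadd T₁ shear₂.symm shear₁ h₁
    (fun k v => by simp only [chi, shear₁, shear₂]; congr 1; simp; ring)
    (fun j => univ.filter fun k => Cone (k.1 - (j : ZMod n) * k.2) k.2)
    (fun j k => by
      simp only [mem_filter, mem_univ, true_and, shear₁, Equiv.coe_fn_mk]
      rw [show k.1 + k.2 - ((j + 1 : ℕ) : ZMod n) * k.2 = k.1 - j * k.2 by push_cast; ring])
    (fun j => by simp [Cone])
    (disjoint_filter.2 fun k _ h h' => cone_disj (by simp) h h')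
    (disjoint_filter.2 fun k _ h h' => cone_disj (by simp) h h')
    (disjoint_filter.2 fun k _ h h' => cone_disj (by simp) h h') ξ
  have a2 := part_half ρ h0 hadd T₂ shear₁.symm shear₂ h₂
    (fun k v => by simp only [chi, shear₁, shear₂]; congr 1; simp; ring)
    (fun j => univ.filter fun k => Cone (k.2 - (j : ZMod n) * k.1) k.1)
    (fun j k => by
      simp only [mem_filter, mem_univ, true_and, shear₂, Equiv.coe_fn_mk]
      rw [show k.2 + k.1 - ((j + 1 : ℕ) : ZMod n) * k.1 = k.2 - j * k.1 by push_cast; ring])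
    (fun j => by simp [Cone])
    (disjoint_filter.2 fun k _ h h' => cone_disj (by simp) h h')
    (disjoint_filter.2 fun k _ h h' => cone_disj (by simp) h h')
    (disjoint_filter.2 fun k _ h h' => cone_disj (by simp) h h') ξ
  have a3 := part_out ρ h0 hadd (1, 0) (univ.filter fun k => (n : ℤ) ≤ 8 * |k.1.valMinAbs|)
    (fun k hk => by simpa [chi] using half_le_norm _ (mem_filter.1 hk).2) ξ
  have a4 := part_out ρ h0 hadd (0, 1) (univ.filter fun k => (n : ℤ) ≤ 8 * |k.2.valMinAbs|)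
    (fun k hk => by simpa [chi] using half_le_norm _ (mem_filter.1 hk).2) ξ
  simp only [Nat.cast_zero, zero_mul, sub_zero] at a1 a2
  have a5 : ∑ k ∈ univ.erase 0, ‖comp ρ k ξ‖ ^ 2 ≤
      ∑ k with Cone k.1 k.2, ‖comp ρ k ξ‖ ^ 2 + ∑ k with Cone k.2 k.1, ‖comp ρ k ξ‖ ^ 2 +
      ∑ k with (n : ℤ) ≤ 8 * |k.1.valMinAbs|, ‖comp ρ k ξ‖ ^ 2 +
      ∑ k with (n : ℤ) ≤ 8 * |k.2.valMinAbs|, ‖comp ρ k ξ‖ ^ 2 := by
    rw [← filter_ne' univ (0 : Pl n)]
    simp only [sum_filter, ← sum_add_distrib]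
    refine sum_le_sum fun k _ => ?_
    have := sq_nonneg ‖comp ρ k ξ‖
    by_cases c0 : k = 0
    · rw [if_neg (not_not.2 c0)]; positivity
    have : Cone k.1 k.2 ∨ Cone k.2 k.1 ∨ (n : ℤ) ≤ 8 * |k.1.valMinAbs| ∨
        (n : ℤ) ≤ 8 * |k.2.valMinAbs| := by
      by_contra hc
      simp only [not_or, not_le, Cone, not_and, not_not] at hc
      obtain ⟨c1, c2, c3, c4⟩ := hc
      apply c0
      rcases le_total |k.1.valMinAbs| |k.2.valMinAbs| with h | h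
      · have := c1 c4 h
        rw [this] at h
        exact Prod.ext (by simpa using h) this
      · have := c2 c3 h
        rw [this] at h
        exact Prod.ext this (by simpa using h)
    rw [if_pos c0]
    split_ifs <;> first | linarith | tauto
  rw [← e] at a1 a2 a5
  apply le_of_sq_le_sq _ (by positivity)
  have p1 := norm_nonneg (ρ (1, 0) ξ - ξ)
  have p2 := norm_nonneg (ρ (0, 1) ξ - ξ)
  have p3 := norm_nonneg (T₁ ξ - ξ)
  have p4 := norm_nonneg (T₂ ξ - ξ)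
  nlinarith [mul_nonneg p1 p2, mul_nonneg p1 p3, mul_nonneg p1 p4, mul_nonneg p2 p3,
    mul_nonneg p2 p4, mul_nonneg p3 p4, sq_nonneg ‖ρ (1, 0) ξ - ξ‖, sq_nonneg ‖ρ (0, 1) ξ - ξ‖,
    sq_nonneg ‖T₁ ξ - ξ‖, sq_nonneg ‖T₂ ξ - ξ‖]

end Pool.Agent.Lib.Tracial
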