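import Pool.Agent.Lib.Tracial.VN
import Pool.Agent.Lib.Tracial.Expander

namespace Pool.Agent.Lib.Tracial

open scoped ComplexOrder InnerProductSpace ComplexConjugate
open Filter Topology Finset

variable {A : Type*} [CStarAlgebra A]

/-- Average of conjugations. -/
noncomputable def avg {D : Type*} [Fintype D] (u : D → A) : Module.End ℂ A :=
  (Fintype.card D : ℂ)⁻¹ • ∑ d, LinearMap.mulLeftRight ℂ (u d, star (u d))

lemma avg_apply {D : Type*} [Fintype D] (u : D → A) (z : A) :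
    avg u z = (Fintype.card D : ℂ)⁻¹ • ∑ d, u d * z * star (u d) := by
  simp [avg, LinearMap.sum_apply]

lemma map_avg {B : Type*} [CStarAlgebra B] (φ : A →⋆ₐ[ℂ] B) {D : Type*} [Fintype D] (u : D → A)
    (z : A) : φ (avg u z) = avg (fun d => φ (u d)) (φ z) := by
  simp [avg_apply, map_star]

lemma norm_avg_le {D : Type*} [Fintype D] {u : D → A} (hu : ∀ d, u d ∈ unitary A) (z : A) :
    ‖avg u z‖ ≤ ‖z‖ := by
  rw [avg_apply, norm_smul, norm_inv, Complex.norm_natCast]
  refine inv_mul_le_of_le_mul₀ (by positivity) (norm_nonneg _) ((norm_sum_le _ _).trans ?_)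
  simp [TrState.norm_conj_le (hu _)]

/-- Being an average of unitary conjugations. -/
def IsAvg (S : Module.End ℂ A) : Prop :=
  ∃ (D : Type) (_ : Fintype D) (_ : Nonempty D) (u : D → A), (∀ d, u d ∈ unitary A) ∧ S = avg u

lemma IsAvg.one : IsAvg (1 : Module.End ℂ A) :=
  ⟨Unit, inferInstance, inferInstance, fun _ => 1, fun _ => one_mem _, by ext; simp [avg_apply]⟩

lemma IsAvg.mul {S T : Module.End ℂ A} (hS : IsAvg S) (hT : IsAvg T) : IsAvg (S * T) := by
  obtain ⟨D, _, _, u, hu, rfl⟩ := hS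
  obtain ⟨E, _, _, v, hv, rfl⟩ := hT
  refine ⟨D × E, inferInstance, inferInstance, fun p => u p.1 * v p.2,
    fun p => mul_mem (hu _) (hv _), ?_⟩
  ext z
  simp [avg_apply, Fintype.sum_prod_type, mul_sum, sum_mul, ← smul_sum, smul_smul, mul_assoc,
    mul_comm]
  rw [sum_comm]

lemma IsAvg.pow {S : Module.End ℂ A} (hS : IsAvg S) (k : ℕ) : IsAvg (S ^ k) := by
  induction k with
  | zero => exact IsAvg.one
  | succ k ih => exact pow_succ S k ▸ ih.mul hS

lemma IsAvg.mid {S : Module.End ℂ A} (hS : IsAvg S) : IsAvg ((2 : ℂ)⁻¹ • (1 + S)) := by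
  obtain ⟨D, _, _, u, hu, rfl⟩ := hS
  refine ⟨D ⊕ D, inferInstance, inferInstance, Sum.elim (fun _ => 1) u, ?_, ?_⟩
  · rintro (d | d)
    exacts [one_mem _, hu d]
  ext z
  have : (Fintype.card D : ℂ) ≠ 0 := by simp
  simp only [LinearMap.smul_apply, LinearMap.add_apply, Module.End.one_apply, avg_apply,
    Fintype.card_sum, Nat.cast_add, Fintype.sum_sum_type, Sum.elim_inl, Sum.elim_inr, star_one,
    one_mul, mul_one, sum_const, card_univ, ← Nat.cast_smul_eq_nsmul ℂ, smul_add, smul_smul]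
  congr 2 <;> field_simp <;> ring

lemma IsAvg.norm_le {S : Module.End ℂ A} (hS : IsAvg S) (z : A) : ‖S z‖ ≤ ‖z‖ := by
  obtain ⟨D, _, _, u, hu, rfl⟩ := hS
  exact norm_avg_le hu z

lemma IsAvg.pl {S : Module.End ℂ A} (hS : IsAvg S) :
    ∃ (n : ℕ) (_ : NeZero n) (u : Pl n → A), (∀ d, u d ∈ unitary A) ∧ S = avg u := by
  obtain ⟨D, _, _, u, hu, rfl⟩ := hS
  haveI : NeZero (Fintype.card D) := ⟨Fintype.card_ne_zero⟩
  let e : ZMod (Fintype.card D) ≃ D := Fintype.equivOfCardEq (ZMod.card _)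
  refine ⟨Fintype.card D, this, fun p => u (e p.2), fun _ => hu _, ?_⟩
  ext z
  have : (Fintype.card D : ℂ) ≠ 0 := by simp
  simp only [avg_apply, Fintype.sum_prod_type, sum_const, card_univ, ← Nat.cast_smul_eq_nsmul ℂ,
    smul_smul, Fintype.card_prod, ZMod.card, e.sum_comp fun d => u d * z * star (u d)]
  congr 1
  push_cast
  field_simp

namespace TrState

variable (t : TrState A)

lemma cm_nonneg (a b : A) : 0 ≤ t.cm a b := t.n2_nonneg _
lemma cm_comm (a b : A) : t.cm a b = t.cm b a := t.n2_sub_comm _ _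

lemma cm_le_add {a : A} (ha : ‖a‖ ≤ 1) (b c : A) : t.cm a b ≤ t.cm a c + 2 * t.n2 (b - c) := by
  have : a * b - b * a = a * c - c * a + (a * (b - c) - (b - c) * a) := by noncomm_ring
  rw [cm, this]
  refine (t.n2_add_le _ _).trans (add_le_add le_rfl ((t.n2_sub_le _ _).trans ?_))
  linarith [t.n2_mul_le_of_le ha (b - c), t.n2_mul_le_of_le' (b - c) ha]

lemma cm_star_unitary {u : A} (hu : u ∈ unitary A) (z : A) : t.cm (star u) z = t.cm u z := by
  rw [cm, ← t.n2_unitary_mul hu, ← t.n2_mul_unitary _ hu, cm_comm, cm]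
  congr 1
  rw [mul_sub, sub_mul, ← mul_assoc, Unitary.mul_star_self_of_mem hu, one_mul, mul_assoc,
    mul_assoc, Unitary.star_mul_self_of_mem hu, mul_one]

lemma n2_avg_le {D : Type*} [Fintype D] {u : D → A} (hu : ∀ d, u d ∈ unitary A) (z : A) :
    t.n2 (avg u z) ≤ t.n2 z := by
  rw [avg_apply, n2_smul, norm_inv, Complex.norm_natCast]
  refine inv_mul_le_of_le_mul₀ (by positivity) (t.n2_nonneg _) ((t.n2_sum_le _ _).trans ?_)
  simp [t.n2_conj (hu _)]

lemma τ_avg {D : Type*} [Fintype D] [Nonempty D] {u : D → A} (hu : ∀ d, u d ∈ unitary A) (z : A) :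
    t.τ (avg u z) = t.τ z := by
  have : (Fintype.card D : ℂ) ≠ 0 := by simp
  simp [avg_apply, t.τ_conj (hu _), this]

lemma n2_sub_avg_le {D : Type*} [Fintype D] [Nonempty D] {u : D → A} (hu : ∀ d, u d ∈ unitary A)
    (z : A) : t.n2 (z - avg u z) ^ 2 ≤ (Fintype.card D : ℝ)⁻¹ * ∑ d, t.cm (u d) z ^ 2 := by
  have h0 : (Fintype.card D : ℂ) ≠ 0 := by simp
  have h0' : (0 : ℝ) < Fintype.card D := by simp [Fintype.card_pos]
  have : z - avg u z = (Fintype.card D : ℂ)⁻¹ • ∑ d, (z - u d * z * star (u d)) := by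
    simp [avg_apply, smul_sub, ← Nat.cast_smul_eq_nsmul ℂ, smul_smul, h0]
  have h1 : t.n2 (z - avg u z) ≤ (Fintype.card D : ℝ)⁻¹ * ∑ d, t.cm (u d) z := by
    rw [this, n2_smul, norm_inv, Complex.norm_natCast]
    refine mul_le_mul_of_nonneg_left ((t.n2_sum_le _ _).trans_eq ?_) (by positivity)
    simp only [t.n2_sub_comm z, t.n2_conj_sub (hu _), cm]
  refine (pow_le_pow_left₀ (t.n2_nonneg _) h1 2).trans ?_
  have h2 := sq_sum_le_card_mul_sum_sq (s := univ) (f := fun d => t.cm (u d) z)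
  rw [card_univ] at h2
  rw [mul_pow, sq, mul_assoc]
  gcongr
  rwa [inv_mul_le_iff₀ h0']

lemma cm_sq_le {D : Type*} [Fintype D] {u : D → A} (hu : ∀ d, u d ∈ unitary A) {z : A}
    (hz : ‖z‖ ≤ 1) (d : D) : t.cm (u d) z ^ 2 ≤ 2 * Fintype.card D * t.n2 (z - avg u z) := by
  have h0 : (Fintype.card D : ℂ) ≠ 0 := by haveI : Nonempty D := ⟨d⟩; simp
  have h1 : ∀ e, t.cm (u e) z ^ 2 = 2 * (t.τ (star z * (z - u e * z * star (u e)))).re := by
    intro e
    have h2 : ‖t.Λ (u e * z * star (u e))‖ = ‖t.Λ z‖ := t.n2_conj (hu e) z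
    rw [cm, ← t.n2_conj_sub (hu e), n2_sub_comm, n2, map_sub, @norm_sub_sq ℂ, h2, ← inner_Λ, map_sub,
      inner_sub_right, Complex.sub_re, @InnerProductSpace.norm_sq_eq_re_inner ℂ]
    simp only [RCLike.re_to_complex]
    ring
  have h3 : ∑ e, t.cm (u e) z ^ 2 =
      2 * (Fintype.card D * t.τ (star z * (z - avg u z))).re := by
    simp only [h1, ← mul_sum, ← Complex.re_sum, ← map_sum, avg_apply]
    rw [← smul_eq_mul (Fintype.card D : ℂ), ← map_smul, ← mul_smul_comm, smul_sub, smul_smul,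
      mul_inv_cancel₀ h0, one_smul, sum_sub_distrib, sum_const, card_univ, Nat.cast_smul_eq_nsmul]
  refine (single_le_sum (f := fun e => t.cm (u e) z ^ 2) (fun _ _ => sq_nonneg _)
    (mem_univ d)).trans ?_
  rw [h3, mul_assoc]
  gcongr
  refine (Complex.re_le_norm _).trans ?_
  rw [norm_mul, Complex.norm_natCast]
  gcongr
  refine (t.norm_τ_mul_le _ _).trans (mul_le_of_le_one_left (t.n2_nonneg _) ?_)
  rw [n2_star]; exact (t.n2_le_norm z).trans hz

/-- A uniform mean ergodic statement. -/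
theorem exists_isAvg {D : Type} [Fintype D] [Nonempty D] {u : D → A} (hu : ∀ d, u d ∈ unitary A)
    {δ : ℝ} (hδ : 0 < δ) : ∃ S, IsAvg S ∧ ∀ z, ‖z‖ ≤ 1 → ∀ d, t.cm (u d) (S z) ≤ δ := by
  have hT : IsAvg (avg u) := ⟨D, inferInstance, inferInstance, u, hu, rfl⟩
  have h : ∀ r : ℕ, ∃ S, IsAvg S ∧
      (1 - avg u) * S = ((2 : ℂ)⁻¹ ^ r) • (1 - avg u ^ 2 ^ r) := by
    intro r
    induction r with
    | zero => exact ⟨1, IsAvg.one, by simp⟩
    | succ r ih =>
      obtain ⟨S, hS, h⟩ := ih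
      refine ⟨_, hS.mul (hT.pow (2 ^ r)).mid, ?_⟩
      rw [← mul_assoc, h, smul_mul_smul_comm, pow_succ, pow_succ, pow_mul]
      congr 1
      noncomm_ring
  obtain ⟨r, hr⟩ := exists_pow_lt_of_lt_one (x := δ ^ 2 / (4 * Fintype.card D)) (y := (2 : ℝ)⁻¹)
    (by have : (0 : ℝ) < Fintype.card D := by simp [Fintype.card_pos]
        positivity) (by norm_num)
  obtain ⟨S, hS, h⟩ := h r
  refine ⟨S, hS, fun z hz d => le_of_sq_le_sq ((t.cm_sq_le hu ((hS.norm_le z).trans hz) d).trans ?_)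
    hδ.le⟩
  have h1 : S z - avg u (S z) = ((2 : ℂ)⁻¹ ^ r) • (z - (avg u ^ 2 ^ r) z) :=
    congrArg (fun T : Module.End ℂ A => T z) h
  have h2 : t.n2 (z - (avg u ^ 2 ^ r) z) ≤ 2 := by
    refine (t.n2_sub_le _ _).trans ?_
    linarith [t.n2_le_norm z, t.n2_le_norm ((avg u ^ 2 ^ r) z), (hT.pow (2 ^ r)).norm_le z]
  have h0 : (0 : ℝ) < Fintype.card D := by simp [Fintype.card_pos]
  rw [h1, n2_smul, norm_pow, norm_inv, Complex.norm_ofNat]
  rw [lt_div_iff₀ (by positivity)] at hr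
  calc _ ≤ 2 * Fintype.card D * ((2 : ℝ)⁻¹ ^ r * 2) := by gcongr
    _ ≤ _ := by linarith

/-- Conjugation as an isometry of the Hilbert space. -/
noncomputable def ad {u : A} (hu : u ∈ unitary A) : t.L2 →ₗᵢ[ℂ] t.L2 where
  toLinearMap := (t.π u * t.rmul (star u)).toLinearMap
  norm_map' ξ := by
    refine t.denseRange_Λ.induction_on ξ (isClosed_eq (t.π u * t.rmul (star u)).continuous.norm
      (by fun_prop)) fun a => ?_
    simpa [mul_assoc, norm_Λ] using t.n2_conj hu a

lemma ad_Λ {u : A} (hu : u ∈ unitary A) (a : A) : t.ad hu (t.Λ a) = t.Λ (u * a * star u) := by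
  change (t.π u * t.rmul (star u)) _ = _
  simp [mul_assoc]

theorem gap_alg {n : ℕ} [NeZero n] (w : Pl n → A) (hw : ∀ v, w v ∈ unitary A) (h0 : w 0 = 1)
    (hadd : ∀ v v', w (v + v') = w v * w v') {p₁ p₂ : A} (hp₁ : p₁ ∈ unitary A)
    (hp₂ : p₂ ∈ unitary A) (h₁ : ∀ v, p₁ * w v = w (shear₂.symm v) * p₁)
    (h₂ : ∀ v, p₂ * w v = w (shear₁.symm v) * p₂) (z : A) :
    t.n2 (z - avg w z) ≤ 17 * (t.cm (w (1, 0)) z + t.cm (w (0, 1)) z + t.cm p₁ z + t.cm p₂ z) := by
  have hc : ∀ {a b c d : A} (ha : a ∈ unitary A) (hb : b ∈ unitary A) (hc : c ∈ unitary A)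
      (hd : d ∈ unitary A), a * b = c * d → ∀ ξ, t.ad ha (t.ad hb ξ) = t.ad hc (t.ad hd ξ) := by
    intro a b c d ha hb hc hd h ξ
    refine t.denseRange_Λ.induction_on ξ (isClosed_eq (by fun_prop) (by fun_prop)) fun x => ?_
    simp only [ad_Λ]
    congr 1
    calc _ = a * b * x * star (a * b) := by simp only [star_mul, mul_assoc]
      _ = _ := by rw [h]; simp only [star_mul, mul_assoc]
  have h1 : ∀ ξ, t.ad (one_mem _) ξ = ξ := fun ξ =>
    t.denseRange_Λ.induction_on ξ (isClosed_eq (by fun_prop) (by fun_prop)) fun x => by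
      simp [ad_Λ]
  have := gap (fun v => t.ad (hw v)) (fun ξ => by simp only [h0, h1])
    (fun v v' ξ => by rw [← hc (hw _) (one_mem _) (hw v) (hw v') (by rw [mul_one, hadd]), h1])
    (t.ad hp₁) (t.ad hp₂) (fun v => hc _ _ _ _ (h₁ v)) (fun v => hc _ _ _ _ (h₂ v)) (t.Λ z)
  simp only [comp_apply, zero_chi, StarHomClass.map_star, ad_Λ, ← map_sub, norm_Λ,
    RingHom.map_one, one_smul, ← map_sum, ← map_smul, ← avg_apply] at this
  rwa [t.n2_conj_sub (hw _), t.n2_conj_sub (hw _), t.n2_conj_sub hp₁, t.n2_conj_sub hp₂] at this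

end TrState

/-- Permutation matrices. -/
def pm {V : Type*} [DecidableEq V] (σ : V ≃ V) : Matrix V V ℂ :=
  Matrix.of fun i j => if i = σ j then 1 else 0

section pm

variable {V : Type*} [DecidableEq V] [Fintype V]

lemma pm_mul (σ : V ≃ V) (M : Matrix V V ℂ) (i j : V) : (pm σ * M) i j = M (σ.symm i) j := by
  simp [pm, Matrix.mul_apply, ← Equiv.symm_apply_eq]

lemma mul_pm (σ : V ≃ V) (M : Matrix V V ℂ) (i j : V) : (M * pm σ) i j = M i (σ j) := by
  simp [pm, Matrix.mul_apply]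

omit [Fintype V] in
lemma star_pm (σ : V ≃ V) : star (pm σ) = pm σ.symm := by
  ext i j
  simp [pm, Equiv.eq_symm_apply, eq_comm]

lemma pm_unitary (σ : V ≃ V) : pm σ ∈ unitary (Matrix V V ℂ) := by
  constructor <;> ext i j <;> rw [star_pm, pm_mul] <;> simp [pm, Matrix.one_apply]

end pm

lemma map_unitary {B : Type*} [Ring B] [StarRing B] [Algebra ℂ B] (φ : B →⋆ₐ[ℂ] A) {u : B}
    (hu : u ∈ unitary B) : φ u ∈ unitary A :=
  ⟨by rw [← map_star, ← map_mul, hu.1, map_one], by rw [← map_star, ← map_mul, hu.2, map_one]⟩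

lemma norm_unitary_le {u : A} (hu : u ∈ unitary A) : ‖u‖ ≤ 1 := by
  rcases subsingleton_or_nontrivial A with h | h
  · rw [Subsingleton.elim u 0]; simp
  · exact (CStarRing.norm_of_mem_unitary hu).le

lemma comm_avg {D : Type*} [Fintype D] [AddCommGroup D] {w : D → A} (hw : ∀ v, w v ∈ unitary A)
    (hadd : ∀ v v', w (v + v') = w v * w v') (v : D) (z : A) : w v * avg w z = avg w z * w v := by
  rw [avg_apply, mul_smul_comm, smul_mul_assoc, mul_sum, sum_mul]
  congr 1
  refine Fintype.sum_equiv (Equiv.addRight v) _ _ fun d => ?_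
  have h1 : star (w (d + v)) * w v = star (w d) := by
    rw [add_comm, hadd, star_mul, mul_assoc, (hw v).1, mul_one]
  simp only [Equiv.coe_addRight]
  rw [mul_assoc _ (star _), h1, add_comm, hadd]
  simp only [mul_assoc]

variable {n : ℕ} [NeZero n]

/-- translation matrices -/
def mX (v : Pl n) : Matrix (Pl n) (Pl n) ℂ := pm (Equiv.addRight v)

/-- character matrices -/
noncomputable def mZ (v : Pl n) : Matrix (Pl n) (Pl n) ℂ := Matrix.diagonal (chi v)

lemma mX_add (v w : Pl n) : mX (v + w) = mX v * mX w := by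
  ext i j
  simp only [mX, mul_pm]
  simp [pm, add_assoc, add_comm w]

lemma mZ_add (v w : Pl n) : mZ (v + w) = mZ v * mZ w := by
  simp only [mZ, Matrix.diagonal_mul_diagonal, chi_comm v, chi_comm w, ← chi_add]
  congr 1; ext i; exact chi_comm _ _

lemma mZ_unitary (v : Pl n) : mZ v ∈ unitary (Matrix (Pl n) (Pl n) ℂ) := by
  have := conj_chi_mul v
  constructor <;> simp [mZ, Matrix.star_eq_conjTranspose, Matrix.diagonal_conjTranspose,
    Matrix.diagonal_mul_diagonal, this, mul_comm (chi v _)]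

lemma mZ_mul_mX (b v : Pl n) : mZ b * mX v = chi b v • (mX v * mZ b) := by
  ext i j
  simp only [mX, mZ, Matrix.smul_apply, Matrix.mul_diagonal, Matrix.diagonal_mul, pm,
    Matrix.of_apply, Equiv.coe_addRight]
  split_ifs with h
  · simp [h, chi_add, mul_comm]
  · simp

lemma comm_of_XZ (φ : Matrix (Pl n) (Pl n) ℂ →⋆ₐ[ℂ] A) {z : A}
    (hX : ∀ v, φ (mX v) * z = z * φ (mX v)) (hZ : ∀ v, φ (mZ v) * z = z * φ (mZ v))
    (M : Matrix (Pl n) (Pl n) ℂ) : φ M * z = z * φ M := by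
  have h0 : (Fintype.card (Pl n) : ℂ) ≠ 0 := by simp [NeZero.ne n]
  have h1 : ∀ i j : Pl n, Matrix.single i j (1 : ℂ) =
      (Fintype.card (Pl n) : ℂ)⁻¹ • ∑ b, chi b (-j) • (mX (i - j) * mZ b) := by
    intro i j
    ext k l
    simp only [mX, mZ, Matrix.smul_apply, Matrix.sum_apply, Matrix.mul_diagonal, pm,
      Matrix.of_apply, Equiv.coe_addRight, smul_eq_mul, mul_left_comm (chi _ _), ← chi_add,
      ← mul_sum, sum_chi, neg_add_eq_zero, Matrix.single_apply]
    by_cases h : j = l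
    · subst h
      rw [if_pos rfl, mul_left_comm, inv_mul_cancel₀ h0]
      simp [eq_comm]
    · simp [h]
  induction M using Matrix.induction_on' with
  | h_zero => simp
  | h_add M N hM hN => rw [map_add, add_mul, mul_add, hM, hN]
  | h_std_basis i j c =>
    rw [← mul_one c, ← smul_eq_mul c, ← Matrix.smul_single, h1]
    simp only [map_smul, map_sum, map_mul, smul_mul_assoc, mul_smul_comm, sum_mul, mul_sum,
      mul_assoc, hZ]
    simp only [← mul_assoc, hX]

theorem exists_test (t : TrState A) (φ : Matrix (Pl n) (Pl n) ℂ →⋆ₐ[ℂ] A) (u : Pl n → A)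
    (hu : ∀ d, u d ∈ unitary A) (hc : ∀ d M, φ M * u d = u d * φ M) :
    ∃ y : Fin 7 → A, (∀ j, ‖y j‖ ≤ 1) ∧
      ∀ z, t.n2 (z - avg u z) ≤ 137 * ∑ j, t.cm (y j) z := by
  let e : Pl n → A := fun d => φ (Matrix.single d d 1)
  have he : ∀ d d', star (e d) * e d' = if d = d' then e d else 0 := fun d d' => by
    simp only [e, ← map_star, ← map_mul, Matrix.star_eq_conjTranspose, Matrix.conjTranspose_single,
      star_one]
    split_ifs with h
    · simp [h]
    · simp [h]
  have he1 : ∑ d, e d = 1 := by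
    rw [← map_sum, ← map_one φ]
    congr 1
    ext a b
    simp [Matrix.sum_apply, Matrix.single_apply, Matrix.one_apply, ite_and]
  have hsum : ∀ a : Pl n → A, (∀ d M, φ M * a d = a d * φ M) →
      star (∑ d, e d * a d) * ∑ d, e d * a d = ∑ d, e d * (star (a d) * a d) := fun a ha => by
    rw [star_sum, sum_mul_sum]
    refine sum_congr rfl fun d _ => ?_
    simp only [star_mul, mul_assoc, ← mul_assoc (star (e d)), he, ite_mul, zero_mul, mul_ite,
      mul_zero, sum_ite_eq, mem_univ, if_true]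
    have := congrArg star (ha d (star (Matrix.single d d 1)))
    simp only [star_mul, ← map_star, star_star] at this
    rw [← mul_assoc, this, mul_assoc]
  have hX : ∀ v, φ (mX v) ∈ unitary A := fun v => map_unitary φ (pm_unitary (Equiv.addRight v))
  have hY : ‖∑ d, e d * u d‖ ≤ 1 := norm_le_of_pi (by
    rw [hsum u hc]; simp [(hu _).1, he1])
  have hZ := fun v : Pl n => map_unitary φ (mZ_unitary v)
  have hP := fun σ : Pl n ≃ Pl n => map_unitary φ (pm_unitary σ)
  refine ⟨![φ (mX (1, 0)), φ (mX (0, 1)), φ (mZ (1, 0)), φ (mZ (0, 1)), φ (pm shear₁),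
    φ (pm shear₂), ∑ d, e d * u d], fun j => ?_, fun z => ?_⟩
  · fin_cases j
    exacts [norm_unitary_le (hX _), norm_unitary_le (hX _), norm_unitary_le (hZ _),
      norm_unitary_le (hZ _), norm_unitary_le (hP _), norm_unitary_le (hP _), hY]
  have hXa : ∀ v v' : Pl n, φ (mX (v + v')) = φ (mX v) * φ (mX v') := by simp [mX_add]
  have hZa : ∀ v v' : Pl n, φ (mZ (v + v')) = φ (mZ v) * φ (mZ v') := by simp [mZ_add]
  have g1 := t.gap_alg (fun v => φ (mX v)) hX (by
      rw [← map_one φ]; congr 1; ext i j; simp [mX, pm, Matrix.one_apply]) hXa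
    (hP shear₂.symm) (hP shear₁.symm)
    (fun v => by
      rw [← map_mul, ← map_mul]; congr 1; ext i j
      simp only [mX, mul_pm]; simp [pm, shear₂, Prod.ext_iff]; grind)
    (fun v => by
      rw [← map_mul, ← map_mul]; congr 1; ext i j
      simp only [mX, mul_pm]; simp [pm, shear₁, Prod.ext_iff]; grind) z
  have g2 := t.gap_alg (fun v => φ (mZ v)) hZ (by
      rw [← map_one φ]; congr 1; ext i j; simp [mZ, Matrix.one_apply, Matrix.diagonal_apply]) hZa
    (hP shear₁) (hP shear₂)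
    (fun v => by
      rw [← map_mul, ← map_mul]; congr 1; ext i j
      simp only [mZ, Matrix.mul_diagonal, Matrix.diagonal_mul, pm, Matrix.of_apply]
      split_ifs with h
      · simp only [h, chi, shear₁, shear₂]; simp; congr 1; ring
      · simp)
    (fun v => by
      rw [← map_mul, ← map_mul]; congr 1; ext i j
      simp only [mZ, Matrix.mul_diagonal, Matrix.diagonal_mul, pm, Matrix.of_apply]
      split_ifs with h
      · simp only [h, chi, shear₁, shear₂]; simp; congr 1; ring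
      · simp) z
  rw [← star_pm, ← star_pm, map_star, map_star, t.cm_star_unitary (hP _),
    t.cm_star_unitary (hP _)] at g1
  set z₀ := avg (fun v => φ (mX v)) (avg (fun v => φ (mZ v)) z) with hz₀
  have c0 : ∀ M, φ M * z₀ = z₀ * φ M := comm_of_XZ φ (fun v => comm_avg hX hXa v _) fun b => by
    rw [hz₀, avg_apply, mul_smul_comm, smul_mul_assoc, mul_sum, sum_mul]
    congr 1
    refine sum_congr rfl fun v _ => ?_
    have h1 : φ (mZ b) * φ (mX v) = chi b v • (φ (mX v) * φ (mZ b)) := by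
      rw [← map_mul, mZ_mul_mX, map_smul, map_mul]
    have h2 : star (φ (mX v)) * φ (mZ b) = chi b v • (φ (mZ b) * star (φ (mX v))) := by
      calc _ = star (φ (mX v)) * (φ (mZ b) * φ (mX v)) * star (φ (mX v)) := by
            rw [mul_assoc, mul_assoc, (hX v).2, mul_one]
        _ = _ := by
            rw [h1, mul_smul_comm, ← mul_assoc, (hX v).1, one_mul, smul_mul_assoc]
    rw [mul_assoc _ _ (φ (mZ b)), h2, ← mul_assoc, ← mul_assoc, h1, smul_mul_assoc, smul_mul_assoc,
      mul_smul_comm, mul_assoc (φ (mX v)), comm_avg hZ hZa]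
    simp only [mul_assoc]
  have g3 : t.n2 (z - z₀) ≤ t.n2 (z - avg (fun v => φ (mX v)) z) +
      t.n2 (z - avg (fun v => φ (mZ v)) z) := by
    refine (t.n2_triangle _ _ _).trans (add_le_add le_rfl ?_)
    rw [hz₀, ← map_sub]
    exact t.n2_avg_le hX _
  have g4 : t.n2 (z₀ - avg u z₀) ≤ t.cm (∑ d, e d * u d) z₀ := by
    refine le_of_sq_le_sq ((t.n2_sub_avg_le hu z₀).trans_eq ?_) (t.cm_nonneg _ _)
    have h0 : (Fintype.card (Pl n) : ℂ) ≠ 0 := by simp [NeZero.ne n]
    have h1 : (∑ d, e d * u d) * z₀ - z₀ * ∑ d, e d * u d = ∑ d, e d * (u d * z₀ - z₀ * u d) := by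
      simp only [sum_mul, mul_sum, mul_sub, sum_sub_distrib, ← mul_assoc, e, c0]
    have h2 : ∀ d M, φ M * (u d * z₀ - z₀ * u d) = (u d * z₀ - z₀ * u d) * φ M := fun d M => by
      simp only [mul_sub, sub_mul, ← mul_assoc, hc, c0]
      simp only [mul_assoc, hc, c0]
    apply Complex.ofReal_injective
    rw [TrState.cm, h1, t.n2_sq', hsum _ h2, map_sum]
    push_cast
    rw [mul_sum]
    refine sum_congr rfl fun d _ => ?_
    rw [inv_mul_eq_iff_eq_mul₀ h0, t.τ_single_mul φ, ← t.n2_sq', TrState.cm]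
    · push_cast; rfl
    · intro M
      have := congrArg star (h2 d (star M))
      simp only [star_mul, ← map_star, star_star] at this
      rw [← mul_assoc, ← this, mul_assoc, h2, mul_assoc]
  have g5 := t.cm_le_add hY z₀ z
  have g6 := t.n2_triangle z z₀ (avg u z)
  have g7 := t.n2_triangle z₀ (avg u z₀) (avg u z)
  have g8 := t.n2_avg_le hu (z₀ - z)
  rw [map_sub] at g8
  rw [t.n2_sub_comm z₀ z] at g5 g8
  simp only [Fin.sum_univ_succ, Matrix.cons_val_zero, Matrix.cons_val_succ, univ_eq_empty,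
    sum_empty, add_zero]
  linarith [t.cm_nonneg (φ (mX (1, 0))) z, t.cm_nonneg (φ (mX (0, 1))) z,
    t.cm_nonneg (φ (mZ (1, 0))) z, t.cm_nonneg (φ (mZ (0, 1))) z, t.cm_nonneg (φ (pm shear₁)) z,
    t.cm_nonneg (φ (pm shear₂)) z, t.cm_nonneg (∑ d, e d * u d) z]

end Pool.Agent.Lib.Tracial
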