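import Pool.Agent.Lib.Tracial.Proj

namespace Pool.Agent.Lib.Tracial

open scoped ComplexOrder InnerProductSpace ComplexConjugate
open Filter Topology

variable {A : Type*} [CStarAlgebra A]

lemma sa_mul_eq {p e : A} (hp : IsSelfAdjoint p) (he : IsSelfAdjoint e) (h : p * e = e) :
    e * p = e := by simpa [hp.star_eq, he.star_eq] using congrArg star h

lemma posPart_sa (k : A) : IsSelfAdjoint k⁺ := cfcₙ_predicate _ _

lemma negPart_sa (k : A) : IsSelfAdjoint k⁻ := cfcₙ_predicate _ _

lemma mul_posPart_eq_zero {k y : A} (hk : IsSelfAdjoint k) (h : y * k = 0) : y * k⁺ = 0 := by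
  apply mul_star_eq_zero
  have : k⁺ * k⁺ = k * k⁺ := by
    nth_rw 3 [← CFC.posPart_sub_negPart k hk]
    rw [sub_mul, CFC.negPart_mul_posPart, sub_zero]
  rw [star_mul, (posPart_sa k).star_eq, mul_assoc, ← mul_assoc k⁺, this, ← mul_assoc, ← mul_assoc,
    h, zero_mul, zero_mul]

lemma family_proj {n : Type*} [Fintype n] [DecidableEq n] {p : A} (hp : IsStarProjection p)
    {v : n → A} (hv : ∀ i j, star (v i) * v j = if i = j then p else 0) (s : Finset n) :
    IsStarProjection (∑ i ∈ s, v i * star (v i)) := by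
  have h1 : ∀ i, v i * p = v i := fun i => by
    have := hv i i
    rw [if_pos rfl] at this
    rw [← this]; exact pi_mul_of_proj (this ▸ hp)
  refine ⟨?_, by simp [IsSelfAdjoint, star_sum]⟩
  rw [IsIdempotentElem, Finset.sum_mul_sum]
  refine Finset.sum_congr rfl fun i hi => ?_
  rw [Finset.sum_eq_single_of_mem i hi]
  · rw [mul_assoc, ← mul_assoc (star (v i)), hv, if_pos rfl, ← mul_assoc, h1]
  · intro j _ hj
    rw [mul_assoc, ← mul_assoc (star (v i)), hv, if_neg hj.symm, zero_mul, mul_zero]

namespace TrState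

variable (t : TrState A)

lemma tr_family {n : Type*} [Fintype n] [DecidableEq n] {p : A}
    {v : n → A} (hv : ∀ i j, star (v i) * v j = if i = j then p else 0) (s : Finset n) :
    t.tr (∑ i ∈ s, v i * star (v i)) = s.card * t.tr p := by
  rw [tr_sum, Finset.sum_congr rfl (g := fun _ => t.tr p) fun i _ => by
    rw [tr_comm, hv, if_pos rfl]]
  simp

lemma tr_le_of_sub {v q : A} (hq : IsStarProjection q) (hv : IsStarProjection (star v * v))
    (h : q * v = v) : t.tr (star v * v) ≤ t.tr q := by
  have h1 := proj_of_pi' (pi_mul_of_proj hv)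
  have := t.tr_proj_nonneg (h1.sub_of_mul_eq_right hq (by rw [← mul_assoc, h]))
  rw [tr_sub, tr_comm] at this
  linarith

variable [t.W]

include t in
lemma exists_pi_ne_zero (hf : IsFac A) {p q : A} (hp : IsStarProjection p)
    (hq : IsStarProjection q) (hp0 : p ≠ 0) (hq0 : q ≠ 0) :
    ∃ w, w ≠ 0 ∧ IsStarProjection (star w * w) ∧ q * w = w ∧ w * p = w := by
  obtain ⟨x, hx0, hqx, hxp⟩ : ∃ x, x ≠ 0 ∧ q * x = x ∧ x * p = x := by
    by_contra hne
    push Not at hne
    have := t.factor_avg hf hp.norm_le ((t.π q) ⁻¹' {0}) (isClosed_singleton.preimage (by fun_prop))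
      ((cvxC_singleton _).preimage _) fun u hu => by
        have : q * u * p = 0 := by
          by_contra h0
          exact hne _ h0 (by rw [← mul_assoc, ← mul_assoc, hq.isIdempotentElem.eq])
            (by rw [mul_assoc, hp.isIdempotentElem.eq])
        simp [← mul_assoc, this]
    rw [Set.mem_preimage, π_Λ, Set.mem_singleton_iff, ← map_zero t.Λ] at this
    have h2 := t.Λ_injective this
    rw [mul_smul_comm, mul_one, smul_eq_zero, t.τ_sa hp.isSelfAdjoint] at h2
    rcases h2 with h2 | h2
    · exact (t.tr_proj_pos hp hp0).ne' (by exact_mod_cast h2)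
    · exact hq0 h2
  have hsa : IsSelfAdjoint (star x * x) := IsSelfAdjoint.star_mul_self x
  have hδ : 0 < ‖star x * x‖ / 2 := by
    rw [CStarRing.norm_star_mul_self]; have := norm_pos_iff.2 hx0; positivity
  set δ := ‖star x * x‖ / 2 with hδ'
  have hm : ∀ s : ℝ, 0 < max s δ := fun s => lt_max_of_lt_right hδ
  let g : ℝ → ℝ := fun s => (√(max s δ))⁻¹
  have hg : Continuous g := Continuous.inv₀ (by fun_prop) fun s => (Real.sqrt_pos.2 (hm s)).ne'
  let k := cfc (fun s : ℝ => max (s - δ) 0) (star x * x)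
  have hk0 : k ≠ 0 := by
    intro h0
    have h1 : ‖cfc (fun s : ℝ => s - max (s - δ) 0) (star x * x)‖ ≤ δ :=
      norm_cfc_le hδ.le fun s hs => by
        have := spec_nonneg x s hs
        rw [Real.norm_eq_abs, abs_le]
        constructor <;> rcases le_total (s - δ) 0 with h | h <;> simp [h] <;> linarith
    rw [cfcC_sub _ continuous_id' (by fun_prop), cfc_id' ℝ _ hsa] at h1
    change ‖star x * x - k‖ ≤ δ at h1
    rw [h0, sub_zero] at h1
    linarith
  obtain ⟨e, he, hek, he'⟩ := t.exists_range k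
  have h1 : cfc (fun s => g s * s * g s) (star x * x) * e = e := by
    have := he' (1 - cfc (fun s => g s * s * g s) (star x * x)) (by
      rw [← cfc_const_one ℝ _ hsa, ← cfcC_sub _ continuous_const (by fun_prop),
        ← cfcC_mul _ (by fun_prop) (by fun_prop), cfc_congr (g := fun _ => 0), cfc_const_zero]
      intro s _
      rcases le_total s δ with h | h
      · simp [h]
      · have h2 : 0 < s := hδ.trans_le h
        have h3 : √s * √s = s := Real.mul_self_sqrt h2.le
        have h4 : 0 < √s := Real.sqrt_pos.2 h2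
        simp only [g, max_eq_left h]
        rw [mul_eq_zero]; left
        field_simp
        linarith)
    rw [sub_mul, one_mul, sub_eq_zero] at this
    exact this.symm
  have h2 : star (x * cfc g (star x * x) * e) * (x * cfc g (star x * x) * e) = e := by
    rw [star_mul, he.isSelfAdjoint.star_eq, mul_assoc, ← mul_assoc (star _), star_mul_cfc x g g hg hg,
      h1, he.isIdempotentElem.eq]
  have h3 : p * e = e := by
    have hr : Continuous fun s : ℝ => max (s - δ) 0 / max s δ :=
      Continuous.div (by fun_prop) (by fun_prop) fun s => (hm s).ne'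
    have e1 : k = star x * x * cfc (fun s : ℝ => max (s - δ) 0 / max s δ) (star x * x) := by
      nth_rw 1 [← cfc_id' ℝ _ hsa]
      rw [← cfcC_mul _ continuous_id' hr]
      refine cfc_congr fun s _ => ?_
      rcases le_total s δ with h | h
      · simp [h]
      · have h2 : 0 < s := hδ.trans_le h
        simp only [max_eq_left h]
        field_simp
    have e2 : p * star x = star x := by simpa [hp.isSelfAdjoint.star_eq] using congrArg star hxp
    have := he' (1 - p) (by
      rw [e1, ← mul_assoc, ← mul_assoc, sub_mul, one_mul, e2, sub_self, zero_mul, zero_mul])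
    rw [sub_mul, one_mul, sub_eq_zero] at this
    exact this.symm
  refine ⟨x * cfc g (star x * x) * e, fun h0 => hk0 ?_, by rw [h2]; exact he, ?_, ?_⟩
  · rw [h0, mul_zero] at h2
    rw [← hek, ← h2, zero_mul]
  · rw [← mul_assoc, ← mul_assoc, hqx]
  · rw [mul_assoc, sa_mul_eq hp.isSelfAdjoint he.isSelfAdjoint h3]

/-- Comparison of projections. -/
theorem exists_sub (hf : IsFac A) {p q : A} (hp : IsStarProjection p)
    (hq : IsStarProjection q) (h : t.tr p ≤ t.tr q) : ∃ v, star v * v = p ∧ q * v = v := by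
  obtain ⟨v, ⟨hv, hqv, hvp⟩, hmax⟩ := t.exists_maximal
    {v | v * (star v * v) = v ∧ q * v = v ∧ v * p = v} (fun v hv => hv.1)
    (fun x a hx ha h1 => by
      refine ⟨h1, ?_, ?_⟩
      · have := t.lim_mul_const q 1 ha
        simp only [mul_one, (hx _).2.1] at this
        exact t.eq_of_lim this ha
      · have := t.lim_mul_const 1 p ha
        simp only [one_mul, (hx _).2.2] at this
        exact t.eq_of_lim this ha) (by simp)
  have hp' : IsStarProjection (p - star v * v) :=
    (proj_of_pi hv).sub_of_mul_eq_left hp (by rw [mul_assoc, hvp])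
  have hq' : IsStarProjection (q - v * star v) :=
    (proj_of_pi' hv).sub_of_mul_eq_right hq (by rw [← mul_assoc, hqv])
  refine ⟨v, ?_, hqv⟩
  symm
  rw [← sub_eq_zero]
  by_contra hp0
  by_cases hq0 : q - v * star v = 0
  · refine hp0 (t.proj_eq_zero hp' ?_)
    rw [sub_eq_zero] at hq0
    rw [tr_sub, tr_comm, ← hq0]
    linarith
  obtain ⟨w, hw0, hw, hw1, hw2⟩ := t.exists_pi_ne_zero hf hp' hq' hp0 hq0
  have hsv : star v * (v * star v) = star v := by simpa [mul_assoc] using congrArg star hv
  have e1 : star v * w = 0 := by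
    have : star v * q = star v := by simpa [hq.isSelfAdjoint.star_eq] using congrArg star hqv
    rw [← hw1, ← mul_assoc, mul_sub, this, hsv, sub_self, zero_mul]
  have e2 : w * star v = 0 := by
    have : p * star v = star v := by simpa [hp.isSelfAdjoint.star_eq] using congrArg star hvp
    rw [← hw2, mul_assoc, sub_mul, this, mul_assoc, hsv, sub_self, mul_zero]
  have e1' : star w * v = 0 := by simpa using congrArg star e1
  have e2' : v * star w = 0 := by simpa using congrArg star e2
  refine hw0 (hmax w ⟨?_, ?_, ?_⟩ e1 e2)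
  · rw [star_add, add_mul (star v), mul_add (star v), mul_add (star w), e1, e1', add_zero, zero_add,
      add_mul, mul_add, mul_add, hv, pi_mul_of_proj hw, ← mul_assoc, ← mul_assoc, e2, e2']
    simp
  · rw [mul_add, hqv]
    nth_rw 1 [← hw1]
    rw [← mul_assoc, mul_sub, hq.isIdempotentElem.eq, ← mul_assoc q, hqv, hw1]
  · rw [add_mul, hvp]
    nth_rw 1 [← hw2]
    rw [mul_assoc, sub_mul, hp.isIdempotentElem.eq, mul_assoc (star v), hvp, hw2]

theorem exists_family (hf : IsFac A) {p : A} (hp : IsStarProjection p) (d : ℕ)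
    (hd : d * t.tr p ≤ 1) :
    ∃ v : Fin d → A, ∀ i j, star (v i) * v j = if i = j then p else 0 := by
  induction d with
  | zero => exact ⟨Fin.elim0, fun i => i.elim0⟩
  | succ d ih =>
    push_cast at hd
    obtain ⟨v, hv⟩ := ih (by linarith [t.tr_proj_nonneg hp])
    have hr := (family_proj hp hv Finset.univ).one_sub
    obtain ⟨w, hw, hw'⟩ := t.exists_sub hf hp hr (by
      rw [tr_sub, tr_one, t.tr_family hv]; simp; linarith)
    have h1 : ∀ i, star (v i) * w = 0 := fun i => by
      have h2 := hv i i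
      rw [if_pos rfl] at h2
      have h3 : p * star (v i) = star (v i) := by
        have := congrArg star (pi_mul_of_proj (h2 ▸ hp))
        rwa [h2, star_mul, hp.isSelfAdjoint.star_eq] at this
      rw [← hw', ← mul_assoc, mul_sub, Finset.mul_sum, Finset.sum_eq_single i]
      · rw [← mul_assoc, h2, h3]; simp
      · intro j _ hj
        rw [← mul_assoc, hv, if_neg hj.symm, zero_mul]
      · simp
    have h1' : ∀ i, star w * v i = 0 := fun i => by simpa using congrArg star (h1 i)
    refine ⟨Fin.cons w v, fun i j => ?_⟩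
    refine Fin.cases ?_ (fun i => ?_) i <;> refine Fin.cases ?_ (fun j => ?_) j
    · simpa using hw
    · simpa [(Fin.succ_ne_zero j).symm] using h1' j
    · simpa [Fin.succ_ne_zero i] using h1 i
    · simpa using hv i j

lemma eq_zero_of_posPart {k : A} (h : t.tr k⁺ = 0) : k⁺ = 0 := by
  let _ := CStarAlgebra.spectralOrder A
  let _ := CStarAlgebra.spectralOrderedRing A
  obtain ⟨c, hc⟩ := CStarAlgebra.nonneg_iff_eq_star_mul_self.1 (CFC.posPart_nonneg k)
  rw [hc, tr_star_mul] at h
  rw [hc, t.eq_zero_of_n2 (pow_eq_zero_iff two_ne_zero |>.1 h), mul_zero]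

include t in
lemma corner_of_minimal {p : A} (hp : IsStarProjection p) (hp0 : p ≠ 0)
    (hmin : ∀ q, IsStarProjection q → p * q = q → q = 0 ∨ q = p) (a : A) (ha : p * a = a)
    (ha' : a * p = a) : ∃ c : ℂ, a = c • p := by
  have key : ∀ h, IsSelfAdjoint h → p * h = h → ∃ c : ℂ, h = c • p := by
    intro h hh hph
    refine ⟨(t.tr h / t.tr p : ℝ), sub_eq_zero.1 ?_⟩
    set k := h - ((t.tr h / t.tr p : ℝ) : ℂ) • p with hk
    have hks : IsSelfAdjoint k := by
      rw [hk, Complex.coe_smul]
      exact hh.sub (IsSelfAdjoint.smul (IsSelfAdjoint.all _) hp.isSelfAdjoint)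
    have hk1 : (1 - p) * k = 0 := by
      rw [hk, mul_sub, mul_smul_comm, hp.one_sub_mul_self, sub_mul, hph]; simp
    have hk2 : t.tr k = 0 := by
      have := (t.tr_proj_pos hp hp0).ne'
      rw [hk, tr_sub]
      simp only [tr, map_smul, smul_eq_mul, Complex.re_ofReal_mul] at this ⊢
      field_simp
      ring
    have hk3 := CFC.posPart_sub_negPart k hks
    have hk4 : t.tr k⁺ = t.tr k⁻ := by
      rw [← hk3, tr_sub, sub_eq_zero] at hk2; exact hk2
    obtain ⟨e, he, hek, he'⟩ := t.exists_range k⁺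
    have h1 := he' _ (mul_posPart_eq_zero hks hk1)
    rw [sub_mul, one_mul, sub_eq_zero] at h1
    rcases hmin e he h1.symm with h2 | h2
    · rw [h2, zero_mul] at hek
      rw [← hek, tr_zero, ← CFC.posPart_neg] at hk4
      rw [← hk3, ← hek, ← CFC.posPart_neg, t.eq_zero_of_posPart hk4.symm, sub_zero]
    · have h3 := he' _ (CFC.negPart_mul_posPart k)
      have h4 := mul_posPart_eq_zero hks.neg (y := 1 - p) (by rw [mul_neg, hk1, neg_zero])
      have h5 : p * k⁻ = 0 := by
        simpa [h2, hp.isSelfAdjoint.star_eq, (negPart_sa k).star_eq] using congrArg star h3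
      rw [CFC.posPart_neg, sub_mul, h5, one_mul, sub_zero] at h4
      rw [h4, tr_zero] at hk4
      rw [← hk3, h4, t.eq_zero_of_posPart hk4, sub_zero]
  have ha'' : p * star a = star a := by simpa [hp.isSelfAdjoint.star_eq] using congrArg star ha'
  obtain ⟨c, hc⟩ := key _ (realPart a).2 (by
    rw [realPart_apply_coe, mul_smul_comm, mul_add, ha, ha''])
  obtain ⟨d, hd⟩ := key _ (imaginaryPart a).2 (by
    rw [imaginaryPart_apply_coe, mul_smul_comm, mul_smul_comm, mul_sub, ha, ha''])
  exact ⟨c + Complex.I * d, by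
    rw [← realPart_add_I_smul_imaginaryPart a, hc, hd, smul_smul, add_smul]⟩

theorem exists_half (hf : IsInfFactor A) {p : A} (hp : IsStarProjection p) (hp0 : p ≠ 0) :
    ∃ q, IsStarProjection q ∧ q ≠ 0 ∧ p * q = q ∧ t.tr q ≤ t.tr p / 2 := by
  by_cases hmin : ∀ q, IsStarProjection q → p * q = q → q = 0 ∨ q = p
  · exfalso
    have hpos := t.tr_proj_pos hp hp0
    obtain ⟨v, hv⟩ := t.exists_family hf.1 hp ⌊1 / t.tr p⌋₊ (by
      rw [← le_div_iff₀ hpos]; exact Nat.floor_le (by positivity))
    have hr := (family_proj hp hv Finset.univ).one_sub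
    have hlt : t.tr (1 - ∑ i, v i * star (v i)) < t.tr p := by
      rw [tr_sub, tr_one, t.tr_family hv]
      have := Nat.lt_floor_add_one (1 / t.tr p)
      rw [div_lt_iff₀ hpos] at this
      simp only [Finset.card_univ, Fintype.card_fin]
      linarith
    obtain ⟨w, hw, hw'⟩ := t.exists_sub hf.1 hr hp hlt.le
    have h1 : 1 - ∑ i, v i * star (v i) = 0 := by
      rcases hmin _ (proj_of_pi' (pi_mul_of_proj (hw ▸ hr))) (by rw [← mul_assoc, hw']) with h | h
      · rw [← hw, mul_star_eq_zero h, mul_zero]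
      · rw [← hw, tr_comm, h] at hlt
        exact absurd hlt (lt_irrefl _)
    rw [sub_eq_zero] at h1
    have hvp : ∀ i, v i * p = v i := fun i => by
      have := hv i i
      rw [if_pos rfl] at this
      rw [← this]; exact pi_mul_of_proj (this ▸ hp)
    apply hf.2
    classical
    refine ⟨⟨Finset.univ.image fun ij : _ × _ => v ij.1 * star (v ij.2), ?_⟩⟩
    rw [eq_top_iff]
    rintro a -
    rw [← one_mul a, ← mul_one (1 * a), h1, Finset.sum_mul, Finset.sum_mul_sum]
    refine Submodule.sum_mem _ fun i _ => Submodule.sum_mem _ fun j _ => ?_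
    obtain ⟨c, hc⟩ := t.corner_of_minimal hp hp0 hmin (star (v i) * a * v j)
      (by
        have : p * star (v i) = star (v i) := by
          simpa [hp.isSelfAdjoint.star_eq] using congrArg star (hvp i)
        rw [← mul_assoc, ← mul_assoc, this])
      (by rw [mul_assoc, hvp])
    have : v i * star (v i) * a * (v j * star (v j)) = v i * (star (v i) * a * v j) * star (v j) := by
      simp only [mul_assoc]
    rw [this, hc, mul_smul_comm, hvp, smul_mul_assoc]
    refine Submodule.smul_mem _ _ (Submodule.subset_span ?_)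
    simp only [Finset.coe_image, Finset.coe_univ, Set.image_univ]
    exact ⟨(i, j), rfl⟩
  push Not at hmin
  obtain ⟨q, hq, hpq, h0, h1⟩ := hmin
  rcases le_total (t.tr q) (t.tr p / 2) with h | h
  · exact ⟨q, hq, h0, hpq, h⟩
  · refine ⟨p - q, hq.sub_of_mul_eq_right hp hpq, sub_ne_zero.2 h1.symm, ?_, ?_⟩
    · rw [mul_sub, hp.isIdempotentElem.eq, hpq]
    · rw [tr_sub]; linarith

theorem exists_small (hf : IsInfFactor A) {p : A} (hp : IsStarProjection p) (hp0 : p ≠ 0) {ε : ℝ}
    (hε : 0 < ε) : ∃ q, IsStarProjection q ∧ q ≠ 0 ∧ p * q = q ∧ t.tr q ≤ ε := by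
  have h : ∀ n : ℕ, ∃ q, IsStarProjection q ∧ q ≠ 0 ∧ p * q = q ∧ t.tr q ≤ (1 / 2) ^ n := by
    intro n
    induction n with
    | zero => exact ⟨p, hp, hp0, hp.isIdempotentElem.eq, by simpa using t.tr_proj_le_one hp⟩
    | succ n ih =>
      obtain ⟨q, hq, hq0, hpq, h⟩ := ih
      obtain ⟨r, hr, hr0, hqr, h'⟩ := t.exists_half hf hq hq0
      exact ⟨r, hr, hr0, by rw [← hqr, ← mul_assoc, hpq], by rw [pow_succ]; linarith⟩
  obtain ⟨n, hn⟩ := exists_pow_lt_of_lt_one hε (show (1 / 2 : ℝ) < 1 by norm_num)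
  obtain ⟨q, h1, h2, h3, h4⟩ := h n
  exact ⟨q, h1, h2, h3, h4.trans hn.le⟩

theorem exists_proj_tr (hf : IsInfFactor A) {s : ℝ} (h0 : 0 ≤ s) (h1 : s ≤ 1) :
    ∃ p, IsStarProjection p ∧ t.tr p = s := by
  obtain ⟨p, ⟨hp, hps⟩, hmax⟩ := t.exists_maximal {p | IsStarProjection p ∧ t.tr p ≤ s}
    (fun v hv => by
      rw [hv.1.isSelfAdjoint.star_eq, hv.1.isIdempotentElem.eq, hv.1.isIdempotentElem.eq])
    (fun x a hx ha h1 => by
      have h2 := t.lim_star ha
      simp only [(hx _).1.isSelfAdjoint.star_eq] at h2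
      have h3 := t.lim_mul (fun n => (hx n).1.norm_le) ha ha
      simp only [(hx _).1.isIdempotentElem.eq] at h3
      exact ⟨⟨t.eq_of_lim h3 ha, t.eq_of_lim h2 ha⟩, le_of_tendsto' (t.lim_tr ha) fun n => (hx n).2⟩)
    ⟨IsStarProjection.zero A, by simpa using h0⟩
  refine ⟨p, hp, hps.antisymm (not_lt.1 fun hlt => ?_)⟩
  obtain ⟨q, hq, hq0, hpq, h⟩ := t.exists_small hf hp.one_sub (by
    intro h
    rw [sub_eq_zero] at h
    rw [← h, tr_one] at hlt
    linarith) (sub_pos.2 hlt)
  have h2 : p * q = 0 := by rw [← hpq, ← mul_assoc, hp.mul_one_sub_self, zero_mul]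
  have h3 : q * p = 0 := by
    simpa [hp.isSelfAdjoint.star_eq, hq.isSelfAdjoint.star_eq] using congrArg star h2
  refine hq0 (hmax q ⟨hp.add hq h2, ?_⟩ ?_ ?_)
  · rw [tr_add]; linarith
  · rwa [hp.isSelfAdjoint.star_eq]
  · rwa [hp.isSelfAdjoint.star_eq]

/-- Matrix units of any size. -/
theorem exists_units (hf : IsInfFactor A) (n : Type*) [Fintype n] [DecidableEq n] [Nonempty n] :
    ∃ (p : A) (v : n → A), IsStarProjection p ∧ t.tr p = 1 / Fintype.card n ∧
      (∀ i j, star (v i) * v j = if i = j then p else 0) ∧ ∑ i, v i * star (v i) = 1 := by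
  have hd : (1 : ℝ) ≤ Fintype.card n := by exact_mod_cast Fintype.card_pos
  obtain ⟨p, hp, hpt⟩ := t.exists_proj_tr hf (s := 1 / Fintype.card n) (by positivity)
    (by rw [div_le_one (by linarith)]; exact hd)
  obtain ⟨v, hv⟩ := t.exists_family hf.1 hp (Fintype.card n) (by rw [hpt]; field_simp; rfl)
  have hv' : ∀ i j, star (v (Fintype.equivFin n i)) * v (Fintype.equivFin n j) =
      if i = j then p else 0 := fun i j => by simp [hv]
  refine ⟨p, fun i => v (Fintype.equivFin n i), hp, hpt, hv', ?_⟩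
  symm
  rw [← sub_eq_zero]
  refine t.proj_eq_zero (family_proj hp hv' _).one_sub ?_
  rw [tr_sub, tr_one, t.tr_family hv', hpt, Finset.card_univ]
  field_simp
  simp

end TrState

end Pool.Agent.Lib.Tracial
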