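import Pool.Agent.Lib.Tracial.Pre

namespace Pool.Agent.Lib.Tracial

open scoped ComplexOrder ENNReal InnerProductSpace
open Filter Topology

universe u v

section StarQuot

variable {B : Type*} [Ring B] [StarRing B] [Algebra ℂ B] [StarModule ℂ B]

/-- A two-sided ideal closed under the star operation. -/
structure StarIdeal (B : Type*) [Ring B] [StarRing B] where
  carrier : Set B
  zero_mem : 0 ∈ carrier
  add_mem : ∀ x ∈ carrier, ∀ y ∈ carrier, x + y ∈ carrier
  mul_mem_left : ∀ x, ∀ y ∈ carrier, x * y ∈ carrier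
  mul_mem_right : ∀ x, ∀ y ∈ carrier, y * x ∈ carrier
  star_mem : ∀ x ∈ carrier, star x ∈ carrier

/-- The underlying ideal. -/
def StarIdeal.I (J : StarIdeal B) : Ideal B where
  carrier := J.carrier
  add_mem' hx hy := J.add_mem _ hx _ hy
  zero_mem' := J.zero_mem
  smul_mem' x _ hy := J.mul_mem_left x _ hy

instance (J : StarIdeal B) : J.I.IsTwoSided := ⟨fun x hy => J.mul_mem_right x _ hy⟩

/-- The quotient by a star-closed two-sided ideal. -/
@[implicit_reducible] def StarIdeal.Quot (J : StarIdeal B) : Type _ := B ⧸ J.I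

instance (J : StarIdeal B) : Ring J.Quot := Ideal.Quotient.ring J.I

instance (J : StarIdeal B) : Algebra ℂ J.Quot := Ideal.Quotient.algebra ℂ

/-- The quotient map. -/
def StarIdeal.mkQ (J : StarIdeal B) (x : B) : J.Quot := Submodule.Quotient.mk x

instance (J : StarIdeal B) : StarRing J.Quot where
  star := Quotient.map' star fun x y h => by
    rw [Submodule.quotientRel_def] at h ⊢
    rw [← star_sub]
    exact J.star_mem _ h
  star_involutive := by rintro ⟨x⟩; exact congrArg J.mkQ (star_star x)
  star_mul := by rintro ⟨x⟩ ⟨y⟩; exact congrArg J.mkQ (star_mul x y)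
  star_add := by rintro ⟨x⟩ ⟨y⟩; exact congrArg J.mkQ (star_add x y)

instance (J : StarIdeal B) : StarModule ℂ J.Quot where
  star_smul := by rintro c ⟨x⟩; exact congrArg J.mkQ (star_smul c x)

end StarQuot

section Abstract

variable {A : Type*} [CStarAlgebra A]

/-- A tracial state on a unital C-star algebra. -/
structure TrState (A : Type*) [CStarAlgebra A] where
  τ : A →ₗ[ℂ] ℂ
  map_one : τ 1 = 1
  nonneg : ∀ x, 0 ≤ τ (star x * x)
  trace : ∀ x y, τ (x * y) = τ (y * x)

/-- Faithfulness of a tracial state. -/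
def TrState.Faithful (t : TrState A) : Prop := ∀ x, t.τ (star x * x) = 0 → x = 0

/-- Separability for the trace norm. -/
def TrState.Separable (t : TrState A) : Prop :=
  ∃ s : Set A, s.Countable ∧ ∀ x, ∀ ε > (0 : ℝ), ∃ y ∈ s, ‖t.τ (star (x - y) * (x - y))‖ < ε

/-- Trivial centre and infinite dimension. -/
def IsInfFactor (A : Type*) [CStarAlgebra A] : Prop :=
  (∀ x : A, (∀ y, x * y = y * x) → ∃ c : ℂ, x = c • 1) ∧ ¬ FiniteDimensional ℂ A

/-- Norm-bounded families. -/
def bddFam (ι : Type*) (A : Type*) [CStarAlgebra A] : StarSubalgebra ℂ (ι → A) where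
  carrier := {x | ∃ C : ℝ, ∀ i, ‖x i‖ ≤ C}
  mul_mem' := bdd_mul
  add_mem' := bdd_add
  algebraMap_mem' c := ⟨‖algebraMap ℂ A c‖, fun _ => le_rfl⟩
  star_mem' := bdd_star

/-- The star algebra of norm-bounded families. -/
@[implicit_reducible] def Bdd (ι : Type*) (A : Type*) [CStarAlgebra A] : Type _ := bddFam ι A

variable {ι : Type*}

instance : Ring (Bdd ι A) := (bddFam ι A).toSubalgebra.toRing
noncomputable instance : StarRing (Bdd ι A) := StarMemClass.instStarRing (bddFam ι A)
noncomputable instance : Algebra ℂ (Bdd ι A) := (bddFam ι A).algebra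
instance : StarModule ℂ (Bdd ι A) := (bddFam ι A).starModule

/-- The entries of a bounded family. -/
def Bdd.val (x : Bdd ι A) : ι → A := x.1

/-- Bounded families whose trace norm tends to zero along the ultrafilter. -/
def nullIdeal (t : TrState A) (U : Ultrafilter ι) : StarIdeal (Bdd ι A) where
  carrier := {x | Tendsto (fun i => t.τ (star (x.val i) * x.val i)) U (𝓝 0)}
  zero_mem := null_zero t.τ _
  add_mem _ hx _ hy := null_add t.τ t.nonneg _ hx hy
  mul_mem_left x _ hy := null_mul t.τ t.nonneg _ x.2 hy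
  mul_mem_right x _ hy := null_mul' t.τ t.nonneg t.trace _ x.2 hy
  star_mem _ h := null_star t.τ t.trace _ h

/-- The tracial ultrapower: bounded families modulo the trace-null ones. -/
abbrev Ultrapower (t : TrState A) (U : Ultrafilter ι) : Type _ := (nullIdeal t U).Quot

/-- The class of a constant family. -/
noncomputable def Ultrapower.diag (t : TrState A) (U : Ultrafilter ι) (a : A) : Ultrapower t U :=
  (nullIdeal t U).mkQ ⟨fun _ => a, ‖a‖, fun _ => le_rfl⟩

end Abstract

section VN

variable {H : Type u} [NormedAddCommGroup H] [InnerProductSpace ℂ H] [CompleteSpace H]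

/-- The type of elements of a von Neumann algebra. -/
@[implicit_reducible] def VNAlg (M : VonNeumannAlgebra H) : Type u := M.toStarSubalgebra

noncomputable instance (M : VonNeumannAlgebra H) : CStarAlgebra (VNAlg M) :=
  StarSubalgebra.cstarAlgebra M.toStarSubalgebra (h_closed := vn_isClosed M)

/-- An element of a von Neumann algebra as an operator. -/
def VNAlg.op {M : VonNeumannAlgebra H} (x : VNAlg M) : H →L[ℂ] H := x.1

/-- A functional is normal if it is continuous on the unit ball for the weak operator topology. -/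
def IsNormalFun {A : Type*} [CStarAlgebra A] (op : A → H →L[ℂ] H) (f : A → ℂ) : Prop :=
  ∀ (l : Filter A) (a : A), (∀ᶠ x in l, ‖x‖ ≤ 1) →
    (∀ ξ η : H, Tendsto (fun x => ⟪η, op x ξ⟫_ℂ) l (𝓝 ⟪η, op a ξ⟫_ℂ)) → Tendsto f l (𝓝 (f a))

end VN

/-- A type II_1 factor: an infinite dimensional von Neumann algebra with trivial centre and a
faithful normal tracial state. -/
structure II1Factor where
  H : Type u
  [i1 : NormedAddCommGroup H]
  [i2 : InnerProductSpace ℂ H]
  [i3 : CompleteSpace H]
  M : VonNeumannAlgebra H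
  t : TrState (VNAlg M)
  faithful : t.Faithful
  normal : IsNormalFun (VNAlg.op (M := M)) t.τ
  factor : IsInfFactor (VNAlg M)

/-- The underlying C-star algebra of a II_1 factor. -/
@[implicit_reducible] def II1Factor.Alg (N : II1Factor.{u}) : Type u :=
  @VNAlg N.H N.i1 N.i2 N.i3 N.M

noncomputable instance (N : II1Factor.{u}) : CStarAlgebra N.Alg :=
  @instCStarAlgebraVNAlg N.H N.i1 N.i2 N.i3 N.M

/-- The trace of a II_1 factor. -/
def II1Factor.tr (N : II1Factor.{u}) : TrState N.Alg := N.t

/-- A star algebra is a II_1 factor if it is star-isomorphic to one. -/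
def IsII1 (B : Type u) [Ring B] [StarRing B] [Algebra ℂ B] : Prop :=
  ∃ Q : II1Factor.{u}, Nonempty (B ≃⋆ₐ[ℂ] Q.Alg)

/-- The commutant of a set in a star algebra is a II_1 factor. -/
def CommutantIsII1 {B : Type u} [Ring B] [StarRing B] [Algebra ℂ B] [StarModule ℂ B]
    (s : Set B) : Prop :=
  IsII1 (StarSubalgebra.centralizer ℂ s)

variable {A B : Type u} [CStarAlgebra A] [CStarAlgebra B]

/-- The relative commutant of `A` in its ultrapower is a II_1 factor. -/
def SuperMcDuff (t : TrState A) (U : Ultrafilter ℕ) : Prop :=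
  CommutantIsII1 (Set.range (Ultrapower.diag t U))

/-- Isomorphic ultrapowers. -/
def ElemEquiv (t : TrState A) (s : TrState B) : Prop :=
  ∃ (I J : Type v) (U₁ : Ultrafilter I) (U₂ : Ultrafilter J),
    Nonempty (Ultrapower t U₁ ≃⋆ₐ[ℂ] Ultrapower s U₂)

/-- Trace preserving embedding of `A` into the ultrapower of `B`. -/
def EmbedsUltra (t : TrState A) (s : TrState B) (U : Ultrafilter ℕ) : Prop :=
  ∃ φ : A →⋆ₐ[ℂ] Ultrapower s U, Function.Injective φ ∧
    ∀ a x, φ a = (nullIdeal s U).mkQ x → Tendsto (fun n => s.τ (x.val n)) U (𝓝 (t.τ a))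

end Pool.Agent.Lib.Tracial
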