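import Pool.Agent.Lib.Tracial.L2

namespace Pool.Agent.Lib.Tracial

open scoped ComplexOrder InnerProductSpace ComplexConjugate
open Filter Topology

section Hilbert

variable {H : Type*} [NormedAddCommGroup H] [InnerProductSpace ℂ H]

/-- Convexity written with complex scalars. -/
def CvxC (K : Set H) : Prop :=
  ∀ x ∈ K, ∀ y ∈ K, ∀ s : ℝ, 0 ≤ s → s ≤ 1 → ((1 - s : ℝ) : ℂ) • x + (s : ℂ) • y ∈ K

lemma CvxC.closure {K : Set H} (hK : CvxC K) : CvxC (closure K) := by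
  intro x hx y hy s h0 h1
  exact map_mem_closure₂ (f := fun x y : H => ((1 - s : ℝ) : ℂ) • x + (s : ℂ) • y)
    (by fun_prop) hx hy fun a ha b hb => hK a ha b hb s h0 h1

lemma CvxC.inter {K L : Set H} (hK : CvxC K) (hL : CvxC L) : CvxC (K ∩ L) :=
  fun x hx y hy s h0 h1 => ⟨hK x hx.1 y hy.1 s h0 h1, hL x hx.2 y hy.2 s h0 h1⟩

lemma CvxC.preimage {H' : Type*} [NormedAddCommGroup H'] [InnerProductSpace ℂ H'] {K : Set H'}
    (hK : CvxC K) (T : H →L[ℂ] H') : CvxC (T ⁻¹' K) := by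
  intro x hx y hy s h0 h1
  simp only [Set.mem_preimage, map_add, map_smul]
  exact hK _ hx _ hy s h0 h1

lemma cvxC_closedBall (x : H) (r : ℝ) : CvxC (Metric.closedBall x r) := by
  intro a ha b hb s h0 h1
  rw [mem_closedBall_iff_norm] at ha hb ⊢
  have e : ((1 - s : ℝ) : ℂ) • a + (s : ℂ) • b - x =
      ((1 - s : ℝ) : ℂ) • (a - x) + (s : ℂ) • (b - x) := by push_cast; module
  rw [e]
  refine (norm_add_le _ _).trans ?_
  rw [norm_smul, norm_smul, Complex.norm_real, Complex.norm_real, Real.norm_of_nonneg h0,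
    Real.norm_of_nonneg (by linarith)]
  nlinarith

lemma cvxC_singleton (x : H) : CvxC ({x} : Set H) := by
  simpa using cvxC_closedBall x 0

lemma cvxC_submodule (S : Submodule ℂ H) : CvxC (S : Set H) :=
  fun _ hx _ hy _ _ _ => S.add_mem (S.smul_mem _ hx) (S.smul_mem _ hy)

lemma exists_proj [CompleteSpace H] {K : Set H} (hc : IsClosed K) (hK : CvxC K) (hne : K.Nonempty)
    (ξ : H) : ∃ v ∈ K, ∀ w ∈ K, (⟪ξ - v, w - v⟫_ℂ).re ≤ 0 := by
  let _ : InnerProductSpace ℝ H := InnerProductSpace.complexToReal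
  have hcv : Convex ℝ K := by
    intro x hx y hy a b ha hb hab
    have := hK x hx y hy b hb (by linarith)
    rw [show 1 - b = a by linarith] at this
    exact this
  obtain ⟨v, hv, h⟩ := exists_norm_eq_iInf_of_complete_convex hne hc.isComplete hcv ξ
  exact ⟨v, hv, (norm_eq_iInf_iff_real_inner_le_zero hcv hv).1 h⟩

end Hilbert

variable {A : Type*} [CStarAlgebra A]

lemma spec_nonneg (c : A) : ∀ s ∈ spectrum ℝ (star c * c), 0 ≤ s := by
  let _ := CStarAlgebra.spectralOrder A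
  let _ := CStarAlgebra.spectralOrderedRing A
  exact fun s hs => spectrum_nonneg_of_nonneg (star_mul_self_nonneg c) hs

lemma cfcC_mul (h : A) {f g : ℝ → ℝ} (hf : Continuous f) (hg : Continuous g) :
    cfc (fun s => f s * g s) h = cfc f h * cfc g h :=
  cfc_mul f g h hf.continuousOn hg.continuousOn

lemma cfcC_add (h : A) {f g : ℝ → ℝ} (hf : Continuous f) (hg : Continuous g) :
    cfc (fun s => f s + g s) h = cfc f h + cfc g h :=
  cfc_add h f g hf.continuousOn hg.continuousOn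

lemma cfcC_sub (h : A) {f g : ℝ → ℝ} (hf : Continuous f) (hg : Continuous g) :
    cfc (fun s => f s - g s) h = cfc f h - cfc g h :=
  cfc_sub f g h hf.continuousOn hg.continuousOn

lemma cfcC_const {h : A} (hh : IsSelfAdjoint h) (r : ℝ) :
    cfc (fun _ : ℝ => r) h = (r : ℂ) • (1 : A) := by
  rw [cfc_const _ _ hh, Algebra.algebraMap_eq_smul_one, Complex.coe_smul]

lemma cfc_star_eq (h : A) (f : ℝ → ℝ) : star (cfc f h) = cfc f h := (cfc_predicate f h).star_eq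

lemma star_mul_cfc (c : A) (f g : ℝ → ℝ) (hf : Continuous f) (hg : Continuous g) :
    star (c * cfc f (star c * c)) * (c * cfc g (star c * c)) =
      cfc (fun s => f s * s * g s) (star c * c) := by
  have hsa : IsSelfAdjoint (star c * c) := IsSelfAdjoint.star_mul_self c
  rw [star_mul, cfc_star_eq, cfcC_mul _ (f := fun s => f s * s) (by fun_prop) hg, cfcC_mul _ hf continuous_id',
    cfc_id' ℝ _ hsa]
  simp only [mul_assoc]

lemma norm_mul_cfc_le (c : A) (f : ℝ → ℝ) (hf : Continuous f) {C : ℝ} (hC : 0 ≤ C)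
    (h : ∀ s, 0 ≤ s → f s * s * f s ≤ C ^ 2) : ‖c * cfc f (star c * c)‖ ≤ C := by
  rw [← sq_le_sq₀ (norm_nonneg _) hC, sq, ← CStarRing.norm_star_mul_self, star_mul_cfc c f f hf hf]
  refine norm_cfc_le (by positivity) fun s hs => ?_
  have h0 := spec_nonneg c s hs
  rw [Real.norm_of_nonneg (by nlinarith [mul_self_nonneg (f s)])]
  exact h s h0

namespace TrState

variable (t : TrState A)

lemma τ_cfc_nonneg (h : A) (f : ℝ → ℝ) (hf : ∀ s ∈ spectrum ℝ h, 0 ≤ f s) :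
    0 ≤ t.τ (cfc f h) := by
  let _ := CStarAlgebra.spectralOrder A
  let _ := CStarAlgebra.spectralOrderedRing A
  obtain ⟨c, hc⟩ := CStarAlgebra.nonneg_iff_eq_star_mul_self.1 (cfc_nonneg hf)
  rw [hc]; exact t.nonneg c

lemma τ_cfc_mono {h : A} (f g : ℝ → ℝ) (hf : Continuous f) (hg : Continuous g)
    (hfg : ∀ s ∈ spectrum ℝ h, f s ≤ g s) : (t.τ (cfc f h)).re ≤ (t.τ (cfc g h)).re := by
  have := t.τ_cfc_nonneg h (fun s => g s - f s) fun s hs => sub_nonneg.2 (hfg s hs)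
  rw [cfcC_sub _ hg hf, map_sub] at this
  have := this.1
  simpa using this

lemma cvxC_ball (B : StarSubalgebra ℂ A) : CvxC (t.Λ '' {a | a ∈ B ∧ ‖a‖ ≤ 1}) := by
  rintro _ ⟨a, ⟨ha, ha'⟩, rfl⟩ _ ⟨b, ⟨hb, hb'⟩, rfl⟩ s h0 h1
  refine ⟨((1 - s : ℝ) : ℂ) • a + (s : ℂ) • b, ⟨add_mem (B.smul_mem ha _) (B.smul_mem hb _), ?_⟩,
    by simp⟩
  refine (norm_add_le _ _).trans ?_
  rw [norm_smul, norm_smul, Complex.norm_real, Complex.norm_real, Real.norm_of_nonneg h0,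
    Real.norm_of_nonneg (by linarith)]
  nlinarith

lemma key_approx (B : StarSubalgebra ℂ A) (hB : IsClosed (B : Set A)) (ξ : t.L2)
    (hξ : ∀ b₁ ∈ B, ∀ b₂ ∈ B, ‖⟪t.Λ (b₁ * b₂), ξ⟫_ℂ‖ ≤ t.n2 b₁ * t.n2 b₂) {c : A} (hc : c ∈ B)
    {δ : ℝ} (hδ : 0 < δ) :
    ∃ a ∈ B, ‖a‖ ≤ 1 ∧ (⟪t.Λ c, ξ⟫_ℂ).re ≤ (⟪t.Λ c, t.Λ a⟫_ℂ).re + δ := by
  have hsa : IsSelfAdjoint (star c * c) := IsSelfAdjoint.star_mul_self c
  have hh : star c * c ∈ B := mul_mem (star_mem hc) hc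
  let k : ℝ → ℝ := fun s => √(√(|s| + δ ^ 2))
  have hkpos : ∀ s, 0 < k s := fun s => by simp only [k]; positivity
  have hk : Continuous k := by fun_prop
  have hki : Continuous fun s => (k s)⁻¹ := hk.inv₀ fun s => (hkpos s).ne'
  have hk2 : ∀ s, k s * k s = √(|s| + δ ^ 2) := fun s => Real.mul_self_sqrt (Real.sqrt_nonneg _)
  have hk4 : ∀ s, k s * k s * (k s * k s) = |s| + δ ^ 2 := fun s => by
    rw [hk2]; exact Real.mul_self_sqrt (by positivity)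
  have hki2 : Continuous fun s => (k s)⁻¹ * (k s)⁻¹ := hki.mul hki
  refine ⟨c * cfc (fun s => (k s)⁻¹ * (k s)⁻¹) (star c * c), mul_mem hc (cfc_mem _ hh), ?_, ?_⟩
  · refine norm_mul_cfc_le c _ hki2 zero_le_one fun s hs => ?_
    have h1 := hk4 s
    have h2 := hkpos s
    rw [abs_of_nonneg hs] at h1
    field_simp
    nlinarith [sq_nonneg δ]
  have h1 := hξ (c * cfc (fun s => (k s)⁻¹) (star c * c)) (mul_mem hc (cfc_mem _ hh))
    (cfc k (star c * c)) (cfc_mem _ hh)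
  have e1 : c * cfc (fun s => (k s)⁻¹) (star c * c) * cfc k (star c * c) = c := by
    rw [mul_assoc, ← cfc_mul _ _ _ hki.continuousOn hk.continuousOn, cfc_congr (g := fun _ => 1)
      (fun s _ => inv_mul_cancel₀ (hkpos s).ne'), cfc_const_one ℝ _ hsa, mul_one]
  rw [e1] at h1
  set S := (⟪t.Λ c, t.Λ (c * cfc (fun s => (k s)⁻¹ * (k s)⁻¹) (star c * c))⟫_ℂ).re with hS
  have e2 : S = (t.τ (cfc (fun s => (k s)⁻¹ * s * (k s)⁻¹) (star c * c))).re := by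
    rw [hS, inner_Λ]
    have := star_mul_cfc c (fun _ => 1) (fun s => (k s)⁻¹ * (k s)⁻¹) continuous_const hki2
    rw [cfc_const_one ℝ _ hsa, mul_one] at this
    rw [this]
    congr 3
    ext s; ring
  have e3 : t.n2 (c * cfc (fun s => (k s)⁻¹) (star c * c)) ^ 2 = S := by
    rw [n2_sq, star_mul_cfc c _ _ hki hki, e2]
  have e4 : t.n2 (cfc k (star c * c)) ^ 2 ≤ S + δ := by
    rw [n2_sq, cfc_star_eq, ← cfcC_mul _ hk hk, e2]
    have := t.τ_cfc_mono (h := star c * c) (fun s => k s * k s)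
      (fun s => (k s)⁻¹ * s * (k s)⁻¹ + δ) (hk.mul hk) (by fun_prop) fun s hs => by
        have h0 := spec_nonneg c s hs
        have h1 := hk4 s
        have h2 := hkpos s
        have h3 : δ ≤ k s * k s := by
          rw [hk2]; exact Real.le_sqrt_of_sq_le (by linarith [abs_nonneg s])
        rw [abs_of_nonneg h0] at h1
        field_simp
        nlinarith
    rw [cfcC_add _ (by fun_prop) continuous_const, map_add, cfcC_const hsa, τ_smul_one] at this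
    simpa using this
  have hS0 : 0 ≤ S := e3 ▸ sq_nonneg _
  have h5 : t.n2 (c * cfc (fun s => (k s)⁻¹) (star c * c)) * t.n2 (cfc k (star c * c)) ≤
      S + δ := by
    apply le_of_sq_le_sq _ (by positivity)
    rw [mul_pow, e3]
    nlinarith
  exact (Complex.re_le_norm _).trans (h1.trans h5)

theorem key (B : StarSubalgebra ℂ A) (hB : IsClosed (B : Set A)) (ξ : t.L2)
    (hcl : ξ ∈ closure (t.Λ '' B))
    (hξ : ∀ b₁ ∈ B, ∀ b₂ ∈ B, ‖⟪t.Λ (b₁ * b₂), ξ⟫_ℂ‖ ≤ t.n2 b₁ * t.n2 b₂) :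
    ξ ∈ closure (t.Λ '' {a | a ∈ B ∧ ‖a‖ ≤ 1}) := by
  obtain ⟨v, hv, h⟩ := exists_proj isClosed_closure (t.cvxC_ball B).closure
    ⟨_, subset_closure ⟨0, ⟨zero_mem _, by simp⟩, rfl⟩⟩ ξ
  have hv' : v ∈ closure (t.Λ '' B) :=
    closure_mono (Set.image_mono fun a ha => ha.1) hv
  have hη : ξ - v ∈ closure (t.Λ '' B) := by
    refine map_mem_closure₂ (f := fun x y : t.L2 => x - y) (by fun_prop) hcl hv' ?_
    rintro _ ⟨a, ha, rfl⟩ _ ⟨b, hb, rfl⟩
    exact ⟨a - b, sub_mem ha hb, map_sub _ _ _⟩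
  suffices ‖ξ - v‖ ^ 2 ≤ 0 by
    have h0 : ξ - v = 0 := by
      rw [← norm_eq_zero]; nlinarith [norm_nonneg (ξ - v)]
    rw [sub_eq_zero.1 h0]; exact hv
  refine le_of_forall_pos_le_add fun ε hε => ?_
  have hp : 0 < ‖ξ‖ + 2 := by positivity
  obtain ⟨_, ⟨c, hc, rfl⟩, hd⟩ := Metric.mem_closure_iff.1 hη (ε / (‖ξ‖ + 2)) (by positivity)
  obtain ⟨a, ha, ha1, h2⟩ := t.key_approx B hB ξ hξ hc (δ := ε / (‖ξ‖ + 2)) (by positivity)
  have h3 := h _ (subset_closure ⟨a, ⟨ha, ha1⟩, rfl⟩)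
  rw [dist_eq_norm] at hd
  have h4 : ‖⟪ξ - v - t.Λ c, ξ - t.Λ a⟫_ℂ‖ ≤ ε / (‖ξ‖ + 2) * (‖ξ‖ + 1) := by
    refine (norm_inner_le_norm _ _).trans (mul_le_mul hd.le ?_ (norm_nonneg _) (by positivity))
    exact (norm_sub_le _ _).trans (add_le_add le_rfl ((t.n2_le_norm a).trans ha1))
  have h5 := (Complex.re_le_norm _).trans h4
  have e : ‖ξ - v‖ ^ 2 = (⟪ξ - v, t.Λ a - v⟫_ℂ).re + (⟪ξ - v - t.Λ c, ξ - t.Λ a⟫_ℂ).re +
      ((⟪t.Λ c, ξ⟫_ℂ).re - (⟪t.Λ c, t.Λ a⟫_ℂ).re) := by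
    rw [@InnerProductSpace.norm_sq_eq_re_inner ℂ]
    simp only [inner_sub_left, inner_sub_right, Complex.sub_re, RCLike.re_to_complex]
    ring
  have e2 : ε / (‖ξ‖ + 2) * (‖ξ‖ + 1) + ε / (‖ξ‖ + 2) = ε := by field_simp; ring
  linarith

lemma key_hyp {x : A} (hx : ‖x‖ ≤ 1) (b₁ b₂ : A) :
    ‖⟪t.Λ (b₁ * b₂), t.Λ x⟫_ℂ‖ ≤ t.n2 b₁ * t.n2 b₂ := by
  rw [inner_Λ, star_mul, mul_assoc, t.trace, mul_assoc]
  refine (t.norm_τ_mul_le _ _).trans ?_
  rw [n2_star]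
  exact mul_le_mul_of_nonneg_left ((t.n2_mul_le_of_le hx _).trans_eq (t.n2_star _))
    (t.n2_nonneg _)

/-- Kaplansky density. -/
theorem kaplansky (B : StarSubalgebra ℂ A) (hB : IsClosed (B : Set A)) {x : A} (hx : ‖x‖ ≤ 1)
    (hcl : t.Λ x ∈ closure (t.Λ '' B)) : t.Λ x ∈ closure (t.Λ '' {a | a ∈ B ∧ ‖a‖ ≤ 1}) :=
  t.key B hB _ hcl fun b₁ _ b₂ _ => t.key_hyp hx b₁ b₂

lemma exists_of_mem_closure [t.W] {s : Set A} (hs : ∀ a ∈ s, ‖a‖ ≤ 1) {ξ : t.L2}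
    (h : ξ ∈ closure (t.Λ '' s)) : ∃ a, ‖a‖ ≤ 1 ∧ t.Λ a = ξ := by
  have := (W.closed (t := t)).closure_subset_iff.2
    (Set.image_mono (t := Metric.closedBall 0 1) fun a ha => by simpa using hs a ha) h
  obtain ⟨a, ha, rfl⟩ := this
  exact ⟨a, by simpa using ha, rfl⟩

/-- Conditional expectation. -/
theorem exists_condExp [t.W] (B : StarSubalgebra ℂ A) (hB : IsClosed (B : Set A)) {x : A}
    (hx : ‖x‖ ≤ 1) : ∃ y, ‖y‖ ≤ 1 ∧ t.Λ y ∈ closure (t.Λ '' B) ∧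
      ∀ b ∈ B, t.τ (star b * y) = t.τ (star b * x) := by
  let S : Submodule ℂ t.L2 := (B.toSubalgebra.toSubmodule.map t.Λ).topologicalClosure
  have hS : (S : Set t.L2) = closure (t.Λ '' B) := rfl
  haveI : CompleteSpace S := (Submodule.isClosed_topologicalClosure _).completeSpace_coe
  let ξ := S.starProjection (t.Λ x)
  have hξS : ξ ∈ closure (t.Λ '' B) := hS ▸ S.starProjection_apply_mem _
  have hin : ∀ b ∈ B, ⟪t.Λ b, ξ⟫_ℂ = ⟪t.Λ b, t.Λ x⟫_ℂ := by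
    intro b hb
    have hbS : t.Λ b ∈ S := by
      change t.Λ b ∈ (S : Set t.L2)
      rw [hS]; exact subset_closure ⟨b, hb, rfl⟩
    have := S.sub_starProjection_mem_orthogonal (t.Λ x) _ hbS
    rw [inner_sub_right, sub_eq_zero] at this
    exact this.symm
  have := t.key B hB ξ hξS fun b₁ h₁ b₂ h₂ => by
    rw [hin _ (mul_mem h₁ h₂)]; exact t.key_hyp hx b₁ b₂
  obtain ⟨y, hy, hy'⟩ := t.exists_of_mem_closure (fun a ha => ha.2) this
  exact ⟨y, hy, hy' ▸ hξS, fun b hb => by rw [← inner_Λ, ← inner_Λ, hy', hin b hb]⟩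

/-- The commutant of the right multiplications is the left regular image. -/
theorem exists_π_eq [t.W] (T : t.L2 →L[ℂ] t.L2) (hT : ∀ b, t.rmul b * T = T * t.rmul b) :
    ∃ a, t.π a = T := by
  wlog h1 : ‖T‖ ≤ 1 generalizing T
  · have h0 : (‖T‖ : ℂ) ≠ 0 := by
      have : 0 < ‖T‖ := by linarith
      exact_mod_cast this.ne'
    obtain ⟨a, ha⟩ := this ((‖T‖ : ℂ)⁻¹ • T) (fun b => by simp [hT]) (by
      rw [norm_smul, norm_inv, Complex.norm_real, norm_norm]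
      exact inv_mul_le_one_of_le₀ le_rfl (norm_nonneg _))
    exact ⟨(‖T‖ : ℂ) • a, by rw [map_smul, ha, smul_smul, mul_inv_cancel₀ h0, one_smul]⟩
  have hT' : ∀ b, T (t.Λ b) = t.rmul b (T (t.Λ 1)) := fun b => by
    have := congrArg (fun S : t.L2 →L[ℂ] t.L2 => S (t.Λ 1)) (hT b)
    simpa using this.symm
  have := t.key ⊤ (by simp) (T (t.Λ 1)) (by simpa using t.denseRange_Λ _) fun b₁ _ b₂ _ => by
    rw [← rmul_Λ, ← ContinuousLinearMap.adjoint_inner_right, ← ContinuousLinearMap.star_eq_adjoint,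
      ← rmul_star, ← hT']
    refine (norm_inner_le_norm _ _).trans (mul_le_mul_of_nonneg_left ?_ (norm_nonneg _))
    refine (T.le_opNorm _).trans ?_
    rw [norm_Λ, n2_star]
    exact mul_le_of_le_one_left (t.n2_nonneg _) h1
  obtain ⟨a, -, ha⟩ := t.exists_of_mem_closure (fun a ha => ha.2) this
  exact ⟨a, t.ext_Λ fun b => by rw [hT', ← ha]; simp⟩

lemma n2_conj {u : A} (hu : u ∈ unitary A) (a : A) : t.n2 (u * a * star u) = t.n2 a := by
  rw [t.n2_mul_unitary _ (Unitary.star_mem hu), t.n2_unitary_mul hu]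

lemma n2_conj_sub {u : A} (hu : u ∈ unitary A) (a : A) :
    t.n2 (u * a * star u - a) = t.n2 (u * a - a * u) := by
  rw [← t.n2_mul_unitary _ hu, sub_mul, mul_assoc _ (star u), Unitary.star_mul_self_of_mem hu,
    mul_one]

lemma τ_conj {u : A} (hu : u ∈ unitary A) (a : A) : t.τ (u * a * star u) = t.τ a := by
  rw [t.trace, ← mul_assoc, Unitary.star_mul_self_of_mem hu, one_mul]

lemma norm_conj_le {u : A} (hu : u ∈ unitary A) (a : A) : ‖u * a * star u‖ = ‖a‖ := by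
  rw [CStarRing.norm_mul_mem_unitary _ (Unitary.star_mem hu), CStarRing.norm_mem_unitary_mul _ hu]

/-- Averaging over a semigroup of unitaries. -/
theorem exists_avg [t.W] (S : Set A) (hS : ∀ u ∈ S, u ∈ unitary A)
    (hmul : ∀ u ∈ S, ∀ v ∈ S, u * v ∈ S) (hne : S.Nonempty) {x : A} (hx : ‖x‖ ≤ 1) :
    ∃ y, ‖y‖ ≤ 1 ∧ (∀ u ∈ S, u * y = y * u) ∧ ∀ C : Set t.L2, IsClosed C → CvxC C →
      (∀ u ∈ S, t.Λ (u * x * star u) ∈ C) → t.Λ y ∈ C := by
  let F : Set (Set t.L2) := {C | IsClosed C ∧ CvxC C ∧ ∀ u ∈ S, t.Λ (u * x * star u) ∈ C}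
  have hKc : IsClosed (⋂₀ F) := isClosed_sInter fun C hC => hC.1
  have hKv : CvxC (⋂₀ F) := fun a ha b hb s h0 h1 C hC => hC.2.1 a (ha C hC) b (hb C hC) s h0 h1
  have hKo : ∀ u ∈ S, t.Λ (u * x * star u) ∈ ⋂₀ F := fun u hu C hC => hC.2.2 u hu
  obtain ⟨u₀, hu₀⟩ := hne
  obtain ⟨v, hv, h⟩ := exists_proj hKc hKv ⟨_, hKo u₀ hu₀⟩ 0
  have hball : t.Λ '' Metric.closedBall 0 1 ∈ F := by
    refine ⟨W.closed, ?_, fun u hu => ⟨_, ?_, rfl⟩⟩
    · have := t.cvxC_ball ⊤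
      simpa [Metric.closedBall] using this
    · simpa [norm_conj_le (hS u hu)] using hx
  obtain ⟨y, hy, rfl⟩ := hv _ hball
  refine ⟨y, by simpa using hy, fun u hu => ?_, fun C h1 h2 h3 => hv C ⟨h1, h2, h3⟩⟩
  let T : t.L2 →L[ℂ] t.L2 := t.π u * t.rmul (star u)
  have hT : ∀ a, T (t.Λ a) = t.Λ (u * a * star u) := fun a => by simp [T, mul_assoc]
  have hpre : T ⁻¹' (⋂₀ F) ∈ F := by
    refine ⟨hKc.preimage T.continuous, hKv.preimage T, fun w hw => ?_⟩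
    rw [Set.mem_preimage, hT]
    have := hKo _ (hmul u hu w hw)
    simpa [mul_assoc] using this
  have hw : T (t.Λ y) ∈ ⋂₀ F := hv _ hpre
  have h1 := h _ hw
  rw [hT] at h1
  have h2 : ‖t.Λ (u * y * star u)‖ = ‖t.Λ y‖ := t.n2_conj (hS u hu) y
  have h3 : ‖t.Λ (u * y * star u) - t.Λ y‖ ^ 2 ≤ 0 := by
    rw [@norm_sub_sq ℂ, h2, ← inner_re_symm]
    rw [zero_sub, inner_neg_left, inner_sub_right, Complex.neg_re, Complex.sub_re] at h1
    have := @InnerProductSpace.norm_sq_eq_re_inner ℂ _ _ _ _ (t.Λ y)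
    simp only [RCLike.re_to_complex] at this ⊢
    linarith
  rw [← map_sub, norm_Λ, t.n2_conj_sub (hS u hu)] at h3
  exact t.eq_of_n2 (by nlinarith [t.n2_nonneg (u * y - y * u)])

lemma commute_of_unitary {y : A} (h : ∀ u ∈ unitary A, u * y = y * u) (a : A) :
    y * a = a * y := by
  obtain ⟨u, c, rfl, -⟩ := CStarAlgebra.exists_sum_four_unitary a
  rw [Finset.mul_sum, Finset.sum_mul]
  exact Finset.sum_congr rfl fun i _ => by rw [mul_smul_comm, smul_mul_assoc, h _ (u i).2]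

/-- In a factor the trace lies in every closed convex set containing the unitary orbit. -/
theorem factor_avg [t.W] (hf : ∀ x : A, (∀ y, x * y = y * x) → ∃ c : ℂ, x = c • 1) {x : A}
    (hx : ‖x‖ ≤ 1) (C : Set t.L2) (h1 : IsClosed C) (h2 : CvxC C)
    (h3 : ∀ u ∈ unitary A, t.Λ (u * x * star u) ∈ C) : t.Λ (t.τ x • 1) ∈ C := by
  obtain ⟨y, -, hy, hC⟩ := t.exists_avg (unitary A) (fun _ h => h) (fun _ h _ h' => mul_mem h h')
    ⟨1, one_mem _⟩ hx
  obtain ⟨c, rfl⟩ := hf y (commute_of_unitary hy)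
  have h4 := hC ((innerSL ℂ (t.Λ 1)) ⁻¹' {t.τ x}) (isClosed_singleton.preimage (by fun_prop))
    ((cvxC_singleton _).preimage _) fun u hu => by simp [inner_Λ, t.τ_conj hu]
  have h5 : c = t.τ x := by simpa [inner_Λ, t.map_one, norm_Λ] using h4
  rw [← h5]
  exact hC C h1 h2 h3

theorem factor_ineq [t.W] (hf : ∀ x : A, (∀ y, x * y = y * x) → ∃ c : ℂ, x = c • 1) {x : A}
    (hx : ‖x‖ ≤ 1) {ε : ℝ} (hε : 0 < ε) :
    ∃ u ∈ unitary A, t.n2 (x - t.τ x • 1) ≤ t.n2 (u * x - x * u) + ε := by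
  by_contra hne
  push Not at hne
  have := t.factor_avg hf hx (Metric.closedBall (t.Λ x) (t.n2 (x - t.τ x • 1) - ε))
    Metric.isClosed_closedBall (cvxC_closedBall _ _) fun u hu => by
      rw [mem_closedBall_iff_norm, ← map_sub, norm_Λ, t.n2_conj_sub hu]
      linarith [hne u hu]
  rw [mem_closedBall_iff_norm, ← map_sub, norm_Λ, n2_sub_comm] at this
  linarith

end TrState

end Pool.Agent.Lib.Tracial
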