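import Pool.Agent.Lib.Tracial.Defs

namespace Pool.Agent.Lib.Tracial

open scoped ComplexOrder InnerProductSpace ComplexConjugate
open Filter Topology

variable {A : Type*} [CStarAlgebra A]

namespace TrState

variable (t : TrState A)

lemma star_of_selfAdjoint {h : A} (hh : IsSelfAdjoint h) : conj (t.τ h) = t.τ h := by
  have e : h = (4⁻¹ : ℂ) • (star (h + 1) * (h + 1) - star (h - 1) * (h - 1)) := by
    simp only [star_add, star_sub, star_one, hh.star_eq]
    have : (h + 1) * (h + 1) - (h - 1) * (h - 1) = (4 : ℂ) • h := by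
      rw [show (4 : ℂ) • h = h + h + h + h by module]
      noncomm_ring
    rw [this, smul_smul]; norm_num
  have h1 := (t.nonneg (h + 1)).star_eq
  have h2 := (t.nonneg (h - 1)).star_eq
  rw [e, map_smul, map_sub, smul_eq_mul, map_mul, map_sub]
  simp only [Complex.star_def] at h1 h2
  rw [h1, h2, map_inv₀, map_ofNat]

lemma map_star (x : A) : t.τ (star x) = conj (t.τ x) := by
  have h1 := t.star_of_selfAdjoint (realPart x).2
  have h2 := t.star_of_selfAdjoint (imaginaryPart x).2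
  conv_lhs => rw [← realPart_add_I_smul_imaginaryPart x]
  conv_rhs => rw [← realPart_add_I_smul_imaginaryPart x]
  rw [star_add, star_smul, (realPart x).2.star_eq, (imaginaryPart x).2.star_eq]
  simp only [map_add, map_smul, smul_eq_mul, map_mul, h1, h2, Complex.star_def]

/-- The algebra with the trace inner product. -/
def PreL2 (_t : TrState A) := A

instance : AddCommGroup t.PreL2 := inferInstanceAs (AddCommGroup A)
instance : Module ℂ t.PreL2 := inferInstanceAs (Module ℂ A)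

/-- identity map -/
noncomputable def toPre : A ≃ₗ[ℂ] t.PreL2 := LinearEquiv.refl ℂ _

/-- core -/
noncomputable abbrev core : PreInnerProductSpace.Core ℂ t.PreL2 where
  inner a b := t.τ (star (t.toPre.symm a) * t.toPre.symm b)
  conj_inner_symm a b := by rw [← t.map_star]; simp
  re_inner_nonneg _ := (t.nonneg _).1
  add_left _ _ _ := by rw [map_add, star_add, add_mul, map_add]
  smul_left := by simp [smul_mul_assoc]

noncomputable instance : SeminormedAddCommGroup t.PreL2 :=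
  InnerProductSpace.Core.toSeminormedAddCommGroup (c := t.core)
noncomputable instance : InnerProductSpace ℂ t.PreL2 := InnerProductSpace.ofCore t.core

/-- The Hilbert space of the trace. -/
def L2 := UniformSpace.Completion t.PreL2

noncomputable instance : NormedAddCommGroup t.L2 :=
  inferInstanceAs (NormedAddCommGroup (UniformSpace.Completion t.PreL2))
noncomputable instance : InnerProductSpace ℂ t.L2 :=
  inferInstanceAs (InnerProductSpace ℂ (UniformSpace.Completion t.PreL2))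
instance : CompleteSpace t.L2 := inferInstanceAs (CompleteSpace (UniformSpace.Completion t.PreL2))

/-- The canonical map into the Hilbert space. -/
noncomputable def Λ : A →ₗ[ℂ] t.L2 :=
  ((UniformSpace.Completion.toComplₗᵢ (𝕜 := ℂ) (E := t.PreL2)).toLinearMap ∘ₗ t.toPre.toLinearMap :
    A →ₗ[ℂ] UniformSpace.Completion t.PreL2)

lemma Λ_eq (a : A) : t.Λ a = ((t.toPre a : t.PreL2) : UniformSpace.Completion t.PreL2) := rfl

lemma inner_Λ (a b : A) : ⟪t.Λ a, t.Λ b⟫_ℂ = t.τ (star a * b) :=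
  UniformSpace.Completion.inner_coe (𝕜 := ℂ) (t.toPre a) (t.toPre b)

lemma denseRange_Λ : DenseRange t.Λ :=
  UniformSpace.Completion.denseRange_coe (α := t.PreL2)

/-- The trace norm. -/
noncomputable def n2 (a : A) : ℝ := ‖t.Λ a‖

lemma norm_Λ (a : A) : ‖t.Λ a‖ = t.n2 a := rfl

lemma n2_nonneg (a : A) : 0 ≤ t.n2 a := norm_nonneg _

lemma n2_sq (a : A) : t.n2 a ^ 2 = (t.τ (star a * a)).re := by
  rw [n2, ← inner_Λ, @InnerProductSpace.norm_sq_eq_re_inner ℂ]; rfl

lemma n2_sq' (a : A) : ((t.n2 a ^ 2 : ℝ) : ℂ) = t.τ (star a * a) := by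
  rw [n2_sq]
  exact Complex.ext rfl (by simpa using (t.nonneg a).2)

lemma norm_τ_star_mul (a : A) : ‖t.τ (star a * a)‖ = t.n2 a ^ 2 := by
  rw [← n2_sq']; simp

@[simp] lemma n2_zero : t.n2 0 = 0 := by simp [n2]
lemma n2_add_le (a b : A) : t.n2 (a + b) ≤ t.n2 a + t.n2 b := by
  simp only [n2, map_add]; exact norm_add_le _ _
lemma n2_sub_le (a b : A) : t.n2 (a - b) ≤ t.n2 a + t.n2 b := by
  simp only [n2, map_sub]; exact norm_sub_le _ _
@[simp] lemma n2_neg (a : A) : t.n2 (-a) = t.n2 a := by simp [n2]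
lemma n2_sub_comm (a b : A) : t.n2 (a - b) = t.n2 (b - a) := by
  rw [← neg_sub, n2_neg]
lemma n2_triangle (a b c : A) : t.n2 (a - c) ≤ t.n2 (a - b) + t.n2 (b - c) := by
  simpa using t.n2_add_le (a - b) (b - c)
lemma n2_smul (c : ℂ) (a : A) : t.n2 (c • a) = ‖c‖ * t.n2 a := by simp [n2, norm_smul]
lemma n2_sum_le {ι : Type*} (s : Finset ι) (f : ι → A) :
    t.n2 (∑ i ∈ s, f i) ≤ ∑ i ∈ s, t.n2 (f i) := by
  simp only [n2, map_sum]; exact norm_sum_le _ _

@[simp] lemma n2_star (a : A) : t.n2 (star a) = t.n2 a := by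
  rw [← sq_eq_sq₀ (t.n2_nonneg _) (t.n2_nonneg _), n2_sq, n2_sq, star_star, t.trace]

lemma n2_mul_le (a b : A) : t.n2 (a * b) ≤ ‖a‖ * t.n2 b := by
  rw [← sq_le_sq₀ (t.n2_nonneg _) (mul_nonneg (norm_nonneg _) (t.n2_nonneg _)), mul_pow,
    ← norm_τ_star_mul, ← norm_τ_star_mul]
  exact pre_mul t.τ t.nonneg a b

lemma n2_mul_le' (a b : A) : t.n2 (a * b) ≤ t.n2 a * ‖b‖ := by
  rw [← n2_star, star_mul, mul_comm]
  simpa using t.n2_mul_le (star b) (star a)

@[simp] lemma n2_one : t.n2 1 = 1 := by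
  have := t.n2_sq 1
  rw [star_one, one_mul, t.map_one, Complex.one_re] at this
  exact (pow_eq_one_iff_of_nonneg (t.n2_nonneg _) two_ne_zero).1 this

lemma n2_le_norm (a : A) : t.n2 a ≤ ‖a‖ := by simpa using t.n2_mul_le a 1

lemma norm_τ_mul_le (a b : A) : ‖t.τ (a * b)‖ ≤ t.n2 a * t.n2 b := by
  have := norm_inner_le_norm (𝕜 := ℂ) (t.Λ (star a)) (t.Λ b)
  rwa [inner_Λ, star_star, norm_Λ, n2_star] at this

lemma norm_τ_le_n2 (a : A) : ‖t.τ a‖ ≤ t.n2 a := by simpa using t.norm_τ_mul_le 1 a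

lemma norm_τ_le (a : A) : ‖t.τ a‖ ≤ ‖a‖ := (t.norm_τ_le_n2 a).trans (t.n2_le_norm a)

lemma n2_mul_le_of_le {a : A} (ha : ‖a‖ ≤ 1) (b : A) : t.n2 (a * b) ≤ t.n2 b :=
  (t.n2_mul_le a b).trans (mul_le_of_le_one_left (t.n2_nonneg _) ha)

lemma n2_mul_le_of_le' (a : A) {b : A} (hb : ‖b‖ ≤ 1) : t.n2 (a * b) ≤ t.n2 a :=
  (t.n2_mul_le' a b).trans (mul_le_of_le_one_right (t.n2_nonneg _) hb)

lemma n2_unitary_mul {u : A} (hu : u ∈ unitary A) (a : A) : t.n2 (u * a) = t.n2 a := by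
  rw [← sq_eq_sq₀ (t.n2_nonneg _) (t.n2_nonneg _), n2_sq, n2_sq, star_mul, mul_assoc,
    ← mul_assoc (star u), Unitary.star_mul_self_of_mem hu, one_mul]

lemma n2_mul_unitary (a : A) {u : A} (hu : u ∈ unitary A) : t.n2 (a * u) = t.n2 a := by
  rw [← n2_star, star_mul, t.n2_unitary_mul (Unitary.star_mem hu), n2_star]

include t in
lemma nontrivial : Nontrivial A :=
  ⟨⟨1, 0, fun h => one_ne_zero (by rw [← t.map_one, h, map_zero])⟩⟩

lemma τ_smul_one (c : ℂ) : t.τ (c • (1 : A)) = c := by simp [t.map_one]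

lemma ext_Λ {H : Type*} [NormedAddCommGroup H] [NormedSpace ℂ H] {S T : t.L2 →L[ℂ] H}
    (h : ∀ a, S (t.Λ a) = T (t.Λ a)) : S = T :=
  ContinuousLinearMap.ext fun ξ =>
    congrFun (t.denseRange_Λ.equalizer S.continuous T.continuous (funext h)) ξ

lemma ext_inner_Λ {ξ η : t.L2} (h : ∀ a, ⟪t.Λ a, ξ⟫_ℂ = ⟪t.Λ a, η⟫_ℂ) : ξ = η := by
  apply ext_inner_left ℂ
  intro v
  exact congrFun (t.denseRange_Λ.equalizer (g := fun v => ⟪v, ξ⟫_ℂ) (h := fun v => ⟪v, η⟫_ℂ)
    (by fun_prop) (by fun_prop) (funext h)) v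

/-- extension of a linear map bounded for the trace norm -/
noncomputable def extend (f : A →ₗ[ℂ] A) (C : ℝ) (h : ∀ a, t.n2 (f a) ≤ C * t.n2 a) :
    t.L2 →L[ℂ] t.L2 :=
  (((t.toPre.toLinearMap ∘ₗ f ∘ₗ t.toPre.symm.toLinearMap).mkContinuous C fun x =>
    (UniformSpace.Completion.norm_coe _).symm.trans_le ((h (t.toPre.symm x)).trans_eq
      (congrArg (C * ·) (UniformSpace.Completion.norm_coe x)))).completion :
    UniformSpace.Completion t.PreL2 →L[ℂ] UniformSpace.Completion t.PreL2)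

lemma extend_Λ (f : A →ₗ[ℂ] A) (C : ℝ) (h : ∀ a, t.n2 (f a) ≤ C * t.n2 a) (a : A) :
    t.extend f C h (t.Λ a) = t.Λ (f a) :=
  ContinuousLinearMap.completion_apply_coe _ (t.toPre a)

lemma opNorm_le_of_Λ {H : Type*} [NormedAddCommGroup H] [NormedSpace ℂ H] (T : t.L2 →L[ℂ] H)
    {C : ℝ} (hC : 0 ≤ C) (h : ∀ a, ‖T (t.Λ a)‖ ≤ C * t.n2 a) : ‖T‖ ≤ C := by
  refine T.opNorm_le_bound hC fun ξ => ?_
  refine t.denseRange_Λ.induction_on ξ ?_ h
  exact isClosed_le (by fun_prop) (by fun_prop)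

/-- left multiplication -/
noncomputable def lmul (a : A) : t.L2 →L[ℂ] t.L2 :=
  t.extend (LinearMap.mulLeft ℂ a) ‖a‖ (t.n2_mul_le a)

/-- right multiplication -/
noncomputable def rmul (a : A) : t.L2 →L[ℂ] t.L2 :=
  t.extend (LinearMap.mulRight ℂ a) ‖a‖ fun b => by
    rw [mul_comm]; exact t.n2_mul_le' b a

@[simp] lemma lmul_Λ (a b : A) : t.lmul a (t.Λ b) = t.Λ (a * b) := t.extend_Λ _ _ _ _
@[simp] lemma rmul_Λ (a b : A) : t.rmul a (t.Λ b) = t.Λ (b * a) := t.extend_Λ _ _ _ _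

lemma adjoint_eq_of_Λ {S T : t.L2 →L[ℂ] t.L2}
    (h : ∀ a b, ⟪S (t.Λ a), t.Λ b⟫_ℂ = ⟪t.Λ a, T (t.Λ b)⟫_ℂ) : S = star T := by
  rw [ContinuousLinearMap.star_eq_adjoint]
  refine t.ext_Λ fun a => ?_
  apply ext_inner_right ℂ
  intro v
  rw [ContinuousLinearMap.adjoint_inner_left]
  exact congrFun (t.denseRange_Λ.equalizer (g := fun v => ⟪S (t.Λ a), v⟫_ℂ)
    (h := fun v => ⟪t.Λ a, T v⟫_ℂ) (by fun_prop) (by fun_prop) (funext (h a))) v

lemma lmul_star (a : A) : t.lmul (star a) = star (t.lmul a) :=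
  t.adjoint_eq_of_Λ fun b c => by simp [inner_Λ, mul_assoc]

lemma rmul_star (a : A) : t.rmul (star a) = star (t.rmul a) :=
  t.adjoint_eq_of_Λ fun b c => by
    simp only [rmul_Λ, inner_Λ, star_mul, star_star]
    rw [mul_assoc, t.trace, mul_assoc]

/-- The GNS representation. -/
noncomputable def π : A →⋆ₐ[ℂ] (t.L2 →L[ℂ] t.L2) where
  toFun := t.lmul
  map_one' := t.ext_Λ fun a => by simp
  map_mul' a b := t.ext_Λ fun c => by simp [mul_assoc]
  map_zero' := t.ext_Λ fun a => by simp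
  map_add' a b := t.ext_Λ fun c => by simp [add_mul]
  commutes' c := t.ext_Λ fun a => by simp [Algebra.algebraMap_eq_smul_one]
  map_star' := t.lmul_star

@[simp] lemma π_Λ (a b : A) : t.π a (t.Λ b) = t.Λ (a * b) := t.lmul_Λ a b

lemma π_rmul_comm (a b : A) : t.π a * t.rmul b = t.rmul b * t.π a :=
  t.ext_Λ fun c => by simp [mul_assoc]

lemma π_eq_zero_iff (a : A) : t.π a = 0 ↔ t.n2 a = 0 := by
  constructor
  · intro h
    have := t.π_Λ a 1
    rw [h, mul_one] at this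
    rw [n2, ← this]; simp
  · intro h
    refine t.ext_Λ fun b => ?_
    rw [π_Λ, ContinuousLinearMap.zero_apply, ← norm_eq_zero, norm_Λ]
    exact le_antisymm (by simpa [h] using t.n2_mul_le' a b) (t.n2_nonneg _)

/-- Faithful trace with a unit ball complete for the trace norm. -/
class W (t : TrState A) : Prop where
  faithful : t.Faithful
  closed : IsClosed (t.Λ '' Metric.closedBall 0 1)

variable [t.W]

lemma eq_zero_of_n2 {a : A} (h : t.n2 a = 0) : a = 0 := by
  apply W.faithful (t := t)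
  rw [← n2_sq', h]; simp

lemma Λ_injective : Function.Injective t.Λ := by
  rw [injective_iff_map_eq_zero]
  intro a ha
  exact t.eq_zero_of_n2 (by rw [n2, ha, norm_zero])

lemma eq_of_n2 {a b : A} (h : t.n2 (a - b) = 0) : a = b := sub_eq_zero.1 (t.eq_zero_of_n2 h)

lemma eq_of_n2_le {a b : A} (h : ∀ ε > 0, t.n2 (a - b) ≤ ε) : a = b :=
  t.eq_of_n2 (le_antisymm (le_of_forall_pos_le_add fun ε hε => by simpa using h ε hε)
    (t.n2_nonneg _))

lemma π_injective : Function.Injective t.π := by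
  rw [injective_iff_map_eq_zero]
  intro a ha
  exact t.eq_zero_of_n2 ((t.π_eq_zero_iff a).1 ha)

end TrState

end Pool.Agent.Lib.Tracial
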