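import Pool.Agent.Lib.Tracial.Comp

namespace Pool.Agent.Lib.Tracial

open scoped ComplexOrder InnerProductSpace ComplexConjugate
open Filter Topology

variable {A : Type*} [CStarAlgebra A]

/-- The homomorphism defined by matrix units. -/
noncomputable def unitsHom {n : Type*} [Fintype n] [DecidableEq n] {p : A} (hp : IsStarProjection p)
    {v : n → A} (hv : ∀ i j, star (v i) * v j = if i = j then p else 0)
    (h1 : ∑ i, v i * star (v i) = 1) : Matrix n n ℂ →⋆ₐ[ℂ] A where
  toFun M := ∑ i, ∑ j, M i j • (v i * star (v j))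
  map_one' := by simp [Matrix.one_apply, h1]
  map_mul' M N := by
    have hvp : ∀ i, v i * p = v i := fun i => by
      have := hv i i
      rw [if_pos rfl] at this
      rw [← this]; exact pi_mul_of_proj (this ▸ hp)
    have : ∀ i j k l, v i * star (v j) * (v k * star (v l)) =
        if j = k then v i * star (v l) else 0 := fun i j k l => by
      rw [mul_assoc, ← mul_assoc (star (v j)), hv]
      split_ifs
      · rw [← mul_assoc, hvp]
      · simp
    rw [Finset.sum_mul]
    refine Finset.sum_congr rfl fun i _ => ?_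
    simp only [Matrix.mul_apply, Finset.sum_smul]
    rw [Finset.sum_comm, Finset.sum_mul]
    refine Finset.sum_congr rfl fun j _ => ?_
    simp only [Finset.mul_sum, smul_mul_smul_comm, this]
    rw [Finset.sum_comm]
    simp
  map_zero' := by simp
  map_add' M N := by simp [add_smul, Finset.sum_add_distrib]
  commutes' c := by
    simp [Matrix.one_apply, Algebra.algebraMap_eq_smul_one, ← h1, Finset.smul_sum]
  map_star' M := by
    simp only [star_sum, star_smul, star_mul, star_star, Matrix.star_apply]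
    exact Finset.sum_comm

namespace TrState

variable (t : TrState A)

theorem exists_matrix [t.W] (hf : IsInfFactor A) (n : Type*) [Fintype n] [DecidableEq n]
    [Nonempty n] : Nonempty (Matrix n n ℂ →⋆ₐ[ℂ] A) := by
  obtain ⟨p, v, hp, -, hv, h1⟩ := t.exists_units hf n
  exact ⟨unitsHom hp hv h1⟩

lemma τ_single_mul {n : Type*} [Fintype n] [DecidableEq n] (φ : Matrix n n ℂ →⋆ₐ[ℂ] A) {b : A}
    (hb : ∀ M, φ M * b = b * φ M) (i : n) :
    (Fintype.card n : ℂ) * t.τ (φ (Matrix.single i i 1) * b) = t.τ b := by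
  have h : ∀ j, t.τ (φ (Matrix.single j j 1) * b) = t.τ (φ (Matrix.single i i 1) * b) := by
    intro j
    have e1 : Matrix.single j j (1 : ℂ) = Matrix.single j i 1 * Matrix.single i j 1 := by simp
    have e2 : Matrix.single i i (1 : ℂ) = Matrix.single i j 1 * Matrix.single j i 1 := by simp
    rw [e1, e2, map_mul φ, map_mul φ, mul_assoc, t.trace, mul_assoc, ← hb, mul_assoc]
  have h1 : ∑ j : n, Matrix.single j j (1 : ℂ) = 1 := by
    ext a b
    simp [Matrix.sum_apply, Matrix.single_apply, Matrix.one_apply, ite_and]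
  conv_rhs => rw [← one_mul b, ← φ.map_one, ← h1, map_sum, Finset.sum_mul, map_sum]
  simp [h]

lemma tr_le_of_proj [t.W] (hf : IsInfFactor A) (s : TrState A) {e : A} (he : IsStarProjection e) :
    s.tr e ≤ t.tr e := by
  refine ge_of_tendsto' (f := fun n : ℕ => t.tr e + 1 / ((n : ℝ) + 1)) (x := atTop) ?_ fun n => ?_
  · simpa using tendsto_one_div_add_atTop_nhds_zero_nat.const_add (t.tr e)
  obtain ⟨p, v, hp, hpt, hv, h1⟩ := t.exists_units hf (Fin (n + 1))
  have h2 := s.tr_family hv Finset.univ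
  rw [h1, tr_one] at h2
  simp only [Finset.card_univ, Fintype.card_fin, Nat.cast_add, Nat.cast_one] at h2 hpt
  have hn : (0 : ℝ) < n + 1 := by positivity
  have h0 := t.tr_proj_nonneg he
  obtain ⟨S, -, hS⟩ := Finset.exists_subset_card_eq (s := (Finset.univ : Finset (Fin (n + 1))))
    (n := ⌈(n + 1) * t.tr e⌉₊) (by
      rw [Nat.ceil_le]; simp only [Finset.card_univ, Fintype.card_fin]; push_cast
      exact mul_le_of_le_one_right hn.le (t.tr_proj_le_one he))
  obtain ⟨w, hw, hw'⟩ := t.exists_sub hf.1 he (family_proj hp hv S) (by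
    rw [t.tr_family hv, hpt, hS, mul_one_div, le_div_iff₀ hn, mul_comm]
    exact Nat.le_ceil _)
  have h3 := s.tr_le_of_sub (family_proj hp hv S) (hw ▸ he) hw'
  rw [hw, s.tr_family hv, hS] at h3
  have h4 := (Nat.ceil_lt_add_one (a := (n + 1) * t.tr e) (by positivity)).le
  have h5 : s.tr p = 1 / (n + 1) := by rw [eq_div_iff hn.ne', mul_comm, ← h2]
  refine h3.trans ?_
  rw [h5, mul_one_div, div_le_iff₀ hn]
  field_simp
  linarith

include t in
lemma exists_halving [t.W] {k : A} (hk : IsSelfAdjoint k) (h1 : ‖k‖ ≤ 1) :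
    ∃ e, IsStarProjection e ∧ ‖(2 : ℂ) • k - (2 : ℂ) • e + 1‖ ≤ 1 := by
  obtain ⟨e, he, hek, he'⟩ := t.exists_range k⁺
  refine ⟨e, he, ?_⟩
  have h2 := he' _ (CFC.negPart_mul_posPart k)
  have h3 := sa_mul_eq he.isSelfAdjoint (posPart_sa k) hek
  have h4 : ‖(2 : ℂ) • k⁺ + (2 : ℂ) • k⁻ - 1‖ ≤ 1 := by
    haveI := t.nontrivial
    have : (2 : ℂ) • k⁺ + (2 : ℂ) • k⁻ - 1 = cfc (fun s : ℝ => 2 * s⁺ + 2 * s⁻ - 1) k := by
      rw [cfcC_sub _ (by fun_prop) (by fun_prop), cfcC_add _ (by fun_prop) (by fun_prop),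
        cfc_const_mul _ _ _ (by fun_prop), cfc_const_mul _ _ _ (by fun_prop), cfc_const_one ℝ _ hk,
        CFC.posPart_def, CFC.negPart_def, cfcₙ_eq_cfc, cfcₙ_eq_cfc]
      norm_cast
    rw [this]
    refine norm_cfc_le zero_le_one fun s hs => ?_
    have := (spectrum.norm_le_norm_of_mem hs).trans h1
    rw [Real.norm_eq_abs, abs_le] at this ⊢
    rcases le_total s 0 with h | h
    · rw [posPart_eq_zero.2 h, negPart_eq_neg.2 h]; constructor <;> linarith
    · rw [posPart_eq_self.2 h, negPart_eq_zero.2 h]; constructor <;> linarith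
  have h5 : ‖(2 : ℂ) • e - 1‖ ≤ 1 := by
    have : star ((2 : ℂ) • e - 1) * ((2 : ℂ) • e - 1) = 1 := by
      simp only [star_sub, star_smul, he.isSelfAdjoint.star_eq, star_one, sub_mul, mul_sub,
        smul_mul_smul_comm, he.isIdempotentElem.eq, star_ofNat, one_mul, mul_one]
      module
    have h6 := CStarRing.norm_star_mul_self (x := (2 : ℂ) • e - 1)
    haveI hnt := t.nontrivial
    rw [this, norm_one] at h6
    nlinarith [norm_nonneg ((2 : ℂ) • e - 1)]
  have e1 : (2 : ℂ) • k - (2 : ℂ) • e + 1 =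
      ((2 : ℂ) • k⁺ + (2 : ℂ) • k⁻ - 1) * ((2 : ℂ) • e - 1) := by
    nth_rw 1 [← CFC.posPart_sub_negPart k hk]
    simp only [sub_mul, mul_sub, add_mul, smul_mul_smul_comm, h2, h3, one_mul, mul_one]
    module
  rw [e1]
  exact (norm_mul_le _ _).trans (mul_le_one₀ h4 (norm_nonneg _) h5)

/-- Uniqueness of the tracial state. -/
theorem τ_unique [t.W] (hf : IsInfFactor A) (s : TrState A) (a : A) : s.τ a = t.τ a := by
  have hp : ∀ e, IsStarProjection e → s.τ e = t.τ e := fun e he => by
    have h1 := t.tr_le_of_proj hf s he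
    have h2 := t.tr_le_of_proj hf s he.one_sub
    rw [tr_sub, tr_sub, tr_one, tr_one] at h2
    rw [s.τ_sa he.isSelfAdjoint, t.τ_sa he.isSelfAdjoint, show s.tr e = t.tr e by linarith]
  have h : ∀ n : ℕ, ∀ k, IsSelfAdjoint k → ‖k‖ ≤ 1 → ‖s.τ k - t.τ k‖ ≤ 2 * (1 / 2) ^ n := by
    intro n
    induction n with
    | zero => 
      intro k _ h1
      refine (norm_sub_le _ _).trans ?_
      linarith [s.norm_τ_le k, t.norm_τ_le k]
    | succ n ih =>
      intro k hk h1
      obtain ⟨e, he, h2⟩ := t.exists_halving hk h1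
      have := ih _ (by
        simp [IsSelfAdjoint, hk.star_eq, he.isSelfAdjoint.star_eq]) h2
      simp only [map_add, map_sub, map_smul, hp e he, s.map_one, t.map_one, smul_eq_mul] at this
      rw [show 2 * s.τ k - 2 * t.τ e + 1 - (2 * t.τ k - 2 * t.τ e + 1) = 2 * (s.τ k - t.τ k) by ring,
        norm_mul, Complex.norm_ofNat] at this
      rw [pow_succ]; linarith
  have h1 : ∀ k, IsSelfAdjoint k → ‖k‖ ≤ 1 → s.τ k = t.τ k := fun k hk h1 => by
    rw [← sub_eq_zero, ← norm_le_zero_iff]
    refine ge_of_tendsto' (x := atTop) ?_ fun n => h n k hk h1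
    simpa using (tendsto_pow_atTop_nhds_zero_of_lt_one (r := (1 / 2 : ℝ)) (by norm_num)
      (by norm_num)).const_mul 2
  have h2 : ∀ k, IsSelfAdjoint k → s.τ k = t.τ k := fun k hk => by
    have hp : 0 < ‖k‖ + 1 := by positivity
    have := h1 ((‖k‖ + 1)⁻¹ • k) (IsSelfAdjoint.smul (IsSelfAdjoint.all _) hk) (by
      rw [norm_smul, Real.norm_of_nonneg (by positivity), inv_mul_le_iff₀ hp]; linarith)
    rw [← Complex.coe_smul, map_smul, map_smul] at this
    exact smul_right_injective _ (by exact_mod_cast (inv_pos.2 hp).ne') this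
  rw [← realPart_add_I_smul_imaginaryPart a, map_add, map_add, map_smul, map_smul,
    h2 _ (realPart a).2, h2 _ (imaginaryPart a).2]

end TrState

end Pool.Agent.Lib.Tracial
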