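import Mathlib

namespace Pool.Agent.Lib.Tracial

open scoped ComplexOrder ENNReal
open Filter Topology

variable {A : Type*} [CStarAlgebra A]

lemma pre_norm_le {z w : ℂ} (hz : 0 ≤ z) (h : z ≤ w) : ‖z‖ ≤ ‖w‖ := by
  have hw : 0 ≤ w := hz.trans h
  rw [← Complex.re_eq_norm.2 hz, ← Complex.re_eq_norm.2 hw]
  exact h.1

lemma pre_mul (τ : A →ₗ[ℂ] ℂ) (hpos : ∀ x, 0 ≤ τ (star x * x)) (a b : A) :
    ‖τ (star (a * b) * (a * b))‖ ≤ ‖a‖ ^ 2 * ‖τ (star b * b)‖ := by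
  let _ := CStarAlgebra.spectralOrder A
  let _ := CStarAlgebra.spectralOrderedRing A
  have h1 : star b * (star a * a) * b ≤ ‖star a * a‖ • (star b * b) :=
    CStarAlgebra.star_left_conjugate_le_norm_smul (IsSelfAdjoint.star_mul_self a)
  obtain ⟨c, hc⟩ := CStarAlgebra.nonneg_iff_eq_star_mul_self.1 (sub_nonneg.2 h1)
  have h2 := hpos c
  rw [← hc, map_sub, sub_nonneg, CStarRing.norm_star_mul_self] at h2
  have e : star (a * b) * (a * b) = star b * (star a * a) * b := by simp [mul_assoc]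
  rw [e]
  refine (pre_norm_le (e ▸ hpos (a * b)) h2).trans_eq ?_
  rw [← Complex.coe_smul, map_smul, norm_smul]
  simp [sq]

lemma pre_add (τ : A →ₗ[ℂ] ℂ) (hpos : ∀ x, 0 ≤ τ (star x * x)) (a b : A) :
    ‖τ (star (a + b) * (a + b))‖ ≤ 2 * ‖τ (star a * a)‖ + 2 * ‖τ (star b * b)‖ := by
  have h := hpos (a - b)
  have e : τ (star (a + b) * (a + b)) + τ (star (a - b) * (a - b)) =
      2 * τ (star a * a) + 2 * τ (star b * b) := by
    simp only [star_add, star_sub, add_mul, mul_add, sub_mul, mul_sub, map_add, map_sub]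
    ring
  have h2 : τ (star (a + b) * (a + b)) ≤ 2 * τ (star a * a) + 2 * τ (star b * b) := by
    rw [← e]; exact le_add_of_nonneg_right h
  refine (pre_norm_le (hpos _) h2).trans ((norm_add_le _ _).trans ?_)
  simp

variable {ι : Type*} (τ : A →ₗ[ℂ] ℂ) (hpos : ∀ x, 0 ≤ τ (star x * x))
  (htr : ∀ x y, τ (x * y) = τ (y * x)) (l : Filter ι)

lemma null_zero : Tendsto (fun _ : ι => τ (star 0 * 0)) l (𝓝 0) := by
  simpa using tendsto_const_nhds

include hpos in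
lemma null_add {x y : ι → A} (hx : Tendsto (fun i => τ (star (x i) * x i)) l (𝓝 0))
    (hy : Tendsto (fun i => τ (star (y i) * y i)) l (𝓝 0)) :
    Tendsto (fun i => τ (star (x i + y i) * (x i + y i))) l (𝓝 0) := by
  rw [tendsto_zero_iff_norm_tendsto_zero] at hx hy ⊢
  refine squeeze_zero (fun _ => norm_nonneg _) (fun i => pre_add τ hpos _ _) ?_
  simpa using (hx.const_mul 2).add (hy.const_mul 2)

include hpos in
lemma null_mul {x : ι → A} (hx : ∃ C : ℝ, ∀ i, ‖x i‖ ≤ C) {y : ι → A}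
    (hy : Tendsto (fun i => τ (star (y i) * y i)) l (𝓝 0)) :
    Tendsto (fun i => τ (star (x i * y i) * (x i * y i))) l (𝓝 0) := by
  obtain ⟨C, hC⟩ := hx
  rw [tendsto_zero_iff_norm_tendsto_zero] at hy ⊢
  refine squeeze_zero (g := fun i => C ^ 2 * ‖τ (star (y i) * y i)‖) (fun _ => norm_nonneg _)
    (fun i => (pre_mul τ hpos _ _).trans ?_) ?_
  · gcongr
    exact hC i
  · simpa using hy.const_mul (C ^ 2)

include htr in
lemma null_star {x : ι → A} (hx : Tendsto (fun i => τ (star (x i) * x i)) l (𝓝 0)) :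
    Tendsto (fun i => τ (star (star (x i)) * star (x i))) l (𝓝 0) := by
  simpa only [star_star, htr (x _)] using hx

lemma bdd_star {x : ι → A} (hx : ∃ C : ℝ, ∀ i, ‖x i‖ ≤ C) : ∃ C : ℝ, ∀ i, ‖(star x) i‖ ≤ C := by
  simpa using hx

lemma bdd_add {x y : ι → A} (hx : ∃ C : ℝ, ∀ i, ‖x i‖ ≤ C) (hy : ∃ C : ℝ, ∀ i, ‖y i‖ ≤ C) :
    ∃ C : ℝ, ∀ i, ‖(x + y) i‖ ≤ C := by
  obtain ⟨C, hC⟩ := hx
  obtain ⟨D, hD⟩ := hy
  exact ⟨C + D, fun i => (norm_add_le _ _).trans (add_le_add (hC i) (hD i))⟩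

lemma bdd_mul {x y : ι → A} (hx : ∃ C : ℝ, ∀ i, ‖x i‖ ≤ C) (hy : ∃ C : ℝ, ∀ i, ‖y i‖ ≤ C) :
    ∃ C : ℝ, ∀ i, ‖(x * y) i‖ ≤ C := by
  obtain ⟨C, hC⟩ := hx
  obtain ⟨D, hD⟩ := hy
  exact ⟨C * D, fun i => (norm_mul_le _ _).trans
    (mul_le_mul (hC i) (hD i) (norm_nonneg _) ((norm_nonneg _).trans (hC i)))⟩

include hpos htr in
lemma null_mul' {x : ι → A} (hx : ∃ C : ℝ, ∀ i, ‖x i‖ ≤ C) {y : ι → A}
    (hy : Tendsto (fun i => τ (star (y i) * y i)) l (𝓝 0)) :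
    Tendsto (fun i => τ (star (y i * x i) * (y i * x i))) l (𝓝 0) := by
  have := null_star τ htr l (null_mul τ hpos l (bdd_star hx) (null_star τ htr l hy))
  simpa using this

lemma vn_isClosed {H : Type*} [NormedAddCommGroup H] [InnerProductSpace ℂ H] [CompleteSpace H]
    (M : VonNeumannAlgebra H) : IsClosed (M.toStarSubalgebra : Set (H →L[ℂ] H)) := by
  rw [VonNeumannAlgebra.coe_toStarSubalgebra, ← M.centralizer_centralizer]
  exact Set.isClosed_centralizer _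

end Pool.Agent.Lib.Tracial
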