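import Pool.Agent.Lib.Tracial.Key

namespace Pool.Agent.Lib.Tracial

open scoped ComplexOrder InnerProductSpace ComplexConjugate
open Filter Topology

variable {A : Type*} [CStarAlgebra A]

/-- Trivial centre. -/
def IsFac (A : Type*) [CStarAlgebra A] : Prop :=
  ∀ x : A, (∀ y, x * y = y * x) → ∃ c : ℂ, x = c • 1

lemma mul_star_eq_zero {y : A} (h : y * star y = 0) : y = 0 := by
  rwa [CStarRing.mul_star_self_eq_zero_iff] at h

lemma pi_mul_of_proj {v : A} (h : IsStarProjection (star v * v)) : v * (star v * v) = v := by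
  rw [← sub_eq_zero]
  apply mul_star_eq_zero
  have h1 := h.isIdempotentElem.eq
  have : v * (star v * v) - v = -(v * (1 - star v * v)) := by noncomm_ring
  rw [this, star_neg, neg_mul_neg, star_mul, h.one_sub.isSelfAdjoint.star_eq, mul_assoc,
    ← mul_assoc (1 - star v * v), h.one_sub.isIdempotentElem.eq]
  have h2 : star (v * (1 - star v * v)) * (v * (1 - star v * v)) = 0 := by
    rw [star_mul, h.one_sub.isSelfAdjoint.star_eq, mul_assoc, ← mul_assoc (star v),
      h.mul_one_sub_self, mul_zero]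
  rw [CStarRing.star_mul_self_eq_zero_iff] at h2
  rw [← mul_assoc, h2, zero_mul]

lemma proj_of_pi {v : A} (h : v * (star v * v) = v) : IsStarProjection (star v * v) :=
  ⟨by rw [IsIdempotentElem, mul_assoc, h], IsSelfAdjoint.star_mul_self v⟩

lemma proj_of_pi' {v : A} (h : v * (star v * v) = v) : IsStarProjection (v * star v) :=
  ⟨by rw [IsIdempotentElem, mul_assoc, ← mul_assoc (star v), ← mul_assoc, h],
    IsSelfAdjoint.mul_star_self v⟩

lemma norm_le_of_pi {v : A} (h : v * (star v * v) = v) : ‖v‖ ≤ 1 := by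
  have := (proj_of_pi h).norm_le
  rw [CStarRing.norm_star_mul_self] at this
  nlinarith [norm_nonneg v]

lemma brezis {X : Type*} (r : X → X → Prop) (htr : ∀ a b c, r a b → r b c → r a c)
    (hre : ∀ a, r a a) (φ : X → ℝ) (hb : ∀ a, φ a ≤ 1)
    (hub : ∀ x : ℕ → X, (∀ n, r (x n) (x (n + 1))) → ∃ y, ∀ n, r (x n) y)
    (hm : ∀ a b, r a b → φ a ≤ φ b) (a₀ : X) : ∃ a, ∀ b, r a b → φ b ≤ φ a := by
  have h : ∀ (a : X) (n : ℕ), ∃ b, r a b ∧ ∀ c, r a c → φ c ≤ φ b + 1 / ((n : ℝ) + 1) := by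
    intro a n
    have hbd : BddAbove (φ '' {c | r a c}) := ⟨1, by rintro _ ⟨c, -, rfl⟩; exact hb c⟩
    have hne : (φ '' {c | r a c}).Nonempty := ⟨_, a, hre a, rfl⟩
    obtain ⟨_, ⟨b, hb, rfl⟩, h2⟩ := exists_lt_of_lt_csSup hne
      (sub_lt_self (sSup (φ '' {c | r a c})) (Nat.one_div_pos_of_nat (α := ℝ) (n := n)))
    exact ⟨b, hb, fun c hc => by linarith [le_csSup hbd ⟨c, hc, rfl⟩]⟩
  choose f hf hf' using h
  let x : ℕ → X := fun n => Nat.rec a₀ (fun n a => f a n) n
  obtain ⟨y, hy⟩ := hub x fun n => hf _ _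
  refine ⟨y, fun b hb => ?_⟩
  refine ge_of_tendsto' (f := fun n : ℕ => φ y + 1 / ((n : ℝ) + 1)) (x := atTop) ?_ fun n => ?_
  · simpa using tendsto_one_div_add_atTop_nhds_zero_nat.const_add (φ y)
  · have := hf' (x n) n b (htr _ _ _ (hy n) hb)
    have h2 := hm _ _ (hy (n + 1))
    exact this.trans (by simpa using h2)

namespace TrState

variable (t : TrState A)

/-- real part of the trace -/
noncomputable def tr (a : A) : ℝ := (t.τ a).re

lemma tr_add (a b : A) : t.tr (a + b) = t.tr a + t.tr b := by simp [tr]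
lemma tr_sub (a b : A) : t.tr (a - b) = t.tr a - t.tr b := by simp [tr]
@[simp] lemma tr_one : t.tr 1 = 1 := by simp [tr, t.map_one]
@[simp] lemma tr_zero : t.tr 0 = 0 := by simp [tr]
lemma tr_comm (a b : A) : t.tr (a * b) = t.tr (b * a) := by rw [tr, t.trace, tr]
lemma tr_star_mul (a : A) : t.tr (star a * a) = t.n2 a ^ 2 := (t.n2_sq a).symm
lemma tr_sum {ι : Type*} (s : Finset ι) (f : ι → A) : t.tr (∑ i ∈ s, f i) = ∑ i ∈ s, t.tr (f i) := by
  simp [tr]

lemma tr_proj {p : A} (hp : IsStarProjection p) : t.tr p = t.n2 p ^ 2 := by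
  rw [← tr_star_mul, hp.isSelfAdjoint.star_eq, hp.isIdempotentElem.eq]

lemma tr_proj_nonneg {p : A} (hp : IsStarProjection p) : 0 ≤ t.tr p := by
  rw [t.tr_proj hp]; positivity

lemma tr_proj_le_one {p : A} (hp : IsStarProjection p) : t.tr p ≤ 1 := by
  have := t.tr_proj_nonneg hp.one_sub
  rw [tr_sub, tr_one] at this
  linarith

lemma τ_sa {h : A} (hh : IsSelfAdjoint h) : t.τ h = t.tr h :=
  (Complex.conj_eq_iff_re.1 (t.star_of_selfAdjoint hh)).symm

variable [t.W]

lemma proj_eq_zero {p : A} (hp : IsStarProjection p) (h : t.tr p ≤ 0) : p = 0 := by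
  rw [t.tr_proj hp] at h
  exact t.eq_zero_of_n2 (by nlinarith [t.n2_nonneg p])

lemma tr_proj_pos {p : A} (hp : IsStarProjection p) (h : p ≠ 0) : 0 < t.tr p :=
  not_le.1 fun h' => h (t.proj_eq_zero hp h')

include t in
/-- Range projection. -/
theorem exists_range (x : A) :
    ∃ e, IsStarProjection e ∧ e * x = x ∧ ∀ y, y * x = 0 → y * e = 0 := by
  let S : Submodule ℂ t.L2 := (t.π x).range.topologicalClosure
  haveI : CompleteSpace S := (Submodule.isClosed_topologicalClosure _).completeSpace_coe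
  have hP : IsStarProjection S.starProjection := isStarProjection_starProjection
  have hinv : ∀ b, S.starProjection * t.rmul b * S.starProjection =
      t.rmul b * S.starProjection := by
    intro b
    ext ξ
    simp only [ContinuousLinearMap.mul_apply]
    rw [Submodule.starProjection_eq_self_iff]
    have h1 : S.starProjection ξ ∈ closure ((t.π x).range : Set t.L2) :=
      S.starProjection_apply_mem ξ
    refine map_mem_closure (t.rmul b).continuous h1 ?_
    rintro _ ⟨η, rfl⟩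
    refine ⟨t.rmul b η, ?_⟩
    exact congrArg (fun T : t.L2 →L[ℂ] t.L2 => T η) (t.π_rmul_comm x b)
  obtain ⟨e, he⟩ := t.exists_π_eq S.starProjection fun b => by
    have := congrArg star (hinv (star b))
    rw [star_mul, star_mul, star_mul, hP.isSelfAdjoint.star_eq, rmul_star, star_star,
      ← mul_assoc, hinv] at this
    exact this
  refine ⟨e, ⟨t.π_injective ?_, t.π_injective ?_⟩, t.π_injective ?_, fun y hy => t.π_injective ?_⟩
  · rw [map_mul, he, hP.isIdempotentElem.eq]
  · rw [StarHomClass.map_star, he, hP.isSelfAdjoint.star_eq]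
  · rw [map_mul, he]
    ext ξ
    simp only [ContinuousLinearMap.mul_apply]
    rw [Submodule.starProjection_eq_self_iff]
    exact subset_closure ⟨ξ, rfl⟩
  · rw [map_mul, he, map_zero]
    ext ξ
    have h1 : S.starProjection ξ ∈ closure ((t.π x).range : Set t.L2) :=
      S.starProjection_apply_mem ξ
    have := map_mem_closure (t.π y).continuous (t := {0}) h1 (by
      rintro _ ⟨η, rfl⟩
      have := congrArg (fun T : t.L2 →L[ℂ] t.L2 => T η) (map_mul t.π y x)
      rw [hy, map_zero] at this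
      exact this.symm)
    simpa using this

lemma exists_lim {x : ℕ → A} (hb : ∀ n, ‖x n‖ ≤ 1) (φ : ℕ → ℝ) (hφ : ∀ n, φ n ≤ 1)
    (h : ∀ m n, m ≤ n → t.n2 (x n - x m) ^ 2 ≤ φ n - φ m) :
    ∃ a, ‖a‖ ≤ 1 ∧ Tendsto (fun n => t.n2 (x n - a)) atTop (𝓝 0) := by
  have hm : Monotone φ := fun m n hmn => by nlinarith [h m n hmn, sq_nonneg (t.n2 (x n - x m))]
  have hc := (tendsto_atTop_ciSup hm ⟨1, by rintro _ ⟨n, rfl⟩; exact hφ n⟩).cauchySeq
  have hc2 : CauchySeq fun n => t.Λ (x n) := by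
    rw [Metric.cauchySeq_iff'] at hc ⊢
    intro ε hε
    obtain ⟨N, hN⟩ := hc (ε ^ 2) (by positivity)
    refine ⟨N, fun n hn => ?_⟩
    rw [dist_eq_norm, ← map_sub, norm_Λ]
    have := hN n hn
    rw [Real.dist_eq] at this
    exact lt_of_pow_lt_pow_left₀ 2 hε.le ((h N n hn).trans_lt ((le_abs_self _).trans_lt this))
  obtain ⟨ξ, hξ⟩ := cauchySeq_tendsto_of_complete hc2
  obtain ⟨a, ha, rfl⟩ := t.exists_of_mem_closure (s := Set.range x) (by rintro _ ⟨n, rfl⟩; exact hb n)
    (mem_closure_of_tendsto hξ (Eventually.of_forall fun n => ⟨_, ⟨n, rfl⟩, rfl⟩))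
  refine ⟨a, ha, ?_⟩
  rw [tendsto_iff_norm_sub_tendsto_zero] at hξ
  simpa only [← map_sub, norm_Λ] using hξ

lemma eq_of_lim {ι : Type*} {l : Filter ι} [l.NeBot] {x : ι → A} {a b : A}
    (ha : Tendsto (fun n => t.n2 (x n - a)) l (𝓝 0)) (hb : Tendsto (fun n => t.n2 (x n - b)) l (𝓝 0)) :
    a = b := by
  apply t.eq_of_n2
  refine le_antisymm (ge_of_tendsto' (by simpa using ha.add hb) fun n => ?_) (t.n2_nonneg _)
  rw [t.n2_sub_comm (x n) a]
  exact t.n2_triangle _ _ _

omit [t.W] in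
lemma lim_mul {ι : Type*} {l : Filter ι} {x y : ι → A} {a b : A} (hx : ∀ n, ‖x n‖ ≤ 1)
    (ha : Tendsto (fun n => t.n2 (x n - a)) l (𝓝 0)) (hb : Tendsto (fun n => t.n2 (y n - b)) l (𝓝 0)) :
    Tendsto (fun n => t.n2 (x n * y n - a * b)) l (𝓝 0) := by
  refine squeeze_zero (fun n => t.n2_nonneg _) (fun n => ?_)
    (by simpa using hb.add (ha.mul_const ‖b‖))
  have : x n * y n - a * b = x n * (y n - b) + (x n - a) * b := by noncomm_ring
  rw [this]
  exact (t.n2_add_le _ _).trans (add_le_add (t.n2_mul_le_of_le (hx n) _) (t.n2_mul_le' _ _))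

omit [t.W] in
lemma lim_star {ι : Type*} {l : Filter ι} {x : ι → A} {a : A}
    (ha : Tendsto (fun n => t.n2 (x n - a)) l (𝓝 0)) :
    Tendsto (fun n => t.n2 (star (x n) - star a)) l (𝓝 0) := by
  simpa only [← star_sub, n2_star] using ha

omit [t.W] in
lemma lim_mul_const {ι : Type*} {l : Filter ι} {x : ι → A} {a : A} (b c : A)
    (ha : Tendsto (fun n => t.n2 (x n - a)) l (𝓝 0)) :
    Tendsto (fun n => t.n2 (b * x n * c - b * a * c)) l (𝓝 0) := by
  refine squeeze_zero (fun n => t.n2_nonneg _) (fun n => ?_)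
    (by simpa using (ha.const_mul ‖b‖).mul_const ‖c‖)
  rw [← sub_mul, ← mul_sub]
  exact (t.n2_mul_le' _ _).trans (mul_le_mul_of_nonneg_right (t.n2_mul_le _ _) (norm_nonneg _))

omit [t.W] in
lemma lim_tr {ι : Type*} {l : Filter ι} {x : ι → A} {a : A}
    (ha : Tendsto (fun n => t.n2 (x n - a)) l (𝓝 0)) : Tendsto (fun n => t.tr (x n)) l (𝓝 (t.tr a)) := by
  rw [tendsto_iff_norm_sub_tendsto_zero]
  refine squeeze_zero (fun n => norm_nonneg _) (fun n => ?_) ha
  rw [← tr_sub]
  exact (Complex.abs_re_le_norm _).trans (t.norm_τ_le_n2 _)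

/-- Exhaustion. -/
theorem exists_maximal (K : Set A) (hK : ∀ v ∈ K, v * (star v * v) = v)
    (hcl : ∀ (x : ℕ → A) (a : A), (∀ n, x n ∈ K) → Tendsto (fun n => t.n2 (x n - a)) atTop (𝓝 0) →
      a * (star a * a) = a → a ∈ K) (h0 : (0 : A) ∈ K) :
    ∃ v ∈ K, ∀ w, v + w ∈ K → star v * w = 0 → w * star v = 0 → w = 0 := by
  have key : ∀ v w : K, star v.1 * w.1 = star v.1 * v.1 →
      t.n2 (w.1 - v.1) ^ 2 = t.n2 w.1 ^ 2 - t.n2 v.1 ^ 2 := by
    intro v w h
    have h' : star w.1 * v.1 = star v.1 * v.1 := by simpa using congrArg star h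
    rw [← tr_star_mul, ← tr_star_mul, ← tr_star_mul, star_sub, sub_mul, mul_sub, mul_sub, h, h',
      sub_self, sub_zero, tr_sub]
  have htr : ∀ u v w : K, (star u.1 * v.1 = star u.1 * u.1 ∧ v.1 * star u.1 = u.1 * star u.1) →
      (star v.1 * w.1 = star v.1 * v.1 ∧ w.1 * star v.1 = v.1 * star v.1) →
      (star u.1 * w.1 = star u.1 * u.1 ∧ w.1 * star u.1 = u.1 * star u.1) := by
    rintro ⟨u, hu⟩ ⟨v, hv⟩ ⟨w, hw⟩ ⟨h1, h2⟩ ⟨h3, h4⟩
    dsimp only at *
    have e0 : star u * u * star u = star u := by simpa using congrArg star (hK u hu)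
    have h1' : star v * u = star u * u := by simpa using congrArg star h1
    have h2' : u * star v = u * star u := by simpa using congrArg star h2
    have e1 : star u * u * star v = star u := by rw [mul_assoc, h2', ← mul_assoc, e0]
    have e2 : star v * (u * star u) = star u := by rw [← mul_assoc, h1', e0]
    constructor
    · rw [← h1]; nth_rw 1 [← e1]; rw [mul_assoc, h3, ← mul_assoc, e1]
    · rw [← h2]; nth_rw 1 [← e2]; rw [← mul_assoc, h4, mul_assoc, e2]
  obtain ⟨v, hv⟩ := brezis (X := K)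
    (fun v w => star v.1 * w.1 = star v.1 * v.1 ∧ w.1 * star v.1 = v.1 * star v.1) htr
    (fun _ => ⟨rfl, rfl⟩) (fun v => t.n2 v.1 ^ 2)
    (fun v => pow_le_one₀ (t.n2_nonneg _) ((t.n2_le_norm _).trans (norm_le_of_pi (hK _ v.2))))
    (fun x hx => by
      have hmn : ∀ m n, m ≤ n → (star (x m).1 * (x n).1 = star (x m).1 * (x m).1 ∧
          (x n).1 * star (x m).1 = (x m).1 * star (x m).1) := by
        intro m n h
        induction n, h using Nat.le_induction with
        | base => exact ⟨rfl, rfl⟩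
        | succ n _ ih => exact htr _ _ _ ih (hx n)
      have hb : ∀ n, ‖(x n).1‖ ≤ 1 := fun n => norm_le_of_pi (hK _ (x n).2)
      obtain ⟨a, -, ha⟩ := t.exists_lim (x := fun n => (x n).1) hb (fun n => t.n2 (x n).1 ^ 2)
        (fun n => pow_le_one₀ (t.n2_nonneg _) ((t.n2_le_norm _).trans (hb n)))
        (fun m n h => (key _ _ (hmn m n h).1).le)
      have hpi : a * (star a * a) = a := by
        have := t.lim_mul hb ha (t.lim_mul (fun n => by simpa using hb n) (t.lim_star ha) ha)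
        simp only [hK _ (x _).2] at this
        exact t.eq_of_lim this ha
      refine ⟨⟨a, hcl _ a (fun n => (x n).2) ha hpi⟩, fun m => ⟨?_, ?_⟩⟩
      · have := t.lim_mul_const (star (x m).1) 1 ha
        simp only [mul_one] at this
        refine t.eq_of_lim this (tendsto_const_nhds.congr' ?_)
        filter_upwards [eventually_ge_atTop m] with n hn
        rw [(hmn m n hn).1, sub_self, n2_zero]
      · have := t.lim_mul_const 1 (star (x m).1) ha
        simp only [one_mul] at this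
        refine t.eq_of_lim this (tendsto_const_nhds.congr' ?_)
        filter_upwards [eventually_ge_atTop m] with n hn
        rw [(hmn m n hn).2, sub_self, n2_zero])
    (fun v w h => by nlinarith [key v w h.1, sq_nonneg (t.n2 (w.1 - v.1))]) ⟨0, h0⟩
  refine ⟨v.1, v.2, fun w hw h1 h2 => ?_⟩
  have h3 : star v.1 * (v.1 + w) = star v.1 * v.1 := by rw [mul_add, h1, add_zero]
  have h4 := hv ⟨_, hw⟩ ⟨h3, by rw [add_mul, h2, add_zero]⟩
  have h5 := key v ⟨_, hw⟩ h3
  simp only [add_sub_cancel_left] at h4 h5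
  exact t.eq_zero_of_n2 (by nlinarith [t.n2_nonneg w])

end TrState

end Pool.Agent.Lib.Tracial
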