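import Pool.Agent.Lib.Tracial.Avg

namespace Pool.Agent.Lib.Tracial

open scoped ComplexOrder InnerProductSpace ComplexConjugate
open Filter Topology Finset

universe u v

variable {A : Type*} [CStarAlgebra A] (t : TrState A) {ι : Type*} (U : Ultrafilter ι)

/-- A uniform form of factoriality of the relative commutant. -/
def PropP (n : ℕ) (ε : ℝ) : Prop :=
  ∀ x : Fin n → A, (∀ i, ‖x i‖ ≤ 1) → ∃ y : Fin 7 → A, (∀ j, ‖y j‖ ≤ 1) ∧ ∀ z, ‖z‖ ≤ 1 →
    ∃ w, ‖w‖ ≤ 1 ∧ (∀ i, t.cm (x i) w ≤ ε) ∧ t.dev z ≤ t.cm w z + 411 * ∑ j, t.cm (y j) z + ε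

/-- A uniform form of infinite dimensionality of the relative commutant. -/
def PropQ (n d : ℕ) (ε : ℝ) : Prop :=
  ∀ x : Fin n → A, (∀ i, ‖x i‖ ≤ 1) → ∃ w : Fin (d + 1) → A, (∀ a, ‖w a‖ ≤ 1) ∧
    (∀ i a, t.cm (x i) (w a) ≤ ε) ∧
      ∀ a b, ‖t.τ (star (w a) * w b) - if a = b then 1 / ((d : ℂ) + 1) else 0‖ ≤ ε

lemma norm_diag_le {a : A} (ha : ‖a‖ ≤ 1) : ‖diagHom t U a‖ ≤ 1 :=
  (NonUnitalStarAlgHom.norm_apply_le _ a).trans ha

lemma tendsto_cm_diag (a : A) (y : BB ι A) : Tendsto (fun i : ι => t.cm a (y i)) U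
    (𝓝 ((upTr t U).cm (diagHom t U a) (mkU t U y))) :=
  tendsto_cm t U (BoundedContinuousFunction.const _ a) y

lemma tendsto_τ_mul (x y : BB ι A) : Tendsto (fun i : ι => t.τ (star (x i) * y i)) U
    (𝓝 ((upTr t U).τ (star (mkU t U x) * mkU t U y))) := by
  have := tendsto_τ t U (star x * y)
  rwa [map_mul, map_star] at this

lemma tendsto_rhs (w z : BB ι A) (y : Fin 7 → BB ι A) (ε : ℝ) :
    Tendsto (fun i : ι => t.cm (w i) (z i) + 411 * ∑ j, t.cm (y j i) (z i) + ε) U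
      (𝓝 ((upTr t U).cm (mkU t U w) (mkU t U z) +
        411 * ∑ j, (upTr t U).cm (mkU t U (y j)) (mkU t U z) + ε)) :=
  ((tendsto_cm t U w z).add
    ((tendsto_finset_sum _ fun j _ => tendsto_cm t U (y j) z).const_mul _)).add_const _

variable {t} in
lemma PropP.up {n : ℕ} {ε : ℝ} (h : PropP t n ε) : PropP (upTr t U) n ε := by
  intro x hx
  choose X hX hX' using fun i => exists_ball t U (x i) (hx i)
  choose y hy hy' using fun k => h (fun i => X i k) fun i => hX' i k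
  refine ⟨fun j => mkU t U (BB.mk (fun k => y k j) 1 fun k => hy k j),
    fun j => norm_mkU_le_one t U fun k => hy k j, fun z hz => ?_⟩
  obtain ⟨Z, rfl, hZ⟩ := exists_ball t U z hz
  choose w hw h1 h2 using fun k => hy' k (Z k) (hZ k)
  refine ⟨mkU t U (BB.mk w 1 hw), norm_mkU_le_one t U hw, fun i => ?_, ?_⟩
  · rw [← hX]
    exact le_of_tendsto' (tendsto_cm t U _ _) fun k => h1 k i
  · exact le_of_tendsto_of_tendsto' (tendsto_dev t U Z) (tendsto_rhs t U _ _ _ _) h2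

lemma down_aux {n : ℕ} {ε ε' : ℝ} (hε : ε < ε') (x : Fin n → A) (y : Fin 7 → Ultrapower t U)
    (hy : ∀ j, ‖y j‖ ≤ 1) (h : ∀ z, ‖z‖ ≤ 1 → ∃ w, ‖w‖ ≤ 1 ∧
      (∀ i, (upTr t U).cm (diagHom t U (x i)) w ≤ ε) ∧
      (upTr t U).dev z ≤ (upTr t U).cm w z + 411 * ∑ j, (upTr t U).cm (y j) z + ε) :
    ∃ y : Fin 7 → A, (∀ j, ‖y j‖ ≤ 1) ∧ ∀ z, ‖z‖ ≤ 1 → ∃ w, ‖w‖ ≤ 1 ∧ (∀ i, t.cm (x i) w ≤ ε') ∧
      t.dev z ≤ t.cm w z + 411 * ∑ j, t.cm (y j) z + ε' := by
  by_contra hne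
  choose Y hY hY' using fun j => exists_ball t U (y j) (hy j)
  simp only [not_exists, not_and, not_forall, exists_prop] at hne
  choose z hz hz' using fun k => hne (fun j => Y j k) fun j => hY' j k
  obtain ⟨w, hw, h1, h2⟩ := h (mkU t U (BB.mk z 1 hz)) (norm_mkU_le_one t U hz)
  obtain ⟨W, rfl, hW⟩ := exists_ball t U w hw
  have e1 : ∀ᶠ k in (U : Filter ι), ∀ i, t.cm (x i) (W k) ≤ ε' := eventually_all.2 fun i =>
    (tendsto_cm_diag t U (x i) W).eventually (ge_mem_nhds ((h1 i).trans_lt hε))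
  have e2 := (tendsto_dev t U (BB.mk z 1 hz)).eventually_lt (tendsto_rhs t U W _ Y ε')
    (h2.trans_lt (by simp only [hY]; linarith))
  obtain ⟨k, e1, e2⟩ := (e1.and e2).exists
  exact hz' k (W k) (hW k) e1 e2.le

variable {t U} in
lemma PropP.down {n : ℕ} {ε ε' : ℝ} (hε : ε < ε') (h : PropP (upTr t U) n ε) : PropP t n ε' := by
  intro x hx
  obtain ⟨y, hy, h⟩ := h (fun i => diagHom t U (x i)) fun i => norm_diag_le t U (hx i)
  exact down_aux t U hε x y hy h

variable {t} in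
lemma PropQ.up {n d : ℕ} {ε : ℝ} (h : PropQ t n d ε) : PropQ (upTr t U) n d ε := by
  intro x hx
  choose X hX hX' using fun i => exists_ball t U (x i) (hx i)
  choose w hw h1 h2 using fun k => h (fun i => X i k) fun i => hX' i k
  refine ⟨fun a => mkU t U (BB.mk (fun k => w k a) 1 fun k => hw k a),
    fun a => norm_mkU_le_one t U fun k => hw k a, fun i a => ?_, fun a b => ?_⟩
  · rw [← hX]
    exact le_of_tendsto' (tendsto_cm t U _ _) fun k => h1 k i a
  · exact le_of_tendsto' ((tendsto_τ_mul t U _ _).sub_const _).norm fun k => h2 k a b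

lemma down_auxQ {n d : ℕ} {ε ε' : ℝ} (hε : ε < ε') (x : Fin n → A)
    (w : Fin (d + 1) → Ultrapower t U) (hw : ∀ a, ‖w a‖ ≤ 1)
    (h1 : ∀ i a, (upTr t U).cm (diagHom t U (x i)) (w a) ≤ ε)
    (h2 : ∀ a b, ‖(upTr t U).τ (star (w a) * w b) - if a = b then 1 / ((d : ℂ) + 1) else 0‖ ≤ ε) :
    ∃ w : Fin (d + 1) → A, (∀ a, ‖w a‖ ≤ 1) ∧ (∀ i a, t.cm (x i) (w a) ≤ ε') ∧
      ∀ a b, ‖t.τ (star (w a) * w b) - if a = b then 1 / ((d : ℂ) + 1) else 0‖ ≤ ε' := by
  choose W hW hW' using fun a => exists_ball t U (w a) (hw a)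
  simp only [← hW] at h1 h2
  have e1 : ∀ᶠ k in (U : Filter ι), ∀ i a, t.cm (x i) (W a k) ≤ ε' :=
    eventually_all.2 fun i => eventually_all.2 fun a =>
      (tendsto_cm_diag t U (x i) (W a)).eventually (ge_mem_nhds ((h1 i a).trans_lt hε))
  have e2 : ∀ᶠ k in (U : Filter ι), ∀ a b,
      ‖t.τ (star (W a k) * W b k) - if a = b then 1 / ((d : ℂ) + 1) else 0‖ ≤ ε' :=
    eventually_all.2 fun a => eventually_all.2 fun b =>
      ((tendsto_τ_mul t U _ _).sub_const _).norm.eventually (ge_mem_nhds ((h2 a b).trans_lt hε))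
  obtain ⟨k, e1, e2⟩ := (e1.and e2).exists
  exact ⟨fun a => W a k, fun a => hW' a k, e1, e2⟩

variable {t U} in
lemma PropQ.down {n d : ℕ} {ε ε' : ℝ} (hε : ε < ε') (h : PropQ (upTr t U) n d ε) :
    PropQ t n d ε' := by
  intro x hx
  obtain ⟨w, hw, h1, h2⟩ := h (fun i => diagHom t U (x i)) fun i => norm_diag_le t U (hx i)
  exact down_auxQ t U hε x w hw h1 h2

section iso

variable {B : Type*} [CStarAlgebra B] {t} {s : TrState B}

lemma cm_map (φ : A →⋆ₐ[ℂ] B) (h : ∀ a, s.τ (φ a) = t.τ a) (a b : A) :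
    s.cm (φ a) (φ b) = t.cm a b := by
  rw [TrState.cm, ← map_mul, ← map_mul, ← map_sub, s.n2_map φ h, TrState.cm]

lemma dev_map (φ : A →⋆ₐ[ℂ] B) (h : ∀ a, s.τ (φ a) = t.τ a) (a : A) : s.dev (φ a) = t.dev a := by
  rw [TrState.dev, h, ← map_one φ, ← map_smul, ← map_sub, s.n2_map φ h, TrState.dev]

variable (e : A ≃⋆ₐ[ℂ] B) (he : ∀ a, s.τ (e a) = t.τ a)
include he

lemma PropP.iso {n : ℕ} {ε : ℝ} (h : PropP t n ε) : PropP s n ε := by
  intro x hx
  have hc := cm_map (e : A →⋆ₐ[ℂ] B) he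
  have hd := dev_map (e : A →⋆ₐ[ℂ] B) he
  simp only [StarAlgHom.coe_coe] at hc hd
  obtain ⟨x, rfl⟩ : ∃ x' : Fin n → A, x = fun i => e (x' i) := ⟨fun i => e.symm (x i), by simp⟩
  obtain ⟨y, hy, h⟩ := h x fun i => by simpa [StarAlgEquiv.norm_map] using hx i
  refine ⟨fun j => e (y j), fun j => by simpa [StarAlgEquiv.norm_map] using hy j, fun z hz => ?_⟩
  obtain ⟨z, rfl⟩ := EquivLike.surjective e z
  obtain ⟨w, hw, h⟩ := h z (by simpa [StarAlgEquiv.norm_map] using hz)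
  exact ⟨e w, by simpa [StarAlgEquiv.norm_map] using hw, by simpa only [hc, hd] using h⟩

lemma PropQ.iso {n d : ℕ} {ε : ℝ} (h : PropQ t n d ε) : PropQ s n d ε := by
  intro x hx
  have hc := cm_map (e : A →⋆ₐ[ℂ] B) he
  simp only [StarAlgHom.coe_coe] at hc
  obtain ⟨x, rfl⟩ : ∃ x' : Fin n → A, x = fun i => e (x' i) := ⟨fun i => e.symm (x i), by simp⟩
  obtain ⟨w, hw, h⟩ := h x fun i => by simpa [StarAlgEquiv.norm_map] using hx i
  exact ⟨fun j => e (w j), fun j => by simpa [StarAlgEquiv.norm_map] using hw j, by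
    simpa only [hc, ← map_star, ← map_mul, he] using h⟩

end iso

lemma dev_cent (s : Set A) (z : StarSubalgebra.centralizer ℂ s) : (t.cent s).dev z = t.dev z.1 :=
  (dev_map (StarSubalgebra.subtype _) (fun _ => rfl) z).symm

lemma cm_cent (s : Set A) (z w : StarSubalgebra.centralizer ℂ s) :
    (t.cent s).cm z w = t.cm z.1 w.1 :=
  (cm_map (StarSubalgebra.subtype _) (fun _ => rfl) z w).symm

lemma mem_cent_iff {z : Ultrapower t U} :
    z ∈ StarSubalgebra.centralizer ℂ (Set.range (Ultrapower.diag t U)) ↔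
      ∀ x, diagHom t U x * z = z * diagHom t U x := by
  rw [StarSubalgebra.mem_centralizer_iff]
  refine ⟨fun h x => (h _ ⟨x, rfl⟩).1, ?_⟩
  rintro h _ ⟨x, rfl⟩
  exact ⟨h x, h (star x)⟩

lemma exists_gen (ht : t.Separable) : ∃ v : ℕ → A, (∀ k, v k ∈ unitary A) ∧
    ∀ z : Ultrapower t U, ‖z‖ ≤ 1 → (∀ k, (upTr t U).cm (diagHom t U (v k)) z ≤ 0) →
      z ∈ StarSubalgebra.centralizer ℂ (Set.range (Ultrapower.diag t U)) := by
  obtain ⟨s, hs, h⟩ := ht
  choose u c hu _ using fun a : A => CStarAlgebra.exists_sum_four_unitary a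
  obtain ⟨a₀, ha₀, -⟩ := h 0 1 one_pos
  haveI := hs.to_subtype
  haveI : Nonempty s := ⟨⟨a₀, ha₀⟩⟩
  obtain ⟨f, hf⟩ := exists_surjective_nat (s × Fin 4)
  have h0 : ∀ z : Ultrapower t U, (upTr t U).n2 z ≤ 0 → z = 0 := fun z hz =>
    upTr_faithful t U z (by
      rw [← TrState.n2_sq', hz.antisymm (TrState.n2_nonneg _ _)]; simp)
  refine ⟨fun k => u (f k).1 (f k).2, fun k => (u _ _).2, fun z hz h1 => ?_⟩
  rw [mem_cent_iff]
  intro x
  refine sub_eq_zero.1 (h0 _ (le_of_forall_pos_le_add fun ε hε => ?_))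
  obtain ⟨a, ha, h2⟩ := h x ((ε / 2) ^ 2) (by positivity)
  rw [t.norm_τ_star_mul] at h2
  have h3 := lt_of_pow_lt_pow_left₀ 2 (by positivity) h2
  have h4 : z * diagHom t U a = diagHom t U a * z := by
    rw [hu a, map_sum, mul_sum, sum_mul]
    refine sum_congr rfl fun i _ => ?_
    obtain ⟨k, hk⟩ := hf (⟨a, ha⟩, i)
    have := sub_eq_zero.1 (h0 _ (h1 k))
    simp only [hk] at this
    rw [map_smul, mul_smul_comm, smul_mul_assoc, this]
  have h5 := (upTr t U).cm_le_add hz (diagHom t U x) (diagHom t U a)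
  rw [← map_sub, n2_diag, TrState.cm_comm, TrState.cm, TrState.cm, h4, sub_self,
    TrState.n2_zero] at h5
  linarith

variable (V : Ultrafilter ℕ) (hV : ∀ n, V ≠ pure n)

include hV in
lemma le_atTop : (V : Filter ℕ) ≤ atTop := by
  rw [← Nat.cofinite_eq_atTop]
  exact V.le_cofinite_or_eq_pure.resolve_right fun ⟨a, ha⟩ => hV a ha

include hV in
lemma le_zero_of_ev {f : ℕ → ℝ} {c : ℝ} (hf : Tendsto f V (𝓝 c))
    (h : ∀ m : ℕ, ∀ᶠ k in (V : Filter ℕ), f k ≤ 1 / ((m : ℝ) + 1)) : c ≤ 0 :=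
  ge_of_tendsto' tendsto_one_div_add_atTop_nhds_zero_nat fun m => le_of_tendsto hf (h m)

include hV in
lemma cm_gen_le {v : ℕ → A} {w : ℕ → A} (hw : ∀ k, ‖w k‖ ≤ 1) {f : ℕ → ℕ} (hf : Tendsto f V atTop)
    (h : ∀ k, ∀ i < f k, t.cm (v i) (w k) ≤ 1 / ((f k : ℝ) + 1)) (i : ℕ) :
    (upTr t V).cm (diagHom t V (v i)) (mkU t V (BB.mk w 1 hw)) ≤ 0 := by
  refine le_zero_of_ev V hV (tendsto_cm_diag t V _ _) fun m => ?_
  filter_upwards [hf.eventually_gt_atTop i, hf.eventually_ge_atTop m] with k h1 h2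
  exact (h k i h1).trans (Nat.one_div_le_one_div h2)

variable [t.W]

include hV in
lemma compact_step (ht : t.Separable)
    (hf : IsFac (StarSubalgebra.centralizer ℂ (Set.range (Ultrapower.diag t V)))) {n : ℕ}
    (x : Fin n → A) {ε : ℝ} (hε : 0 < ε) : ∃ S, IsAvg S ∧ ∀ z, ‖z‖ ≤ 1 → ∃ w, ‖w‖ ≤ 1 ∧
      (∀ i, t.cm (x i) w ≤ ε) ∧ t.dev z ≤ t.cm w z + 3 * t.n2 (z - S z) + ε := by
  obtain ⟨v, hv, hv'⟩ := exists_gen t V ht
  have h : ∃ m : ℕ, ∀ z, ‖z‖ ≤ 1 → (∀ i < m, t.cm (v i) z ≤ 1 / ((m : ℝ) + 1)) →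
      ∃ w, ‖w‖ ≤ 1 ∧ (∀ i, t.cm (x i) w ≤ ε) ∧ t.dev z ≤ t.cm w z + ε := by
    by_contra hne
    simp only [not_exists, not_and, not_forall, exists_prop] at hne
    choose z hz h1 h2 using hne
    have hz' := norm_mkU_le_one t V (x := BB.mk z 1 hz) hz
    have h3 := hv' _ hz' (cm_gen_le t V hV hz (le_atTop V hV) h1)
    obtain ⟨u, hu, h4⟩ := ((upTr t V).cent _).factor_ineq hf (x := ⟨_, h3⟩) hz' (half_pos hε)
    obtain ⟨W, hW, hW'⟩ := exists_ball t V u.1 (norm_unitary_le (u := u) hu)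
    have h5 : (upTr t V).dev (mkU t V (BB.mk z 1 hz)) ≤
        (upTr t V).cm (mkU t V W) (mkU t V (BB.mk z 1 hz)) + ε / 2 := by
      rw [hW]
      exact (dev_cent _ _ ⟨_, h3⟩).symm.trans_le (h4.trans_eq (congrArg (· + ε / 2) (cm_cent _ _ _ _)))
    have e1 : ∀ᶠ k in (V : Filter ℕ), ∀ i, t.cm (x i) (W k) ≤ ε := eventually_all.2 fun i =>
      (tendsto_cm_diag t V (x i) W).eventually (ge_mem_nhds (by
        rw [hW, TrState.cm, (mem_cent_iff t V).1 u.2, sub_self, TrState.n2_zero]; exact hε))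
    have e2 := (tendsto_dev t V (BB.mk z 1 hz)).eventually_lt
      ((tendsto_cm t V W (BB.mk z 1 hz)).add_const ε) (h5.trans_lt (by linarith))
    obtain ⟨k, e1, e2⟩ := (e1.and e2).exists
    exact h2 k (W k) (hW' k) e1 e2.le
  obtain ⟨m, hm⟩ := h
  obtain ⟨S, hS, hS'⟩ := t.exists_isAvg (D := Fin (m + 1)) (u := fun i => v i) (fun i => hv i)
    (Nat.one_div_pos_of_nat (n := m))
  refine ⟨S, hS, fun z hz => ?_⟩
  obtain ⟨w, hw, h1, h2⟩ := hm (S z) ((hS.norm_le z).trans hz) fun i hi =>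
    hS' z hz ⟨i, by omega⟩
  refine ⟨w, hw, h1, ?_⟩
  have h3 := t.cm_le_add hw (S z) z
  have h4 : t.τ (S z) = t.τ z := by
    obtain ⟨D, _, _, u, hu, rfl⟩ := hS
    exact t.τ_avg hu z
  have h5 := t.n2_triangle z (S z) (t.τ z • 1)
  rw [TrState.dev, h4] at h2
  rw [t.n2_sub_comm] at h3
  rw [TrState.dev]
  linarith

include hV in
theorem propP_of_super (ht : t.Separable)
    (hf : IsInfFactor (StarSubalgebra.centralizer ℂ (Set.range (Ultrapower.diag t V)))) (n : ℕ)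
    {ε : ℝ} (hε : 0 < ε) : PropP t n ε := by
  intro x _
  obtain ⟨S, hS, h⟩ := compact_step t V hV ht hf.1 x (half_pos hε)
  obtain ⟨d, _, u, hu, rfl⟩ := hS.pl
  obtain ⟨φ⟩ := ((upTr t V).cent _).exists_matrix hf (Pl d)
  obtain ⟨y, hy, hy'⟩ := exists_test (upTr t V) ((StarSubalgebra.subtype _).comp φ)
    (fun k => diagHom t V (u k)) (fun k => map_unitary _ (hu k))
    fun k M => ((mem_cent_iff t V).1 (φ M).2 _).symm
  refine down_aux t V (half_lt_self hε) x y hy fun z hz => ?_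
  obtain ⟨Z, rfl, hZ⟩ := exists_ball t V z hz
  choose w hw h1 h2 using fun k => h (Z k) (hZ k)
  refine ⟨mkU t V (BB.mk w 1 hw), norm_mkU_le_one t V hw,
    fun i => le_of_tendsto' (tendsto_cm_diag t V _ _) fun k => h1 k i, ?_⟩
  have h3 := tendsto_n2 t V (Z - avg (fun k => BoundedContinuousFunction.const _ (u k)) Z)
  rw [map_sub, map_avg] at h3
  have h4 := le_of_tendsto_of_tendsto' (tendsto_dev t V Z)
    (((tendsto_cm t V (BB.mk w 1 hw) Z).add (h3.const_mul 3)).add_const (ε / 2)) fun k => by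
      refine (h2 k).trans_eq ?_
      simp [avg_apply]
  have h5 := hy' (mkU t V Z)
  simp only [diagHom_apply] at h5
  linarith

theorem propQ_of_super
    (hf : IsInfFactor (StarSubalgebra.centralizer ℂ (Set.range (Ultrapower.diag t V)))) (n d : ℕ)
    {ε : ℝ} (hε : 0 < ε) : PropQ t n d ε := by
  intro x _
  obtain ⟨p, v, hp, hpt, hv, -⟩ := ((upTr t V).cent _).exists_units hf (Fin (d + 1))
  refine down_auxQ t V hε x (fun a => (v a).1) (fun a => ?_) (fun i a => ?_) fun a b => ?_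
  · refine norm_le_of_pi (v := v a) (pi_mul_of_proj ?_)
    rw [hv, if_pos rfl]; exact hp
  · rw [TrState.cm, (mem_cent_iff t V).1 (v a).2, sub_self, TrState.n2_zero]
  · change ‖((upTr t V).cent _).τ (star (v a) * v b) - _‖ ≤ 0
    rw [hv]
    split_ifs
    · rw [TrState.τ_sa _ hp.isSelfAdjoint, hpt]; simp
    · simp

include hV in
theorem super_of_PQ (ht : t.Separable) (hP : ∀ n, ∀ ε > 0, PropP t n ε)
    (hQ : ∀ n d, ∀ ε > 0, PropQ t n d ε) :
    IsInfFactor (StarSubalgebra.centralizer ℂ (Set.range (Ultrapower.diag t V))) := by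
  obtain ⟨v, hv, hv'⟩ := exists_gen t V ht
  refine ⟨isFac_of_ball ((upTr t V).cent _) fun z hz hc => ?_, fun hfin => ?_⟩
  · obtain ⟨Z, hZ, hZ'⟩ := exists_ball t V z.1 hz
    choose y hy hy' using fun n => hP n _ (Nat.one_div_pos_of_nat (n := n)) (fun i => v i)
      fun i => norm_unitary_le (hv i)
    choose w hw h1 h2 using fun n k => hy' n (Z k) (hZ' k)
    let f : ℕ → ℕ := fun k => Nat.findGreatest
      (fun n => 411 * ∑ j, t.cm (y n j) (Z k) ≤ 1 / ((n : ℝ) + 1)) k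
    have hev : ∀ n, ∀ᶠ k in (V : Filter ℕ), n ≤ k ∧
        411 * ∑ j, t.cm (y n j) (Z k) ≤ 1 / ((n : ℝ) + 1) := fun n => by
      refine ((eventually_ge_atTop n).filter_mono (le_atTop V hV)).and ?_
      have := (tendsto_finset_sum univ fun j _ => tendsto_cm_diag t V (y n j) Z).const_mul 411
      refine this.eventually (ge_mem_nhds ?_)
      simp only [hZ, TrState.cm, (mem_cent_iff t V).1 z.2, sub_self, TrState.n2_zero, sum_const_zero,
        mul_zero]
      exact Nat.one_div_pos_of_nat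
    have hf : Tendsto f V atTop := tendsto_atTop.2 fun n =>
      (hev n).mono fun k hk => Nat.le_findGreatest hk.1 hk.2
    have hw' := norm_mkU_le_one t V (x := BB.mk (fun k => w (f k) k) 1 fun k => hw _ k)
      fun k => hw _ k
    have h3 := hv' _ hw' (cm_gen_le t V hV _ hf fun k i hi => h1 (f k) k ⟨i, hi⟩)
    have h4 := tendsto_cm t V (BB.mk (fun k => w (f k) k) 1 fun k => hw _ k) Z
    have h5 := congrArg Subtype.val (hc ⟨_, h3⟩)
    simp only [MulMemClass.coe_mul] at h5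
    rw [hZ, TrState.cm, h5, sub_self, TrState.n2_zero] at h4
    have h6 := ((tendsto_dev t V Z).sub h4).div_const 2
    have h7 := le_zero_of_ev V hV h6 fun m => by
      filter_upwards [hev m] with k hk
      have a1 := h2 (f k) k
      have a2 : 411 * ∑ j, t.cm (y (f k) j) (Z k) ≤ 1 / ((f k : ℝ) + 1) :=
        Nat.findGreatest_spec (P := fun n => 411 * ∑ j, t.cm (y n j) (Z k) ≤ 1 / ((n : ℝ) + 1))
          hk.1 hk.2
      have a3 : 1 / ((f k : ℝ) + 1) ≤ 1 / ((m : ℝ) + 1) :=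
        Nat.one_div_le_one_div (Nat.le_findGreatest hk.1 hk.2)
      rw [BB.mk_apply]
      linarith
    rw [hZ] at h7
    rw [dev_cent]
    linarith
  · set d := Module.finrank ℂ (StarSubalgebra.centralizer ℂ (Set.range (Ultrapower.diag t V)))
    choose w hw h1 h2 using fun n => hQ n d _ (Nat.one_div_pos_of_nat (n := n)) (fun i => v i)
      fun i => norm_unitary_le (hv i)
    let W : Fin (d + 1) → StarSubalgebra.centralizer ℂ (Set.range (Ultrapower.diag t V)) := fun a =>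
      ⟨mkU t V (BB.mk (fun k => w k a) 1 fun k => hw k a), hv' _ (norm_mkU_le_one t V fun k => hw k a)
        (cm_gen_le t V hV _ (le_atTop V hV) fun k i hi => h1 k ⟨i, hi⟩ a)⟩
    have h3 : ∀ a b, ⟪((upTr t V).cent _).Λ (W a), ((upTr t V).cent _).Λ (W b)⟫_ℂ =
        if a = b then 1 / ((d : ℂ) + 1) else 0 := fun a b => by
      rw [TrState.inner_Λ, ← sub_eq_zero, ← norm_le_zero_iff]
      refine le_zero_of_ev V hV ((tendsto_τ_mul t V _ _).sub_const _).norm fun m => ?_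
      filter_upwards [(le_atTop V hV) (eventually_ge_atTop m)] with k hk
      exact (h2 k a b).trans (Nat.one_div_le_one_div hk)
    have h4 : LinearIndependent ℂ W := by
      refine LinearIndependent.of_comp ((upTr t V).cent _).Λ
        (linearIndependent_of_ne_zero_of_inner_eq_zero (fun a h => ?_) fun a b h => ?_)
      · have := h3 a a
        rw [show ((upTr t V).cent _).Λ (W a) = 0 from h, inner_zero_left, if_pos rfl] at this
        exact one_div_ne_zero (Nat.cast_add_one_ne_zero d) this.symm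
      · exact (h3 a b).trans (if_neg h)
    have := h4.fintype_card_le_finrank
    rw [Fintype.card_fin] at this
    omega

lemma τ_equiv (hA : IsInfFactor A) {B : Type*} [CStarAlgebra B] (s : TrState B) (e : A ≃⋆ₐ[ℂ] B)
    (a : A) : s.τ (e a) = t.τ a :=
  t.τ_unique hA (s.comap (e : A →⋆ₐ[ℂ] B)) a

omit [t.W] in
/-- Transfer of the uniform properties along an isomorphism of ultrapowers. -/
theorem super_transfer {A B : Type u} [CStarAlgebra A] [CStarAlgebra B] (t : TrState A)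
    (s : TrState B) [t.W] [s.W] (hA : IsInfFactor A) (ht : t.Separable) (hs : s.Separable)
    (U : Ultrafilter ℕ) (hU : ∀ n, U ≠ pure n) (he : ElemEquiv.{u, v} t s) (h : SuperMcDuff t U) :
    SuperMcDuff s U := by
  obtain ⟨I, J, U₁, U₂, ⟨e⟩⟩ := he
  have h1 := (commutantIsII1_iff (upTr t U) _).1 h
  have hτ := τ_equiv (upTr t U₁) (isInfFactor_up t U₁ hA) (upTr s U₂) e
  refine (commutantIsII1_iff (upTr s U) _).2 (super_of_PQ s U hU hs (fun n ε hε => ?_)
    fun n d ε hε => ?_)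
  · exact (((propP_of_super t U hU ht h1 n (half_pos hε)).up U₁).iso e hτ).down (half_lt_self hε)
  · exact (((propQ_of_super t U h1 n d (half_pos hε)).up U₁).iso e hτ).down (half_lt_self hε)

end Pool.Agent.Lib.Tracial
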