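import Pool.Agent.Lib.Tracial.Mat

namespace Pool.Agent.Lib.Tracial

open scoped ComplexOrder InnerProductSpace ComplexConjugate BoundedContinuousFunction
open Filter Topology

lemma cont_hom {B C : Type*} [CStarAlgebra B] [CStarAlgebra C] (φ : B →⋆ₐ[ℂ] C) : Continuous φ :=
  AddMonoidHomClass.continuous_of_bound φ 1 fun x => by
    simpa using NonUnitalStarAlgHom.norm_apply_le φ x

lemma exists_lift {B C : Type*} [CStarAlgebra B] [CStarAlgebra C] (φ : B →⋆ₐ[ℂ] C) (x : B) {r : ℝ}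
    (hr : ‖φ x‖ ≤ r) : ∃ y, φ y = φ x ∧ ‖y‖ ≤ r := by
  rcases ((norm_nonneg _).trans hr).eq_or_lt with h0 | h0
  · refine ⟨0, ?_, by simp [← h0]⟩
    rw [← h0, norm_le_zero_iff] at hr
    rw [hr, map_zero]
  have hm : ∀ s : ℝ, 0 < max s (r ^ 2) := fun s => lt_max_of_lt_right (by positivity)
  let g : ℝ → ℝ := fun s => r / √(max s (r ^ 2))
  have hg : Continuous g := Continuous.div (by fun_prop) (by fun_prop)
    fun s => (Real.sqrt_pos.2 (hm s)).ne'
  refine ⟨x * cfc g (star x * x), ?_, norm_mul_cfc_le x g hg h0.le fun s hs => ?_⟩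
  · have hc : Continuous φ := cont_hom φ
    have hsa : IsSelfAdjoint (φ (star x * x)) := (IsSelfAdjoint.star_mul_self x).map φ
    rw [map_mul, φ.map_cfc g _ hg.continuousOn hc (IsSelfAdjoint.star_mul_self x) hsa,
      cfc_congr (g := fun _ => 1), cfc_const_one ℝ _ hsa, mul_one]
    intro s hs
    rcases subsingleton_or_nontrivial C with hC | hC
    · simp at hs
    have h1 := spectrum.norm_le_norm_of_mem hs
    rw [map_mul, map_star, CStarRing.norm_star_mul_self] at h1
    have h2 : s ≤ r ^ 2 := by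
      refine (le_abs_self s).trans (h1.trans ?_)
      rw [sq]; gcongr
    simp only [g, max_eq_right h2, Real.sqrt_sq h0.le, div_self h0.ne']
  · have h1 := Real.mul_self_sqrt (hm s).le
    have h2 := Real.sqrt_pos.2 (hm s)
    have h3 := le_max_left s (r ^ 2)
    simp only [g]
    field_simp
    nlinarith

section lift

variable {B Q C : Type*} [Ring B] [StarRing B] [Algebra ℂ B] [Ring Q] [StarRing Q]
  [Algebra ℂ Q] [Ring C] [StarRing C] [Algebra ℂ C] (f : B →⋆ₐ[ℂ] Q) (hf : Function.Surjective f)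
  (g : B →⋆ₐ[ℂ] C) (h : ∀ x, f x = 0 → g x = 0)

include h in
lemma lift_aux (x : B) : g (Function.surjInv hf (f x)) = g x := by
  rw [← sub_eq_zero, ← map_sub]
  exact h _ (by rw [map_sub, Function.surjInv_eq hf, sub_self])

/-- Factoring through a surjection. -/
noncomputable def liftHom : Q →⋆ₐ[ℂ] C where
  toFun q := g (Function.surjInv hf q)
  map_one' := by rw [← map_one f, lift_aux f hf g h, map_one]
  map_zero' := by rw [← map_zero f, lift_aux f hf g h, map_zero]
  map_mul' q r := by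
    obtain ⟨x, rfl⟩ := hf q
    obtain ⟨y, rfl⟩ := hf r
    simp only [← map_mul f, lift_aux f hf g h, map_mul g]
  map_add' q r := by
    obtain ⟨x, rfl⟩ := hf q
    obtain ⟨y, rfl⟩ := hf r
    simp only [← map_add f, lift_aux f hf g h, map_add g]
  commutes' c := by rw [← AlgHomClass.commutes f, lift_aux f hf g h, AlgHomClass.commutes]
  map_star' q := by
    obtain ⟨x, rfl⟩ := hf q
    simp only [← map_star f, lift_aux f hf g h, map_star g]

lemma liftHom_apply (x : B) : liftHom f hf g h (f x) = g x := lift_aux f hf g h x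

end lift

/-- A type with the discrete topology. -/
def Disc (ι : Type*) := ι

instance (ι : Type*) : TopologicalSpace (Disc ι) := ⊥
instance (ι : Type*) : DiscreteTopology (Disc ι) := ⟨rfl⟩

/-- Bounded families as a C-star algebra. -/
abbrev BB (ι A : Type*) [CStarAlgebra A] := Disc ι →ᵇ A

variable {A : Type*} [CStarAlgebra A] {ι : Type*}

/-- Bounded family from a function. -/
noncomputable def BB.mk (f : ι → A) (C : ℝ) (h : ∀ i, ‖f i‖ ≤ C) : BB ι A :=
  BoundedContinuousFunction.ofNormedAddCommGroupDiscrete (α := Disc ι) f C h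

@[simp] lemma BB.mk_apply (f : ι → A) (C : ℝ) (h : ∀ i, ‖f i‖ ≤ C) (i : ι) : BB.mk f C h i = f i :=
  rfl

lemma BB.norm_apply_le (x : BB ι A) (i : ι) : ‖x i‖ ≤ ‖x‖ := x.norm_coe_le_norm i

lemma BB.norm_mk_le (f : ι → A) {C : ℝ} (hC : 0 ≤ C) (h : ∀ i, ‖f i‖ ≤ C) : ‖BB.mk f C h‖ ≤ C :=
  (BoundedContinuousFunction.norm_le hC).2 h

variable (t : TrState A) (U : Ultrafilter ι)

/-- The quotient map onto the ultrapower. -/
noncomputable def mkU : BB ι A →⋆ₐ[ℂ] Ultrapower t U where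
  toFun x := (nullIdeal t U).mkQ ⟨fun i => x i, ‖x‖, x.norm_apply_le⟩
  map_one' := rfl
  map_mul' _ _ := rfl
  map_zero' := rfl
  map_add' _ _ := rfl
  commutes' c := by
    rw [Algebra.algebraMap_eq_smul_one, Algebra.algebraMap_eq_smul_one]; rfl
  map_star' _ := rfl

lemma mkQ_eq (x : Bdd ι A) : ∃ y : BB ι A, (∀ i, y i = x.val i) ∧ mkU t U y = (nullIdeal t U).mkQ x := by
  obtain ⟨x, C, hC⟩ := x
  exact ⟨BB.mk x C hC, fun _ => rfl, rfl⟩

lemma mkU_surjective : Function.Surjective (mkU t U) := by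
  rintro ⟨x⟩
  obtain ⟨y, -, h⟩ := mkQ_eq t U x
  exact ⟨y, h⟩

lemma mkU_eq_zero_iff (x : BB ι A) :
    mkU t U x = 0 ↔ Tendsto (fun i : ι => t.τ (star (x i) * x i)) U (𝓝 0) :=
  Submodule.Quotient.mk_eq_zero _

lemma diag_eq (a : A) : Ultrapower.diag t U a = mkU t U (BoundedContinuousFunction.const _ a) := rfl

lemma exists_ulim {f : ι → ℂ} {C : ℝ} (h : ∀ i, ‖f i‖ ≤ C) : ∃ c, Tendsto f U (𝓝 c) := by
  obtain ⟨c, -, hc⟩ := (isCompact_closedBall (0 : ℂ) C).ultrafilter_le_nhds (U.map f)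
    (le_principal_iff.2 (mem_map.2 (univ_mem' fun i => by simpa using h i)))
  exact ⟨c, hc⟩

lemma tendsto_lim (x : BB ι A) :
    Tendsto (fun i : ι => t.τ (x i)) U (𝓝 (limUnder (U : Filter ι) fun i : ι => t.τ (x i))) :=
  tendsto_nhds_limUnder (exists_ulim U fun i => (t.norm_τ_le _).trans (x.norm_apply_le i))

/-- The limit trace. -/
noncomputable def limTr : TrState (BB ι A) where
  τ :=
    { toFun x := limUnder (U : Filter ι) fun i : ι => t.τ (x i)
      map_add' x y := tendsto_nhds_unique (tendsto_lim t U _) (by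
        simpa using (tendsto_lim t U x).add (tendsto_lim t U y))
      map_smul' c x := tendsto_nhds_unique (tendsto_lim t U _) (by
        simpa using (tendsto_lim t U x).const_mul c) }
  map_one := tendsto_nhds_unique (tendsto_lim t U _) (tendsto_const_nhds.congr fun _ => t.map_one.symm)
  nonneg x := ge_of_tendsto' (tendsto_lim t U _) fun i => t.nonneg _
  trace x y := tendsto_nhds_unique (tendsto_lim t U _) (by
    simpa [t.trace (x _)] using tendsto_lim t U (y * x))

lemma tendsto_limTr (x : BB ι A) : Tendsto (fun i : ι => t.τ (x i)) U (𝓝 ((limTr t U).τ x)) :=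
  tendsto_lim t U x

lemma mkU_eq_zero_iff' (x : BB ι A) : mkU t U x = 0 ↔ (limTr t U).π x = 0 := by
  rw [mkU_eq_zero_iff, TrState.π_eq_zero_iff, ← pow_eq_zero_iff two_ne_zero,
    ← TrState.norm_τ_star_mul, norm_eq_zero]
  have := tendsto_limTr t U (star x * x)
  exact ⟨fun h => tendsto_nhds_unique this h, fun h => h ▸ this⟩

/-- The faithful representation of the ultrapower. -/
noncomputable def rep : Ultrapower t U →⋆ₐ[ℂ] ((limTr t U).L2 →L[ℂ] (limTr t U).L2) :=
  liftHom (mkU t U) (mkU_surjective t U) (limTr t U).π fun x => (mkU_eq_zero_iff' t U x).1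

lemma rep_mkU (x : BB ι A) : rep t U (mkU t U x) = (limTr t U).π x := liftHom_apply _ _ _ _ _

lemma rep_injective : Function.Injective (rep t U) := by
  rw [injective_iff_map_eq_zero]
  intro q hq
  obtain ⟨x, rfl⟩ := mkU_surjective t U q
  rwa [rep_mkU, ← mkU_eq_zero_iff'] at hq

noncomputable instance : NormedRing (Ultrapower t U) :=
  NormedRing.induced _ _ (rep t U) (rep_injective t U)

lemma norm_up (q : Ultrapower t U) : ‖q‖ = ‖rep t U q‖ := rfl

lemma norm_mkU_le (x : BB ι A) : ‖mkU t U x‖ ≤ ‖x‖ := by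
  rw [norm_up, rep_mkU]; exact NonUnitalStarAlgHom.norm_apply_le _ x

lemma exists_mkU (q : Ultrapower t U) : ∃ x, mkU t U x = q ∧ ‖x‖ ≤ ‖q‖ := by
  obtain ⟨x, rfl⟩ := mkU_surjective t U q
  obtain ⟨y, h1, h2⟩ := exists_lift (limTr t U).π x le_rfl
  exact ⟨y, rep_injective t U (by rw [rep_mkU, rep_mkU, h1]), by rwa [norm_up, rep_mkU]⟩

noncomputable instance : CStarAlgebra (Ultrapower t U) where
  norm_mul_self_le x := by
    rw [norm_up, norm_up, map_mul, map_star, CStarRing.norm_star_mul_self]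
  norm_smul_le c x := by rw [norm_up, norm_up, map_smul]; exact norm_smul_le _ _
  toCompleteSpace := NormedAddCommGroup.completeSpace_of_summable_imp_tendsto fun u hu => by
    choose x hx hx' using fun n => exists_mkU t U (u n)
    have h1 : Summable x := Summable.of_norm_bounded hu hx'
    have h2 : Continuous (mkU t U) :=
      AddMonoidHomClass.continuous_of_bound (mkU t U) 1 fun x => by simpa using norm_mkU_le t U x
    refine ⟨_, (h2.tendsto _).comp h1.hasSum.tendsto_sum_nat |>.congr fun n => ?_⟩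
    simp [hx]

/-- The trace of the ultrapower. -/
noncomputable def upTr : TrState (Ultrapower t U) where
  τ :=
    { toFun q := ⟪(limTr t U).Λ 1, rep t U q ((limTr t U).Λ 1)⟫_ℂ
      map_add' x y := by simp [inner_add_right]
      map_smul' c x := by simp [inner_smul_right] }
  map_one := by simp [TrState.norm_Λ]
  nonneg q := by
    obtain ⟨x, rfl⟩ := mkU_surjective t U q
    simpa [← map_star, ← map_mul, rep_mkU, TrState.inner_Λ] using (limTr t U).nonneg x
  trace q r := by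
    obtain ⟨x, rfl⟩ := mkU_surjective t U q
    obtain ⟨y, rfl⟩ := mkU_surjective t U r
    simpa [← map_mul, rep_mkU, TrState.inner_Λ] using (limTr t U).trace x y

lemma upTr_mkU (x : BB ι A) : (upTr t U).τ (mkU t U x) = (limTr t U).τ x := by
  change ⟪_, rep t U _ _⟫_ℂ = _
  simp [rep_mkU, TrState.inner_Λ]

lemma tendsto_τ (x : BB ι A) :
    Tendsto (fun i : ι => t.τ (x i)) U (𝓝 ((upTr t U).τ (mkU t U x))) := by
  rw [upTr_mkU]; exact tendsto_limTr t U x

lemma tendsto_n2 (x : BB ι A) :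
    Tendsto (fun i : ι => t.n2 (x i)) U (𝓝 ((upTr t U).n2 (mkU t U x))) := by
  have := (Complex.continuous_re.tendsto _).comp (tendsto_τ t U (star x * x))
  rw [map_mul, map_star, ← TrState.n2_sq] at this
  have h2 := this.sqrt
  rw [Real.sqrt_sq (TrState.n2_nonneg _ _)] at h2
  refine h2.congr fun i => ?_
  change √(t.τ (star (x i) * x i)).re = _
  rw [← TrState.n2_sq, Real.sqrt_sq (TrState.n2_nonneg _ _)]

lemma upTr_faithful : (upTr t U).Faithful := by
  intro q hq
  obtain ⟨x, rfl⟩ := mkU_surjective t U q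
  rw [mkU_eq_zero_iff, ← hq, ← map_star, ← map_mul]
  exact tendsto_τ t U (star x * x)

lemma n2_mkU_le {x : BB ι A} {C : ℝ} (h : ∀ᶠ i in (U : Filter ι), t.n2 (x i) ≤ C) :
    (upTr t U).n2 (mkU t U x) ≤ C := le_of_tendsto (tendsto_n2 t U x) h

lemma eventually_n2_lt {x : BB ι A} {C : ℝ} (h : (upTr t U).n2 (mkU t U x) < C) :
    ∀ᶠ i in (U : Filter ι), t.n2 (x i) < C := (tendsto_n2 t U x).eventually (gt_mem_nhds h)

lemma exists_ball (q : Ultrapower t U) (hq : ‖q‖ ≤ 1) :
    ∃ x : BB ι A, mkU t U x = q ∧ ∀ i, ‖x i‖ ≤ 1 := by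
  obtain ⟨x, h1, h2⟩ := exists_mkU t U q
  exact ⟨x, h1, fun i => (x.norm_apply_le i).trans (h2.trans hq)⟩

lemma norm_mkU_le_one {x : BB ι A} (h : ∀ i, ‖x i‖ ≤ 1) : ‖mkU t U x‖ ≤ 1 :=
  (norm_mkU_le t U x).trans ((BoundedContinuousFunction.norm_le zero_le_one).2 h)

namespace TrState

lemma W_of_seq (hf : t.Faithful) (h : ∀ x : ℕ → A, (∀ n, ‖x n‖ ≤ 1) →
    (∀ n, t.n2 (x n - x (n + 1)) < 1 / 2 / 2 ^ n) →
      ∃ a, ‖a‖ ≤ 1 ∧ Tendsto (fun n => t.n2 (x n - a)) atTop (𝓝 0)) : t.W := by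
  refine ⟨hf, isClosed_of_closure_subset fun ξ hξ => ?_⟩
  have h1 : ∀ n : ℕ, ∃ a, ‖a‖ ≤ 1 ∧ ‖t.Λ a - ξ‖ < 1 / 4 / 2 ^ n := fun n => by
    obtain ⟨_, ⟨a, ha, rfl⟩, h2⟩ := Metric.mem_closure_iff.1 hξ (1 / 4 / 2 ^ n) (by positivity)
    exact ⟨a, by simpa using ha, by rwa [dist_comm, dist_eq_norm] at h2⟩
  choose x hx hx' using h1
  obtain ⟨a, ha, h2⟩ := h x hx fun n => by
    have h3 := norm_sub_le (t.Λ (x n) - ξ) (t.Λ (x (n + 1)) - ξ)
    rw [sub_sub_sub_cancel_right, ← map_sub, norm_Λ] at h3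
    have h4 := hx' n
    have h5 := hx' (n + 1)
    have h6 : (1 : ℝ) / 4 / 2 ^ (n + 1) ≤ 1 / 4 / 2 ^ n := by gcongr <;> norm_num
    have h7 : (1 : ℝ) / 2 / 2 ^ n = 1 / 4 / 2 ^ n + 1 / 4 / 2 ^ n := by ring
    linarith
  refine ⟨a, by simpa using ha, ?_⟩
  have h3 : Tendsto (fun n => t.Λ (x n)) atTop (𝓝 ξ) := by
    rw [tendsto_iff_norm_sub_tendsto_zero]
    refine squeeze_zero (fun _ => norm_nonneg _) (fun n => (hx' n).le) ?_
    exact tendsto_const_nhds.div_atTop (tendsto_pow_atTop_atTop_of_one_lt one_lt_two)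
  refine tendsto_nhds_unique ?_ h3
  rw [tendsto_iff_norm_sub_tendsto_zero]
  simpa only [← map_sub, norm_Λ] using h2

lemma exists_lim_geom [t.W] (x : ℕ → A) (hx : ∀ n, ‖x n‖ ≤ 1)
    (h : ∀ n, t.n2 (x n - x (n + 1)) ≤ 1 / 2 / 2 ^ n) :
    ∃ a, ‖a‖ ≤ 1 ∧ ∀ n, t.n2 (x n - a) ≤ 1 / 2 ^ n := by
  have h' : ∀ n, dist (t.Λ (x n)) (t.Λ (x (n + 1))) ≤ 1 / 2 / 2 ^ n := fun n => by
    rw [dist_eq_norm, ← map_sub]; exact h n
  obtain ⟨ξ, hξ⟩ := cauchySeq_tendsto_of_complete (cauchySeq_of_le_geometric_two h')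
  obtain ⟨a, ha, rfl⟩ := t.exists_of_mem_closure (s := Set.range x)
    (by rintro _ ⟨n, rfl⟩; exact hx n)
    (mem_closure_of_tendsto hξ (Eventually.of_forall fun n => ⟨_, ⟨n, rfl⟩, rfl⟩))
  refine ⟨a, ha, fun n => ?_⟩
  have := dist_le_of_le_geometric_two_of_tendsto h' hξ n
  rwa [dist_eq_norm, ← map_sub] at this

lemma tendsto_of_geom {x : ℕ → A} {a : A} (h : ∀ n, t.n2 (x n - a) ≤ 1 / 2 ^ n) :
    Tendsto (fun n => t.n2 (x n - a)) atTop (𝓝 0) :=
  squeeze_zero (fun _ => t.n2_nonneg _) h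
    (tendsto_const_nhds.div_atTop (tendsto_pow_atTop_atTop_of_one_lt one_lt_two))

/-- Pull back of a trace. -/
noncomputable def comap {B : Type*} [CStarAlgebra B] (φ : B →⋆ₐ[ℂ] A) : TrState B where
  τ := t.τ ∘ₗ φ.toAlgHom.toLinearMap
  map_one := by simp [t.map_one]
  nonneg x := by simpa [StarHomClass.map_star] using t.nonneg (φ x)
  trace x y := by simpa using t.trace (φ x) (φ y)

lemma comap_τ {B : Type*} [CStarAlgebra B] (φ : B →⋆ₐ[ℂ] A) (b : B) :
    (t.comap φ).τ b = t.τ (φ b) := rfl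

lemma n2_map {B : Type*} [CStarAlgebra B] {s : TrState B} (φ : B →⋆ₐ[ℂ] A)
    (h : ∀ b, t.τ (φ b) = s.τ b) (b : B) : t.n2 (φ b) = s.n2 b := by
  rw [← sq_eq_sq₀ (n2_nonneg _ _) (n2_nonneg _ _), n2_sq, n2_sq, ← h, map_mul φ,
    StarHomClass.map_star φ]

lemma comap_n2 {B : Type*} [CStarAlgebra B] (φ : B →⋆ₐ[ℂ] A) (b : B) :
    (t.comap φ).n2 b = t.n2 (φ b) := (t.n2_map φ (fun _ => rfl) b).symm

/-- Distance to the scalars. -/
noncomputable def dev (a : A) : ℝ := t.n2 (a - t.τ a • 1)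

/-- Size of a commutator. -/
noncomputable def cm (a b : A) : ℝ := t.n2 (a * b - b * a)

lemma W_comap [t.W] {B : Type*} [CStarAlgebra B] (φ : B →⋆ₐ[ℂ] A) (hφ : Function.Injective φ)
    (h : ∀ (x : ℕ → B) (a : A), (∀ n, ‖x n‖ ≤ 1) →
      Tendsto (fun n => t.n2 (φ (x n) - a)) atTop (𝓝 0) → ∃ b, φ b = a) :
    (t.comap φ).W := by
  refine W_of_seq _ (fun b hb => hφ ?_) fun x hx h1 => ?_
  · rw [map_zero]
    refine W.faithful (t := t) _ ?_
    rwa [comap_τ, map_mul, StarHomClass.map_star] at hb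
  obtain ⟨a, ha, h2⟩ := t.exists_lim_geom (fun n => φ (x n))
    (fun n => (NonUnitalStarAlgHom.norm_apply_le φ _).trans (hx n))
    fun n => by simpa [comap_n2] using (h1 n).le
  obtain ⟨b, rfl⟩ := h x a hx (t.tendsto_of_geom h2)
  refine ⟨b, by rwa [NonUnitalStarAlgHom.norm_map φ hφ] at ha, ?_⟩
  simpa [comap_n2] using t.tendsto_of_geom h2

end TrState

instance [t.W] : (upTr t U).W := by
  refine TrState.W_of_seq _ (upTr_faithful t U) fun q hq h => ?_
  choose x hx hx' using fun n => exists_ball t U (q n) (hq n)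
  classical
  let z : ι → ℕ → A := fun i n => Nat.rec (x 0 i)
    (fun n a => if t.n2 (a - x (n + 1) i) ≤ 1 / 2 / 2 ^ n then x (n + 1) i else a) n
  have hz : ∀ i n, z i (n + 1) =
      if t.n2 (z i n - x (n + 1) i) ≤ 1 / 2 / 2 ^ n then x (n + 1) i else z i n := fun _ _ => rfl
  have h1 : ∀ i n, ‖z i n‖ ≤ 1 := fun i n => by
    induction n with
    | zero => exact hx' 0 i
    | succ n ih => rw [hz]; split_ifs; exacts [hx' _ i, ih]
  have h2 : ∀ i n, t.n2 (z i n - z i (n + 1)) ≤ 1 / 2 / 2 ^ n := fun i n => by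
    rw [hz]; split_ifs with h
    · exact h
    · rw [sub_self, TrState.n2_zero]; positivity
  have h3 : ∀ n, ∀ᶠ i in (U : Filter ι), z i n = x n i := fun n => by
    induction n with
    | zero => exact Eventually.of_forall fun _ => rfl
    | succ n ih =>
      have := h n
      rw [← hx, ← hx, ← map_sub] at this
      filter_upwards [ih, eventually_n2_lt t U this] with i h4 h5
      rw [hz, h4, if_pos h5.le]
  choose y hy hy' using fun i => t.exists_lim_geom (z i) (h1 i) (h2 i)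
  refine ⟨mkU t U (BB.mk y 1 hy), norm_mkU_le_one t U hy, TrState.tendsto_of_geom _ fun n => ?_⟩
  rw [← hx, ← map_sub]
  refine n2_mkU_le t U ?_
  filter_upwards [h3 n] with i hi
  have := hy' i n
  rwa [hi] at this

lemma tendsto_cm (x y : BB ι A) : Tendsto (fun i : ι => t.cm (x i) (y i)) U
    (𝓝 ((upTr t U).cm (mkU t U x) (mkU t U y))) := by
  have := tendsto_n2 t U (x * y - y * x)
  rwa [map_sub, map_mul, map_mul] at this

lemma tendsto_dev (x : BB ι A) :
    Tendsto (fun i : ι => t.dev (x i)) U (𝓝 ((upTr t U).dev (mkU t U x))) := by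
  have h1 := tendsto_n2 t U (x - (upTr t U).τ (mkU t U x) • 1)
  rw [map_sub, map_smul, map_one] at h1
  have h2 := tendsto_iff_norm_sub_tendsto_zero.1 (tendsto_τ t U x)
  refine h1.congr_dist (squeeze_zero (fun _ => dist_nonneg) (fun i => ?_) h2)
  refine (dist_norm_norm_le _ _).trans_eq ?_
  rw [← map_sub, TrState.norm_Λ]
  change t.n2 (x i - (upTr t U).τ (mkU t U x) • 1 - (x i - t.τ (x i) • 1)) = _
  rw [sub_sub_sub_cancel_left, ← sub_smul, TrState.n2_smul, TrState.n2_one, mul_one]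

/-- The diagonal embedding. -/
noncomputable def diagHom : A →⋆ₐ[ℂ] Ultrapower t U where
  toFun := Ultrapower.diag t U
  map_one' := rfl
  map_mul' _ _ := rfl
  map_zero' := rfl
  map_add' _ _ := rfl
  commutes' c := by
    rw [Algebra.algebraMap_eq_smul_one, Algebra.algebraMap_eq_smul_one]; rfl
  map_star' _ := rfl

lemma diagHom_apply (a : A) : diagHom t U a = mkU t U (BoundedContinuousFunction.const _ a) := rfl

lemma τ_diag (a : A) : (upTr t U).τ (diagHom t U a) = t.τ a :=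
  tendsto_nhds_unique (tendsto_τ t U (BoundedContinuousFunction.const _ a)) tendsto_const_nhds

lemma n2_diag (a : A) : (upTr t U).n2 (diagHom t U a) = t.n2 a :=
  TrState.n2_map _ _ (τ_diag t U) a

lemma diag_injective [t.W] : Function.Injective (diagHom t U) := by
  rw [injective_iff_map_eq_zero]
  intro a ha
  exact t.eq_zero_of_n2 (by rw [← n2_diag t U, ha, TrState.n2_zero])

lemma isFac_of_ball [t.W] (h : ∀ x : A, ‖x‖ ≤ 1 → (∀ y, x * y = y * x) → t.dev x ≤ 0) :
    IsFac A := by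
  intro x hx
  have hp : 0 < ‖x‖ + 1 := by positivity
  have h0 : (((‖x‖ + 1)⁻¹ : ℝ) : ℂ) ≠ 0 := by exact_mod_cast (inv_pos.2 hp).ne'
  have := t.eq_of_n2 ((h ((((‖x‖ + 1)⁻¹ : ℝ) : ℂ) • x) (by
    rw [norm_smul, Complex.norm_real, Real.norm_of_nonneg (by positivity), inv_mul_le_iff₀ hp]
    linarith) fun y => by rw [smul_mul_assoc, mul_smul_comm, hx]).antisymm (t.n2_nonneg _))
  rw [map_smul, smul_assoc] at this
  exact ⟨_, smul_right_injective _ h0 this⟩

theorem isInfFactor_up [t.W] (hf : IsInfFactor A) : IsInfFactor (Ultrapower t U) := by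
  refine ⟨isFac_of_ball (upTr t U) fun q hq hc => le_of_forall_pos_le_add fun ε hε => ?_,
    fun h => hf.2 (FiniteDimensional.of_injective (diagHom t U).toAlgHom.toLinearMap
      (diag_injective t U))⟩
  obtain ⟨x, rfl, hx⟩ := exists_ball t U q hq
  choose u hu hu' using fun i => t.factor_ineq hf.1 (hx i) hε
  have := t.nontrivial
  have h1 := tendsto_cm t U (BB.mk u 1 fun i => (CStarRing.norm_of_mem_unitary (hu i)).le) x
  rw [TrState.cm, hc, sub_self, TrState.n2_zero] at h1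
  exact le_of_tendsto_of_tendsto' (tendsto_dev t U x) (h1.add_const ε) hu'

end Pool.Agent.Lib.Tracial
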