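import Pool.Agent.Lib.Tracial.UP

namespace Pool.Agent.Lib.Tracial

open scoped ComplexOrder InnerProductSpace ComplexConjugate
open Filter Topology

universe u

lemma exists_wot_lim {H : Type*} [NormedAddCommGroup H] [InnerProductSpace ℂ H] [CompleteSpace H]
    {ι : Type*} (U : Ultrafilter ι) (x : ι → H →L[ℂ] H) (hx : ∀ i, ‖x i‖ ≤ 1) :
    ∃ T : H →L[ℂ] H, ‖T‖ ≤ 1 ∧ ∀ ξ η, Tendsto (fun i => ⟪η, x i ξ⟫_ℂ) U (𝓝 ⟪η, T ξ⟫_ℂ) := by
  have hb : ∀ ξ η i, ‖⟪x i ξ, η⟫_ℂ‖ ≤ ‖ξ‖ * ‖η‖ := fun ξ η i =>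
    (norm_inner_le_norm _ _).trans (mul_le_mul_of_nonneg_right
      (((x i).le_opNorm ξ).trans (mul_le_of_le_one_left (norm_nonneg _) (hx i))) (norm_nonneg _))
  choose f hf using fun ξ η => exists_ulim U (hb ξ η)
  have hf' : ∀ ξ η, ‖f ξ η‖ ≤ ‖ξ‖ * ‖η‖ := fun ξ η => le_of_tendsto' (hf ξ η).norm (hb ξ η)
  let g : H → H →L[ℂ] ℂ := fun ξ => LinearMap.mkContinuous
    { toFun := f ξ
      map_add' := fun a b => tendsto_nhds_unique (hf ξ _) (by
        simpa [inner_add_right] using (hf ξ a).add (hf ξ b))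
      map_smul' := fun c a => tendsto_nhds_unique (hf ξ _) (by
        simpa [inner_smul_right] using (hf ξ a).const_mul c) } ‖ξ‖ (hf' ξ)
  let T : H → H := fun ξ => (InnerProductSpace.toDual ℂ H).symm (g ξ)
  have hT : ∀ ξ η, Tendsto (fun i => ⟪η, x i ξ⟫_ℂ) U (𝓝 ⟪η, T ξ⟫_ℂ) := fun ξ η => by
    have := (Complex.continuous_conj.tendsto _).comp (hf ξ η)
    rw [← inner_conj_symm, InnerProductSpace.toDual_symm_apply]
    exact this.congr fun i => inner_conj_symm _ _
  have hn : ∀ ξ, ‖T ξ‖ ≤ 1 * ‖ξ‖ := fun ξ => by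
    rw [LinearIsometryEquiv.norm_map, one_mul]
    exact LinearMap.mkContinuous_norm_le _ (norm_nonneg _) _
  refine ⟨LinearMap.mkContinuous
    { toFun := T
      map_add' := fun a b => ext_inner_left ℂ fun η => tendsto_nhds_unique (hT _ η) (by
        simpa [inner_add_right] using (hT a η).add (hT b η))
      map_smul' := fun c a => ext_inner_left ℂ fun η => tendsto_nhds_unique (hT _ η) (by
        simpa [inner_smul_right] using (hT a η).const_mul c) } 1 hn,
    LinearMap.mkContinuous_norm_le _ zero_le_one _, hT⟩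

lemma W_of_normal {H : Type u} [NormedAddCommGroup H] [InnerProductSpace ℂ H] [CompleteSpace H]
    (M : VonNeumannAlgebra H) (t : TrState (VNAlg M)) (hf : t.Faithful)
    (hn : IsNormalFun (VNAlg.op (M := M)) t.τ) : t.W := by
  refine t.W_of_seq hf fun x hx h => ?_
  obtain ⟨T, hT, hT'⟩ := exists_wot_lim (hyperfilter ℕ) (fun n => (x n).op) hx
  have hM : T ∈ M.toStarSubalgebra := by
    rw [VonNeumannAlgebra.mem_carrier, ← M.centralizer_centralizer]
    intro y hy
    ext ξ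
    refine ext_inner_left ℂ fun η => tendsto_nhds_unique ?_ (hT' (y ξ) η)
    rw [ContinuousLinearMap.mul_apply, ← ContinuousLinearMap.adjoint_inner_left]
    refine (hT' ξ _).congr fun n => ?_
    rw [ContinuousLinearMap.adjoint_inner_left]
    exact congrArg (fun S : H →L[ℂ] H => ⟪η, S ξ⟫_ℂ) (hy _ (x n).2).symm
  let a : VNAlg M := ⟨T, hM⟩
  have h' : ∀ n, dist (t.Λ (x n)) (t.Λ (x (n + 1))) ≤ 1 / 2 / 2 ^ n := fun n => by
    rw [dist_eq_norm, ← map_sub]; exact (h n).le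
  obtain ⟨ξ, hξ⟩ := cauchySeq_tendsto_of_complete (cauchySeq_of_le_geometric_two h')
  have h1 : ∀ c, ‖c‖ ≤ 1 → ⟪t.Λ c, t.Λ a⟫_ℂ = ⟪t.Λ c, ξ⟫_ℂ := fun c hc => by
    have h2 := hn (map (fun n => star c * x n) (hyperfilter ℕ)) (star c * a)
      (eventually_map.2 (Eventually.of_forall fun n => (norm_mul_le _ _).trans
        (mul_le_one₀ (by simpa using hc) (norm_nonneg _) (hx n)))) fun ζ η => by
        rw [tendsto_map'_iff]
        have := hT' ζ (ContinuousLinearMap.adjoint (star c).op η)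
        simp only [ContinuousLinearMap.adjoint_inner_left] at this
        exact this
    rw [tendsto_map'_iff] at h2
    have h3 := (tendsto_const_nhds (x := t.Λ c)).inner (𝕜 := ℂ)
      (hξ.mono_left Nat.hyperfilter_le_atTop)
    simp only [t.inner_Λ] at h3 ⊢
    exact tendsto_nhds_unique h2 h3
  have h2 : t.Λ a = ξ := t.ext_inner_Λ fun c => by
    have hp : 0 < ‖c‖ + 1 := by positivity
    have h0 : (((‖c‖ + 1)⁻¹ : ℝ) : ℂ) ≠ 0 := by exact_mod_cast (inv_pos.2 hp).ne'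
    have := h1 ((((‖c‖ + 1)⁻¹ : ℝ) : ℂ) • c) (by
      rw [norm_smul, Complex.norm_real, Real.norm_of_nonneg (by positivity), inv_mul_le_iff₀ hp]
      linarith)
    rw [map_smul, inner_smul_left, inner_smul_left, Complex.conj_ofReal] at this
    exact mul_left_cancel₀ h0 this
  refine ⟨a, hT, ?_⟩
  rw [← h2, tendsto_iff_norm_sub_tendsto_zero] at hξ
  simpa only [← map_sub, t.norm_Λ] using hξ

instance (N : II1Factor.{u}) : N.tr.W :=
  @W_of_normal N.H N.i1 N.i2 N.i3 N.M N.t N.faithful N.normal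

lemma II1Factor.isInfFactor (N : II1Factor.{u}) : IsInfFactor N.Alg := N.factor

lemma IsInfFactor.of_equiv {A B : Type*} [CStarAlgebra A] [CStarAlgebra B] (h : IsInfFactor A)
    (e : A ≃⋆ₐ[ℂ] B) : IsInfFactor B := by
  refine ⟨fun x hx => ?_, fun hB => h.2 (FiniteDimensional.of_injective
    (e : A →ₗ[ℂ] B) e.injective)⟩
  obtain ⟨y, rfl⟩ := EquivLike.surjective e x
  obtain ⟨c, rfl⟩ := h.1 y fun z => EquivLike.injective e (by rw [map_mul, map_mul, hx])
  exact ⟨c, by simp⟩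

variable {A : Type u} [CStarAlgebra A] (t : TrState A)

/-- The von Neumann algebra of the trace representation. -/
noncomputable def TrState.vn : VonNeumannAlgebra t.L2 where
  toStarSubalgebra := StarSubalgebra.centralizer ℂ (Set.range t.rmul)
  centralizer_centralizer' := Set.centralizer_centralizer_centralizer _

theorem exists_II1 [t.W] (hf : IsInfFactor A) :
    ∃ (Q : II1Factor.{u}) (e : A ≃⋆ₐ[ℂ] Q.Alg), ∀ a, Q.tr.τ (e a) = t.τ a := by
  let φ : A →⋆ₐ[ℂ] VNAlg t.vn := t.π.codRestrict t.vn.toStarSubalgebra fun a => by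
    rw [TrState.vn, StarSubalgebra.mem_centralizer_iff]
    rintro _ ⟨b, rfl⟩
    rw [← t.rmul_star]
    exact ⟨(t.π_rmul_comm a b).symm, (t.π_rmul_comm a _).symm⟩
  have hφ : Function.Bijective φ := by
    refine ⟨fun a b h => t.π_injective (congrArg Subtype.val h), fun T => ?_⟩
    obtain ⟨a, ha⟩ := t.exists_π_eq T.1 fun b =>
      (((StarSubalgebra.mem_centralizer_iff ℂ).1 T.2) _ ⟨b, rfl⟩).1
    exact ⟨a, Subtype.ext ha⟩
  let e : A ≃⋆ₐ[ℂ] VNAlg t.vn := StarAlgEquiv.ofBijective φ hφ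
  let s : TrState (VNAlg t.vn) := t.comap (e.symm : VNAlg t.vn →⋆ₐ[ℂ] A)
  have hs : ∀ a, s.τ (e a) = t.τ a := fun a => congrArg t.τ (e.symm_apply_apply a)
  have hs' : ∀ T, s.τ T = ⟪t.Λ 1, T.op (t.Λ 1)⟫_ℂ := fun T => by
    obtain ⟨a, rfl⟩ := EquivLike.surjective e T
    rw [hs]
    change _ = ⟪_, t.π a _⟫_ℂ
    simp [t.inner_Λ]
  refine ⟨⟨t.L2, t.vn, s, fun T hT => ?_, fun l a _ h => ?_, hf.of_equiv e⟩, e, hs⟩
  · obtain ⟨a, rfl⟩ := EquivLike.surjective e T
    rw [← map_star, ← map_mul, hs] at hT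
    rw [TrState.W.faithful (t := t) a hT, map_zero]
  · rw [hs']
    exact (h _ _).congr fun T => (hs' T).symm

theorem isII1_of_W [t.W] (hf : IsInfFactor A) : IsII1 A := by
  obtain ⟨Q, e, -⟩ := exists_II1 t hf
  exact ⟨Q, ⟨e⟩⟩

theorem IsII1.isInfFactor (h : IsII1 A) : IsInfFactor A := by
  obtain ⟨Q, ⟨e⟩⟩ := h
  exact Q.isInfFactor.of_equiv e.symm

instance (s : Set A) : IsClosed (StarSubalgebra.centralizer ℂ s : Set A) :=
  Set.isClosed_centralizer _

/-- The trace on a relative commutant. -/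
noncomputable def TrState.cent (s : Set A) : TrState (StarSubalgebra.centralizer ℂ s) :=
  t.comap (StarSubalgebra.centralizer ℂ s).subtype

instance [t.W] (s : Set A) : (t.cent s).W := by
  refine t.W_comap _ Subtype.val_injective fun x a _ h => ⟨⟨a, fun b hb => ?_⟩, rfl⟩
  have h1 := t.lim_mul_const b 1 h
  have h2 := t.lim_mul_const 1 b h
  simp only [mul_one, one_mul] at h1 h2
  exact t.eq_of_lim h1 (h2.congr fun n => congrArg (fun z => t.n2 (z - a * b)) ((x n).2 b hb).symm)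

theorem commutantIsII1_iff [t.W] (s : Set A) :
    CommutantIsII1 s ↔ IsInfFactor (StarSubalgebra.centralizer ℂ s) :=
  ⟨fun h => IsII1.isInfFactor h, fun h => isII1_of_W (t.cent s) h⟩

end Pool.Agent.Lib.Tracial
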